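import Pool.Agent.Y263.IV.Track

/-!
# Affine conjugates of the splitting and of the folding
-/

set_option autoImplicit false

namespace Pool.Agent.Y263.IV

open Pool.Agent.Results.MP_40a019_an.BoundedWidth
open Complex Set Filter Topology Metric Bornology

/-- the image of `T` under `w ↦ c * w + v` -/
def Im (c v : ℂ) (T : Set ℂ) : Set ℂ := {w | c⁻¹ * (w - v) ∈ T}

theorem invo_aff {σ : ℂ → ℂ} (h : IsInvo σ) {c : ℂ} (hc : c ≠ 0) (v : ℂ) :
    IsInvo (fun w => c * σ (c⁻¹ * (w - v)) + v) := by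
  have h1 : (fun w : ℂ => c * w + v) ∘ (fun w => c⁻¹ * w + (-(c⁻¹ * v))) =ᶠ[cobounded ℂ] id :=
    Eventually.of_forall fun w => by
      simp only [Function.comp, id]
      field_simp
      ring
  have h2 : (fun w => c⁻¹ * w + (-(c⁻¹ * v))) ∘ (fun w : ℂ => c * w + v) =ᶠ[cobounded ℂ] id :=
    Eventually.of_forall fun w => by
      simp only [Function.comp, id]
      field_simp
      ring
  have h3 := invo_conj h (good_aff hc v) (good_aff (inv_ne_zero hc) (-(c⁻¹ * v))) h1 h2 h1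
  have e : (fun w => c * σ (c⁻¹ * (w - v)) + v)
      = (fun w : ℂ => c * w + v) ∘ σ ∘ (fun w => c⁻¹ * w + (-(c⁻¹ * v))) := by
    funext w
    simp only [Function.comp]
    have : c⁻¹ * w + -(c⁻¹ * v) = c⁻¹ * (w - v) := by ring
    rw [this]
  rw [e]
  exact h3

theorem HasRes.affG {F : ℂ → ℂ} {l : ℂ} (h : HasRes F l) {c : ℂ} (hc : c ≠ 0) (v : ℂ) :
    HasRes (fun w => c⁻¹ * (F (c * w + v) - v)) (c⁻¹ ^ 2 * l) := by
  have h1 := h.shift (-v)
  have h' : Tendsto (fun w => w * ((F (w - -v) + -v) - w)) (cobounded ℂ) (𝓝 l) := h1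
  have h2 := (h'.comp (tendsto_mul_cobounded hc)).const_mul (c⁻¹ ^ 2)
  refine h2.congr fun w => ?_
  simp only [Function.comp, sub_neg_eq_add]
  field_simp
  ring

section
variable {ι : Type} {d : ι → ι → ℝ} {x y a α β : ℝ} {e P Q : ι → ℂ → ℂ}

theorem aff_sub {T : Set ℂ} {c v : ℂ} (hc : c ≠ 0) : T ⊆ {w | c * w + v ∈ Im c v T} := by
  intro w hw
  show c⁻¹ * (c * w + v - v) ∈ T
  rw [add_sub_cancel_right, inv_mul_cancel_left₀ hc]
  exact hw

theorem Im_co {T : Set ℂ} (hT : ∀ᶠ w in cobounded ℂ, w ∈ T) {c v : ℂ} (hc : c ≠ 0) :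
    ∀ᶠ w in cobounded ℂ, w ∈ Im c v T := by
  have h1 := (tendsto_aff (inv_ne_zero hc) (-(c⁻¹ * v))).eventually hT
  filter_upwards [h1] with w hw
  show c⁻¹ * (w - v) ∈ T
  rw [mul_sub, sub_eq_add_neg]
  exact hw

theorem Im_open {T : Set ℂ} (hT : IsOpen T) (c v : ℂ) : IsOpen (Im c v T) :=
  hT.preimage (by fun_prop : Continuous fun w : ℂ => c⁻¹ * (w - v))

theorem to_unit {T : Set ℂ} {c v : ℂ} (h : Fam d (Im c v T) α e) (hc : ‖c‖ = 1) :
    Fam d T α (fun i w => c⁻¹ * e i (c * w + v)) :=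
  (Fam.aff h hc (by rw [norm_inv, hc, inv_one]) v).mono
    (aff_sub (by rintro rfl; simp at hc))

theorem of_unit {T : Set ℂ} {c : ℂ} (h : Fam d T α e) (hc : ‖c‖ = 1) (v : ℂ) :
    Fam d (Im c v T) α (fun i w => c * e i (c⁻¹ * (w - v))) := by
  have h1 := Fam.aff h (c := c⁻¹) (c' := c) (by rw [norm_inv, hc, inv_one]) hc (-(c⁻¹ * v))
  have h2 : ∀ w : ℂ, c⁻¹ * w + -(c⁻¹ * v) = c⁻¹ * (w - v) := fun w => by ring
  refine (h1.mono ?_).congr' (fun i w => by rw [h2])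
  intro w hw
  show c⁻¹ * w + -(c⁻¹ * v) ∈ T
  rw [h2]
  exact hw

theorem splitA (hd : ∀ i j, 0 ≤ d i j) (hx : 0 ≤ x) (hy : 0 ≤ y) (hα0 : 0 ≤ α) {c v : ℂ}
    (hc : ‖c‖ = 1) (he : Fam d (Im c v (XS x y 0)) α e) :
    ∃ p q, Fam d (Im c v (AS x y 1)) ((2 * x + 2 * y + 4) * α) p ∧
      Fam d (Im c v (BS x y 1)) ((2 * x + 2 * y + 4) * α) q ∧
        ∀ i, ∀ w ∈ Im c v (XS x y 1), e i w = p i w + q i w := by
  have hc0 : c ≠ 0 := by rintro rfl; simp at hc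
  obtain ⟨p, q, hp, hq, h⟩ := split hd hx hy 0 1 α _ le_rfl one_pos (by norm_num) hα0
    (to_unit he hc)
  rw [zero_add, div_one] at hp hq
  refine ⟨_, _, of_unit hp hc v, of_unit hq hc v, fun i w hw => ?_⟩
  have h1 := h i (c⁻¹ * (w - v)) (by rw [zero_add]; exact hw)
  rw [mul_inv_cancel_left₀ hc0, sub_add_cancel] at h1
  rw [← mul_add, ← h1, mul_inv_cancel_left₀ hc0]

/-- folding next to the reflection `w ↦ 2 v - w` -/
theorem foldA (hd : ∀ i j, 0 ≤ d i j) (hx : 0 ≤ x) (hy : 0 ≤ y)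
    (hxy : 2 * (x + 5) + 2 * (y + 5) + 4 ≤ 600) (ha0 : 0 ≤ a) (ha : a ≤ 1 / 10 ^ 6) (hβ0 : 0 ≤ β)
    (hβ : 10 ^ 7 * (β + 100 * a ^ 2) ≤ 1) (hβa : β ≤ a) {c v : ℂ} (hc : ‖c‖ = 1)
    (hP : Fam d (Im c v (AS x y 1)) a P) (hQ : Fam d (Im c v (BS x y 1)) a Q)
    (hr : Fam d (Im c v (XS x y 1)) β (fun i w => e i w - (P i w + Q i w))) :
    ∃ e1 : ι → ℂ → ℂ, Fam d (Im c v (AS (x + 5) (y + 5) 5)) (10 ^ 6 * (β + 100 * a ^ 2))
        (fun i w => e1 i w - (P i w - Q i (2 * v - w))) ∧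
      ∀ i, (∃ τ, IsInvo τ ∧ (fun w => (2 * v - w) + e i (2 * v - w)) =ᶠ[cobounded ℂ]
          τ ∘ (fun w => w + e1 i w)) ∧
        (∀ l, HasRes (fun w => w + e i w) l → HasRes (fun w => w + e1 i w) l) := by
  have hc0 : c ≠ 0 := by rintro rfl; simp at hc
  have hr' : Fam d (XS x y 1) β (fun i w => c⁻¹ * e i (c * w + v)
      - (c⁻¹ * P i (c * w + v) + c⁻¹ * Q i (c * w + v))) := by
    refine (to_unit hr hc).congr' (fun i w => ?_)
    ring
  obtain ⟨e1, he1, h1⟩ := foldT (e := fun i w => c⁻¹ * e i (c * w + v)) hd hx hy hxy ha0 ha hβ0 hβ hβa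
    (to_unit hP hc) (to_unit hQ hc) hr'
  refine ⟨fun i w => c * e1 i (c⁻¹ * (w - v)), ?_, fun i => ⟨?_, ?_⟩⟩
  · refine (of_unit he1 hc v).congr' (fun i w => ?_)
    have g1 : c * (c⁻¹ * (w - v)) + v = w := by rw [mul_inv_cancel_left₀ hc0]; ring
    have g2 : c * (0 - c⁻¹ * (w - v)) + v = 2 * v - w := by
      rw [mul_sub, mul_inv_cancel_left₀ hc0]; ring
    rw [g1, g2]
    field_simp
  · obtain ⟨⟨τ, hτ, hτe⟩, -⟩ := h1 i
    refine ⟨_, invo_aff hτ hc0 v, ?_⟩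
    have t := (tendsto_aff (inv_ne_zero hc0) (-(c⁻¹ * v))).eventually hτe
    filter_upwards [t] with w hw
    simp only [Function.comp] at hw ⊢
    have g0 : c⁻¹ * w + -(c⁻¹ * v) = c⁻¹ * (w - v) := by ring
    rw [g0] at hw
    have g2 : c * (0 - c⁻¹ * (w - v)) + v = 2 * v - w := by
      rw [mul_sub, mul_inv_cancel_left₀ hc0]; ring
    rw [g2] at hw
    have g3 : c⁻¹ * (w + c * e1 i (c⁻¹ * (w - v)) - v)
        = c⁻¹ * (w - v) + e1 i (c⁻¹ * (w - v)) := by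
      field_simp
      ring
    rw [g3, ← hw]
    field_simp
    ring
  · obtain ⟨-, hres⟩ := h1 i
    intro l hl
    have h2 := HasRes.affG hl hc0 v
    have h3 : HasRes (fun w => w + c⁻¹ * e i (c * w + v)) (c⁻¹ ^ 2 * l) := by
      refine h2.congr (Eventually.of_forall fun w => ?_)
      simp only
      field_simp
      ring
    have h4 := HasRes.affG (hres _ h3) (inv_ne_zero hc0) (-(c⁻¹ * v))
    have h5 : c⁻¹⁻¹ ^ 2 * (c⁻¹ ^ 2 * l) = l := by
      rw [inv_inv]; field_simp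
    rw [h5] at h4
    refine h4.congr (Eventually.of_forall fun w => ?_)
    simp only [inv_inv]
    have g0 : c⁻¹ * w + -(c⁻¹ * v) = c⁻¹ * (w - v) := by ring
    rw [g0]
    field_simp
    ring

end

end Pool.Agent.Y263.IV
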