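import Pool.Agent.Y263.IV.Dens

/-!
# Powers of `1 / w` as limits of sums of functions even about three centres
-/

set_option autoImplicit false

namespace Pool.Agent.Y263.IV

open Complex Set Filter Topology Metric Bornology
open scoped BoundedContinuousFunction

/-- the closed exterior of the disc of radius `95` -/
abbrev Z : Type := {w : ℂ // 95 ≤ ‖w‖}

theorem Z.ne (w : Z) : w.1 ≠ 0 := by
  have := w.2
  intro h
  rw [h, norm_zero] at this
  norm_num at this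

/-- the function `1 / w` -/
noncomputable def u : Z →ᵇ ℂ :=
  BoundedContinuousFunction.ofNormedAddCommGroup (fun w : Z => (w.1)⁻¹)
    (continuous_subtype_val.inv₀ fun w => Z.ne w) (1 / 95) (fun w => by
      rw [norm_inv, inv_eq_one_div]
      exact one_div_le_one_div_of_le (by norm_num) w.2)

theorem u_apply (w : Z) : u w = (w.1)⁻¹ := rfl

theorem norm_u : ‖u‖ ≤ 1 / 95 := by
  rw [BoundedContinuousFunction.norm_le (by norm_num)]
  intro w
  rw [u_apply, norm_inv, inv_eq_one_div]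
  exact one_div_le_one_div_of_le (by norm_num) w.2

/-- `w / (w - s)` -/
noncomputable def J (s : ℂ) : Z →ᵇ ℂ := Ring.inverse (1 - s • u)

/-- `1 / (w - s)` -/
noncomputable def φ (s : ℂ) : Z →ᵇ ℂ := u * J s

theorem norm_su {s : ℂ} (hs : s ∈ ball (0 : ℂ) 95) : ‖s • u‖ < 1 := by
  rw [mem_ball, dist_zero_right] at hs
  rw [norm_smul]
  have h1 := norm_u
  have h2 := norm_nonneg s
  have h3 := norm_nonneg u
  nlinarith

theorem unit_su {s : ℂ} (hs : s ∈ ball (0 : ℂ) 95) : IsUnit (1 - s • u) :=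
  isUnit_one_sub_of_norm_lt_one (norm_su hs)

theorem J_mul {s : ℂ} (hs : s ∈ ball (0 : ℂ) 95) : (1 - s • u) * J s = 1 :=
  Ring.mul_inverse_cancel _ (unit_su hs)

theorem J_eq {s : ℂ} (hs : s ∈ ball (0 : ℂ) 95) : J s = 1 + s • (u * J s) := by
  have := J_mul hs
  rw [sub_mul, one_mul, smul_mul_assoc, sub_eq_iff_eq_add] at this
  exact this

theorem φ_apply {s : ℂ} (hs : s ∈ ball (0 : ℂ) 95) (w : Z) : φ s w = (w.1 - s)⁻¹ := by
  have h1 := congrArg (fun f : Z →ᵇ ℂ => f w) (J_mul hs)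
  simp only [BoundedContinuousFunction.mul_apply, BoundedContinuousFunction.sub_apply,
    BoundedContinuousFunction.coe_one, Pi.one_apply, BoundedContinuousFunction.smul_apply, u_apply,
    smul_eq_mul] at h1
  have hw := Z.ne w
  have hws : w.1 - s ≠ 0 := by
    intro h
    rw [mem_ball, dist_zero_right] at hs
    have := w.2
    rw [sub_eq_zero] at h
    rw [h] at this
    linarith
  rw [φ, BoundedContinuousFunction.mul_apply, u_apply]
  have h2 : (1 - s * (w.1)⁻¹) = (w.1 - s) / w.1 := by field_simp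
  rw [h2] at h1
  have h3 : J s w = w.1 / (w.1 - s) := by
    field_simp at h1 ⊢
    linear_combination h1
  rw [h3]
  field_simp

theorem J_diff {s : ℂ} (hs : s ∈ ball (0 : ℂ) 95) : DifferentiableAt ℂ J s := by
  apply DifferentiableAt.inverse
  · fun_prop
  · exact unit_su hs

theorem φ_diff {s : ℂ} (hs : s ∈ ball (0 : ℂ) 95) : DifferentiableAt ℂ φ s :=
  (J_diff hs).const_mul u

/-- functions singular in the disc of radius two about `s` -/
structure Nice (s : ℂ) (c : ℂ → ℂ) : Prop where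
  diff : DifferentiableOn ℂ c {w | 2 < ‖w - s‖}
  bd : ∃ M : ℝ, 0 ≤ M ∧ ∀ w, 2 < ‖w - s‖ → ‖c w‖ ≤ M
  lim : Tendsto c (cobounded ℂ) (𝓝 0)

theorem Nice.add {s : ℂ} {c c' : ℂ → ℂ} (h : Nice s c) (h' : Nice s c') :
    Nice s (fun w => c w + c' w) := by
  obtain ⟨M, hM0, hM⟩ := h.bd
  obtain ⟨M', hM0', hM'⟩ := h'.bd
  refine ⟨h.diff.add h'.diff, ⟨M + M', by positivity, fun w hw => ?_⟩, ?_⟩
  · exact (norm_add_le _ _).trans (add_le_add (hM w hw) (hM' w hw))
  · simpa using h.lim.add h'.lim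

theorem Nice.smul {s : ℂ} {c : ℂ → ℂ} (h : Nice s c) (a : ℂ) : Nice s (fun w => a * c w) := by
  obtain ⟨M, hM0, hM⟩ := h.bd
  refine ⟨h.diff.const_mul a, ⟨‖a‖ * M, by positivity, fun w hw => ?_⟩, ?_⟩
  · rw [norm_mul]
    gcongr
    exact hM w hw
  · simpa using h.lim.const_mul a

theorem Nice.zero (s : ℂ) : Nice s (fun _ => 0) :=
  ⟨differentiableOn_const _, ⟨0, le_rfl, fun w _ => by simp⟩, tendsto_const_nhds⟩

theorem nice_pole {s t : ℂ} (hs : ‖s - t‖ < 1) : Nice t (fun w => (w - s)⁻¹) := by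
  have h1 : ∀ w : ℂ, 2 < ‖w - t‖ → 1 ≤ ‖w - s‖ := by
    intro w hw
    have : ‖w - t‖ ≤ ‖w - s‖ + ‖s - t‖ := by
      calc ‖w - t‖ = ‖(w - s) + (s - t)‖ := by ring_nf
        _ ≤ _ := norm_add_le _ _
    linarith
  refine ⟨?_, ⟨1, zero_le_one, fun w hw => ?_⟩, ?_⟩
  · intro w hw
    have h2 : w - s ≠ 0 := by
      intro h
      have := h1 w hw
      rw [h, norm_zero] at this
      linarith
    exact ((differentiableAt_id.sub_const s).inv h2).differentiableWithinAt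
  · rw [norm_inv]
    exact inv_le_one_of_one_le₀ (h1 w hw)
  · have h2 : Tendsto (fun w : ℂ => w - s) (cobounded ℂ) (cobounded ℂ) := by
      rw [← tendsto_norm_atTop_iff_cobounded]
      have h3 : Tendsto (fun w : ℂ => ‖w‖ - ‖s‖) (cobounded ℂ) atTop :=
        tendsto_atTop_add_const_right _ _ tendsto_norm_cobounded_atTop
      exact tendsto_atTop_mono (fun w => norm_sub_norm_le w s) h3
    exact tendsto_inv₀_cobounded.comp h2

/-- the sums of three functions even about the centres (up to a translation for the first) -/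
def Rel (c1 c2 c3 : ℂ → ℂ) (w : ℂ) : ℂ :=
  (c1 w - c1 (w + 100)) + (c2 w + c2 (100 * I - w)) + (c3 w + c3 (-50 + 50 * I - w))

/-- the functions of this form -/
def V0 : Submodule ℂ (Z →ᵇ ℂ) where
  carrier := {v | ∃ c1 c2 c3, Nice t1 c1 ∧ Nice t2 c2 ∧ Nice t3 c3 ∧ ∀ w : Z, v w = Rel c1 c2 c3 w}
  add_mem' := by
    rintro v v' ⟨c1, c2, c3, h1, h2, h3, h⟩ ⟨c1', c2', c3', h1', h2', h3', h'⟩
    refine ⟨_, _, _, h1.add h1', h2.add h2', h3.add h3', fun w => ?_⟩
    rw [BoundedContinuousFunction.add_apply, h, h']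
    simp only [Rel]
    ring
  zero_mem' := ⟨_, _, _, Nice.zero _, Nice.zero _, Nice.zero _, fun w => by simp [Rel]⟩
  smul_mem' := by
    rintro a v ⟨c1, c2, c3, h1, h2, h3, h⟩
    refine ⟨_, _, _, h1.smul a, h2.smul a, h3.smul a, fun w => ?_⟩
    rw [BoundedContinuousFunction.smul_apply, h, smul_eq_mul]
    simp only [Rel]
    ring

/-- the closure -/
noncomputable def V : Submodule ℂ (Z →ᵇ ℂ) := V0.topologicalClosure

theorem V_closed : IsClosed (V : Set (Z →ᵇ ℂ)) := Submodule.isClosed_topologicalClosure _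

theorem V0_le : V0 ≤ V := Submodule.le_topologicalClosure _

theorem mem1 {s : ℂ} (hs : ‖s - t1‖ < 1) : φ s - φ (s - 100) ∈ V := by
  apply V0_le
  have b1 : s ∈ ball (0 : ℂ) 95 := by
    rw [mem_ball, dist_zero_right]
    have h1 : ‖t1‖ ≤ 58 + 42 := by
      refine (norm_add_le _ _).trans ?_
      rw [norm_mul, norm_I]; norm_num
    have h1' : ‖t1‖ ^ 2 = 58 ^ 2 + 42 ^ 2 := by
      rw [← normSq_eq_norm_sq]
      have : t1 = ((58 : ℝ) : ℂ) + ((42 : ℝ) : ℂ) * I := by simp [t1]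
      rw [this, normSq_add_mul_I]
    have h2 : ‖t1‖ ≤ 72 := by
      rw [← sq_le_sq₀ (norm_nonneg _) (by norm_num), h1']; norm_num
    have : ‖s‖ ≤ ‖s - t1‖ + ‖t1‖ := by
      calc ‖s‖ = ‖(s - t1) + t1‖ := by ring_nf
        _ ≤ _ := norm_add_le _ _
    linarith
  have b2 : s - 100 ∈ ball (0 : ℂ) 95 := by
    rw [mem_ball, dist_zero_right]
    have h1' : ‖t1 - 100‖ ^ 2 = (-42) ^ 2 + 42 ^ 2 := by
      rw [← normSq_eq_norm_sq]
      have : t1 - 100 = ((-42 : ℝ) : ℂ) + ((42 : ℝ) : ℂ) * I := by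
        simp only [t1]; push_cast; ring
      rw [this, normSq_add_mul_I]
    have h2 : ‖t1 - 100‖ ≤ 60 := by
      rw [← sq_le_sq₀ (norm_nonneg _) (by norm_num), h1']; norm_num
    have : ‖s - 100‖ ≤ ‖s - t1‖ + ‖t1 - 100‖ := by
      calc ‖s - 100‖ = ‖(s - t1) + (t1 - 100)‖ := by ring_nf
        _ ≤ _ := norm_add_le _ _
    linarith
  refine ⟨fun w => (w - s)⁻¹, _, _, nice_pole hs, Nice.zero _, Nice.zero _, fun w => ?_⟩
  rw [BoundedContinuousFunction.sub_apply, φ_apply b1, φ_apply b2]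
  simp only [Rel, add_zero]
  congr 2
  ring

theorem mem2 {s : ℂ} (hs : ‖s - t2‖ < 1) : φ s - φ (100 * I - s) ∈ V := by
  apply V0_le
  have b1 : s ∈ ball (0 : ℂ) 95 := by
    rw [mem_ball, dist_zero_right]
    have h1' : ‖t2‖ ^ 2 = 5 ^ 2 + 58 ^ 2 := by
      rw [← normSq_eq_norm_sq]
      have : t2 = ((5 : ℝ) : ℂ) + ((58 : ℝ) : ℂ) * I := by simp [t2]
      rw [this, normSq_add_mul_I]
    have h2 : ‖t2‖ ≤ 72 := by
      rw [← sq_le_sq₀ (norm_nonneg _) (by norm_num), h1']; norm_num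
    have : ‖s‖ ≤ ‖s - t2‖ + ‖t2‖ := by
      calc ‖s‖ = ‖(s - t2) + t2‖ := by ring_nf
        _ ≤ _ := norm_add_le _ _
    linarith
  have b2 : 100 * I - s ∈ ball (0 : ℂ) 95 := by
    rw [mem_ball, dist_zero_right]
    have h1' : ‖100 * I - t2‖ ^ 2 = (-5) ^ 2 + 42 ^ 2 := by
      rw [← normSq_eq_norm_sq]
      have : 100 * I - t2 = ((-5 : ℝ) : ℂ) + ((42 : ℝ) : ℂ) * I := by
        simp only [t2]; push_cast; ring
      rw [this, normSq_add_mul_I]
    have h2 : ‖100 * I - t2‖ ≤ 60 := by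
      rw [← sq_le_sq₀ (norm_nonneg _) (by norm_num), h1']; norm_num
    have : ‖100 * I - s‖ ≤ ‖s - t2‖ + ‖100 * I - t2‖ := by
      calc ‖100 * I - s‖ = ‖(100 * I - t2) - (s - t2)‖ := by ring_nf
        _ ≤ ‖100 * I - t2‖ + ‖s - t2‖ := norm_sub_le _ _
        _ = _ := add_comm _ _
    linarith
  refine ⟨_, fun w => (w - s)⁻¹, _, Nice.zero _, nice_pole hs, Nice.zero _, fun w => ?_⟩
  rw [BoundedContinuousFunction.sub_apply, φ_apply b1, φ_apply b2]
  simp only [Rel, add_zero, sub_zero, zero_add]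
  have : 100 * I - w.1 - s = -(w.1 - (100 * I - s)) := by ring
  rw [this, inv_neg, sub_eq_add_neg]

theorem mem3 {s : ℂ} (hs : ‖s - t3‖ < 1) : φ s - φ (-50 + 50 * I - s) ∈ V := by
  apply V0_le
  have b1 : s ∈ ball (0 : ℂ) 95 := by
    rw [mem_ball, dist_zero_right]
    have h1' : ‖t3‖ ^ 2 = (-20) ^ 2 + 30 ^ 2 := by
      rw [← normSq_eq_norm_sq]
      have : t3 = ((-20 : ℝ) : ℂ) + ((30 : ℝ) : ℂ) * I := by simp [t3]
      rw [this, normSq_add_mul_I]
    have h2 : ‖t3‖ ≤ 72 := by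
      rw [← sq_le_sq₀ (norm_nonneg _) (by norm_num), h1']; norm_num
    have : ‖s‖ ≤ ‖s - t3‖ + ‖t3‖ := by
      calc ‖s‖ = ‖(s - t3) + t3‖ := by ring_nf
        _ ≤ _ := norm_add_le _ _
    linarith
  have b2 : -50 + 50 * I - s ∈ ball (0 : ℂ) 95 := by
    rw [mem_ball, dist_zero_right]
    have h1' : ‖-50 + 50 * I - t3‖ ^ 2 = (-30) ^ 2 + 20 ^ 2 := by
      rw [← normSq_eq_norm_sq]
      have : -50 + 50 * I - t3 = ((-30 : ℝ) : ℂ) + ((20 : ℝ) : ℂ) * I := by
        simp only [t3]; push_cast; ring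
      rw [this, normSq_add_mul_I]
    have h2 : ‖-50 + 50 * I - t3‖ ≤ 60 := by
      rw [← sq_le_sq₀ (norm_nonneg _) (by norm_num), h1']; norm_num
    have : ‖-50 + 50 * I - s‖ ≤ ‖s - t3‖ + ‖-50 + 50 * I - t3‖ := by
      calc ‖-50 + 50 * I - s‖ = ‖(-50 + 50 * I - t3) - (s - t3)‖ := by ring_nf
        _ ≤ ‖-50 + 50 * I - t3‖ + ‖s - t3‖ := norm_sub_le _ _
        _ = _ := add_comm _ _
    linarith
  refine ⟨_, _, fun w => (w - s)⁻¹, Nice.zero _, Nice.zero _, nice_pole hs, fun w => ?_⟩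
  rw [BoundedContinuousFunction.sub_apply, φ_apply b1, φ_apply b2]
  simp only [Rel, add_zero, sub_zero, zero_add]
  have : -50 + 50 * I - w.1 - s = -(w.1 - (-50 + 50 * I - s)) := by ring
  rw [this, inv_neg, sub_eq_add_neg]

/-- all `φ s - φ 0` are in the closure -/
theorem mem_all {s : ℂ} (hs : s ∈ ball (0 : ℂ) 95) : φ s - φ 0 ∈ V := by
  have : IsClosed (V : Set (Z →ᵇ ℂ)) := V_closed
  rw [← Submodule.Quotient.eq]
  rw [← sub_eq_zero]
  apply SeparatingDual.eq_zero_of_forall_dual_eq_zero (R := ℂ)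
  intro ℓ
  rw [map_sub, sub_eq_zero]
  set L : (Z →ᵇ ℂ) →L[ℂ] ℂ := ℓ.comp V.mkQL with hL
  have hz : ∀ v ∈ V, L v = 0 := by
    intro v hv
    have : V.mkQL v = 0 := (Submodule.Quotient.mk_eq_zero V).2 hv
    rw [hL, ContinuousLinearMap.comp_apply, this, map_zero]
  have hG : DifferentiableOn ℂ (fun s => L (φ s)) (ball 0 95) := fun s hs =>
    (L.differentiableAt.comp s (φ_diff hs)).differentiableWithinAt
  have key := const_of_inv hG
    (by
      filter_upwards [isOpen_ball.mem_nhds (show t1 ∈ ball t1 1 by simp)] with s hs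
      have := hz _ (mem1 (s := s) (by rwa [mem_ball, dist_eq_norm] at hs))
      rwa [map_sub, sub_eq_zero] at this)
    (by
      filter_upwards [isOpen_ball.mem_nhds (show t2 ∈ ball t2 1 by simp)] with s hs
      have := hz _ (mem2 (s := s) (by rwa [mem_ball, dist_eq_norm] at hs))
      rwa [map_sub, sub_eq_zero] at this)
    (by
      filter_upwards [isOpen_ball.mem_nhds (show t3 ∈ ball t3 1 by simp)] with s hs
      have := hz _ (mem3 (s := s) (by rwa [mem_ball, dist_eq_norm] at hs))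
      rwa [map_sub, sub_eq_zero] at this)
  exact key s hs

theorem J_zero : J 0 = 1 := by
  have := J_eq (s := 0) (by simp)
  rwa [zero_smul, add_zero] at this

/-- the powers `w ^ (-m)`, `m ≥ 2`, are in the closure -/
theorem pow_mem (m : ℕ) : u ^ (m + 2) ∈ V ∧
    ∀ s ∈ ball (0 : ℂ) 95, s ≠ 0 → u ^ (m + 2) * J s ∈ V := by
  induction m with
  | zero =>
    have h1 : ∀ s ∈ ball (0 : ℂ) 95, s ≠ 0 → u ^ 2 * J s ∈ V := by
      intro s hs hs0
      have h2 := V.smul_mem s⁻¹ (mem_all hs)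
      have h3 : s⁻¹ • (φ s - φ 0) = u ^ 2 * J s := by
        have h4 : φ s = u + s • (u * (u * J s)) := by
          rw [φ]
          conv_lhs => rw [J_eq hs]
          rw [mul_add, mul_one, mul_smul_comm]
        have h5 : φ 0 = u := by rw [φ, J_zero, mul_one]
        rw [h4, h5, add_sub_cancel_left, smul_smul, inv_mul_cancel₀ hs0, one_smul, ← mul_assoc,
          pow_two]
      rwa [h3] at h2
    refine ⟨?_, h1⟩
    have ht : Tendsto (fun s => u ^ 2 * J s) (𝓝[≠] 0) (𝓝 (u ^ 2 * J 0)) :=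
      ((J_diff (s := 0) (by simp)).continuousAt.tendsto.const_mul _).mono_left nhdsWithin_le_nhds
    rw [J_zero, mul_one] at ht
    refine V_closed.mem_of_tendsto ht ?_
    filter_upwards [self_mem_nhdsWithin, mem_nhdsWithin_of_mem_nhds
      (isOpen_ball.mem_nhds (show (0 : ℂ) ∈ ball (0 : ℂ) 95 by simp))] with s h2 h3
    exact h1 s h3 h2
  | succ m ih =>
    have h1 : ∀ s ∈ ball (0 : ℂ) 95, s ≠ 0 → u ^ (m + 1 + 2) * J s ∈ V := by
      intro s hs hs0
      have h2 := V.smul_mem s⁻¹ (V.sub_mem (ih.2 s hs hs0) ih.1)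
      have h3 : s⁻¹ • (u ^ (m + 2) * J s - u ^ (m + 2)) = u ^ (m + 1 + 2) * J s := by
        conv_lhs => rw [J_eq hs]
        rw [mul_add, mul_one, mul_smul_comm, add_sub_cancel_left, smul_smul,
          inv_mul_cancel₀ hs0, one_smul, ← mul_assoc, ← pow_succ]
      rwa [h3] at h2
    refine ⟨?_, h1⟩
    have ht : Tendsto (fun s => u ^ (m + 1 + 2) * J s) (𝓝[≠] 0) (𝓝 (u ^ (m + 1 + 2) * J 0)) :=
      ((J_diff (s := 0) (by simp)).continuousAt.tendsto.const_mul _).mono_left nhdsWithin_le_nhds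
    rw [J_zero, mul_one] at ht
    refine V_closed.mem_of_tendsto ht ?_
    filter_upwards [self_mem_nhdsWithin, mem_nhdsWithin_of_mem_nhds
      (isOpen_ball.mem_nhds (show (0 : ℂ) ∈ ball (0 : ℂ) 95 by simp))] with s h2 h3
    exact h1 s h3 h2

/-- approximation of the powers -/
theorem approx_pow (m : ℕ) {ε : ℝ} (hε : 0 < ε) : ∃ c1 c2 c3 : ℂ → ℂ,
    Nice t1 c1 ∧ Nice t2 c2 ∧ Nice t3 c3 ∧
      ∀ w : ℂ, 95 ≤ ‖w‖ → ‖(w⁻¹) ^ (m + 2) - Rel c1 c2 c3 w‖ ≤ ε := by
  have h1 : u ^ (m + 2) ∈ closure (V0 : Set (Z →ᵇ ℂ)) := by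
    rw [← Submodule.topologicalClosure_coe]
    exact (pow_mem m).1
  obtain ⟨v, ⟨c1, c2, c3, h2, h3, h4, h5⟩, hv⟩ := Metric.mem_closure_iff.1 h1 ε hε
  refine ⟨c1, c2, c3, h2, h3, h4, fun w hw => ?_⟩
  have h6 := (BoundedContinuousFunction.dist_coe_le_dist (f := u ^ (m + 2)) (g := v)
    (⟨w, hw⟩ : Z)).trans hv.le
  rw [dist_eq_norm, h5] at h6
  have h7 : (u ^ (m + 2)) (⟨w, hw⟩ : Z) = (w⁻¹) ^ (m + 2) := by
    rw [BoundedContinuousFunction.pow_apply, u_apply]
  rwa [h7] at h6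

end Pool.Agent.Y263.IV
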