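import Mathlib

/-!
# Constancy of functions invariant under three half-turns

A holomorphic function on the disc of radius `95` which is locally invariant under the half-turns
`s ↦ 100 i - s`, `s ↦ -50 + 50 i - s` and under the translation `s ↦ s - 100` is constant.
-/

set_option autoImplicit false

namespace Pool.Agent.Y263.IV

open Complex Set Filter Topology Metric

theorem ident {G : ℂ → ℂ} (hG : DifferentiableOn ℂ G (ball 0 95)) {ε t s0 : ℂ}
    (hε : ε = 1 ∨ ε = -1) (h0 : s0 ∈ ball (0 : ℂ) 95) (h1 : ε * s0 + t ∈ ball (0 : ℂ) 95)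
    (hev : ∀ᶠ s in 𝓝 s0, G s = G (ε * s + t)) :
    ∀ s ∈ ball (0 : ℂ) 95, ε * s + t ∈ ball (0 : ℂ) 95 → G s = G (ε * s + t) := by
  set U : Set ℂ := ball (0 : ℂ) 95 ∩ {s | ε * s + t ∈ ball (0 : ℂ) 95} with hU
  have hc : Continuous fun s : ℂ => ε * s + t := by fun_prop
  have hUo : IsOpen U := isOpen_ball.inter (isOpen_ball.preimage hc)
  have hn : ‖ε‖ = 1 := by rcases hε with h | h <;> rw [h] <;> simp
  have h2 : {s : ℂ | ε * s + t ∈ ball (0 : ℂ) 95} = ball (-(ε * t)) 95 := by
    ext s
    simp only [mem_ofPred_eq, mem_ball, dist_eq_norm, sub_zero]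
    have hεε : ε * ε = 1 := by rcases hε with h | h <;> rw [h] <;> norm_num
    have : ‖ε * s + t‖ = ‖s - -(ε * t)‖ := by
      calc ‖ε * s + t‖ = ‖ε‖ * ‖ε * s + t‖ := by rw [hn, one_mul]
        _ = ‖ε * (ε * s + t)‖ := (norm_mul _ _).symm
        _ = ‖s - -(ε * t)‖ := by congr 1; linear_combination s * hεε
    rw [this]
  have hUc : Convex ℝ U := by
    rw [hU, h2]
    exact (convex_ball _ _).inter (convex_ball _ _)
  have hA1 : AnalyticOnNhd ℂ G U := (hG.mono inter_subset_left).analyticOnNhd hUo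
  have hd2 : DifferentiableOn ℂ (fun s => G (ε * s + t)) U :=
    hG.comp (by fun_prop : Differentiable ℂ fun s : ℂ => ε * s + t).differentiableOn
      (fun s hs => hs.2)
  have hA2 : AnalyticOnNhd ℂ (fun s => G (ε * s + t)) U := hd2.analyticOnNhd hUo
  intro s hs hs'
  exact hA1.eqOn_of_preconnected_of_eventuallyEq hA2 hUc.isPreconnected
    (show s0 ∈ U from ⟨h0, h1⟩) hev ⟨hs, hs'⟩

theorem in_ball {x y : ℝ} {s : ℂ} (h : s = x + y * I) (hxy : x ^ 2 + y ^ 2 < 95 ^ 2) :
    s ∈ ball (0 : ℂ) 95 := by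
  rw [mem_ball, dist_zero_right, ← sq_lt_sq₀ (norm_nonneg _) (by norm_num), h,
    ← normSq_eq_norm_sq, normSq_add_mul_I]
  exact hxy

/-- the points around which the invariance is assumed -/
noncomputable def t1 : ℂ := 58 + 42 * I
noncomputable def t2 : ℂ := 5 + 58 * I
noncomputable def t3 : ℂ := -20 + 30 * I

theorem const_of_inv {G : ℂ → ℂ} (hG : DifferentiableOn ℂ G (ball 0 95))
    (h1 : ∀ᶠ s in 𝓝 t1, G s = G (s - 100))
    (h2 : ∀ᶠ s in 𝓝 t2, G s = G (100 * I - s))
    (h3 : ∀ᶠ s in 𝓝 t3, G s = G (-50 + 50 * I - s)) :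
    ∀ s ∈ ball (0 : ℂ) 95, G s = G 0 := by
  -- the three functional equations on the lenses
  have g1 : ∀ s ∈ ball (0 : ℂ) 95, s - 100 ∈ ball (0 : ℂ) 95 → G s = G (s - 100) := by
    have := ident hG (ε := 1) (t := -100) (s0 := t1) (Or.inl rfl)
      (in_ball (x := 58) (y := 42) (by simp [t1]) (by norm_num))
      (in_ball (x := -42) (y := 42) (by simp only [t1]; push_cast; ring) (by norm_num))
      (h1.mono fun s hs => by rw [hs]; congr 1; ring)
    intro s hs hs'
    have e : 1 * s + -100 = s - 100 := by ring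
    have := this s hs (by rw [e]; exact hs')
    rwa [e] at this
  have g2 : ∀ s ∈ ball (0 : ℂ) 95, 100 * I - s ∈ ball (0 : ℂ) 95 → G s = G (100 * I - s) := by
    have := ident hG (ε := -1) (t := 100 * I) (s0 := t2) (Or.inr rfl)
      (in_ball (x := 5) (y := 58) (by simp [t2]) (by norm_num))
      (in_ball (x := -5) (y := 42) (by simp only [t2]; push_cast; ring) (by norm_num))
      (h2.mono fun s hs => by rw [hs]; congr 1; ring)
    intro s hs hs'
    have e : -1 * s + 100 * I = 100 * I - s := by ring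
    have := this s hs (by rw [e]; exact hs')
    rwa [e] at this
  have g3 : ∀ s ∈ ball (0 : ℂ) 95, -50 + 50 * I - s ∈ ball (0 : ℂ) 95 →
      G s = G (-50 + 50 * I - s) := by
    have := ident hG (ε := -1) (t := -50 + 50 * I) (s0 := t3) (Or.inr rfl)
      (in_ball (x := -20) (y := 30) (by simp [t3]) (by norm_num))
      (in_ball (x := -30) (y := 20) (by simp only [t3]; push_cast; ring) (by norm_num))
      (h3.mono fun s hs => by rw [hs]; congr 1; ring)
    intro s hs hs'
    have e : -1 * s + (-50 + 50 * I) = -50 + 50 * I - s := by ring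
    have := this s hs (by rw [e]; exact hs')
    rwa [e] at this
  -- translation by `50 + 50 i`
  have g4 : ∀ s ∈ ball (0 : ℂ) 95, s + (50 + 50 * I) ∈ ball (0 : ℂ) 95 →
      G s = G (s + (50 + 50 * I)) := by
    have b0 : (-25 + -25 * I : ℂ) ∈ ball (0 : ℂ) 95 :=
      in_ball (x := -25) (y := -25) (by push_cast; ring) (by norm_num)
    have b1 : (-50 + 50 * I - (-25 + -25 * I) : ℂ) ∈ ball (0 : ℂ) 95 :=
      in_ball (x := -25) (y := 75) (by push_cast; ring) (by norm_num)
    have b2 : ((-25 + -25 * I) + (50 + 50 * I) : ℂ) ∈ ball (0 : ℂ) 95 :=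
      in_ball (x := 25) (y := 25) (by push_cast; ring) (by norm_num)
    have ev : ∀ᶠ s in 𝓝 (-25 + -25 * I : ℂ), G s = G (1 * s + (50 + 50 * I)) := by
      have c1 : ContinuousAt (fun s : ℂ => -50 + 50 * I - s) (-25 + -25 * I) := by fun_prop
      have c2 : ContinuousAt (fun s : ℂ => s + (50 + 50 * I)) (-25 + -25 * I) := by fun_prop
      filter_upwards [isOpen_ball.mem_nhds b0, c1.eventually_mem (isOpen_ball.mem_nhds b1),
        c2.eventually_mem (isOpen_ball.mem_nhds b2)] with s e0 e1 e2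
      have e3 : 100 * I - (-50 + 50 * I - s) = s + (50 + 50 * I) := by ring
      rw [g3 s e0 e1, g2 _ e1 (by rw [e3]; exact e2), e3, one_mul]
    have := ident hG (ε := 1) (t := 50 + 50 * I) (s0 := -25 + -25 * I) (Or.inl rfl) b0
      (by rw [one_mul]; exact b2) ev
    intro s hs hs'
    have := this s hs (by rw [one_mul]; exact hs')
    rwa [one_mul] at this
  -- translation by `50 - 50 i`
  have g5 : ∀ s ∈ ball (0 : ℂ) 95, s + (50 - 50 * I) ∈ ball (0 : ℂ) 95 →
      G s = G (s + (50 - 50 * I)) := by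
    have b0 : (-50 : ℂ) ∈ ball (0 : ℂ) 95 :=
      in_ball (x := -50) (y := 0) (by push_cast; ring) (by norm_num)
    have b1 : (-50 + 100 : ℂ) ∈ ball (0 : ℂ) 95 :=
      in_ball (x := 50) (y := 0) (by push_cast; ring) (by norm_num)
    have b2 : ((-50 : ℂ) + (50 - 50 * I)) ∈ ball (0 : ℂ) 95 :=
      in_ball (x := 0) (y := -50) (by push_cast; ring) (by norm_num)
    have ev : ∀ᶠ s in 𝓝 (-50 : ℂ), G s = G (1 * s + (50 - 50 * I)) := by
      have c1 : ContinuousAt (fun s : ℂ => s + 100) (-50) := by fun_prop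
      have c2 : ContinuousAt (fun s : ℂ => s + (50 - 50 * I)) (-50) := by fun_prop
      filter_upwards [isOpen_ball.mem_nhds b0, c1.eventually_mem (isOpen_ball.mem_nhds b1),
        c2.eventually_mem (isOpen_ball.mem_nhds b2)] with s e0 e1 e2
      have e3 : s + (50 - 50 * I) + (50 + 50 * I) = s + 100 := by ring
      rw [one_mul, g4 _ e2 (by rw [e3]; exact e1), e3, g1 _ e1 (by simpa using e0)]
      simp
    have := ident hG (ε := 1) (t := 50 - 50 * I) (s0 := -50) (Or.inl rfl) b0
      (by rw [one_mul]; exact b2) ev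
    intro s hs hs'
    have := this s hs (by rw [one_mul]; exact hs')
    rwa [one_mul] at this
  -- a maximum point in the interior of the disc of radius `60`
  have hcont : ContinuousOn (fun s => ‖G s‖) (closedBall (0 : ℂ) 60) :=
    (hG.continuousOn.mono (closedBall_subset_ball (by norm_num))).norm
  obtain ⟨m, hm, hmax⟩ := (isCompact_closedBall (0 : ℂ) 60).exists_isMaxOn
    ⟨0, by simp⟩ hcont
  have hint : ∃ m' ∈ ball (0 : ℂ) 60, ‖G m'‖ = ‖G m‖ := by
    by_cases hlt : ‖m‖ < 60
    · exact ⟨m, by simpa using hlt, rfl⟩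
    · have hm60 : ‖m‖ = 60 := le_antisymm (by simpa using hm) (not_lt.1 hlt)
      have hb95 : m ∈ ball (0 : ℂ) 95 := by
        rw [mem_ball, dist_zero_right, hm60]; norm_num
      have hsq : m.re ^ 2 + m.im ^ 2 = 60 ^ 2 := by
        rw [← hm60, ← normSq_eq_norm_sq, normSq_apply]; ring
      -- if `|m - λ| < 60`, with `λ = ± 50 ± 50 i`
      have hball : ∀ z : ℂ, z.re ^ 2 + z.im ^ 2 < 60 ^ 2 → z ∈ ball (0 : ℂ) 60 := by
        intro z hz
        rw [mem_ball, dist_zero_right, ← sq_lt_sq₀ (norm_nonneg _) (by norm_num),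
          ← normSq_eq_norm_sq, normSq_apply]
        linarith
      have h95 : ball (0 : ℂ) 60 ⊆ ball (0 : ℂ) 95 := ball_subset_ball (by norm_num)
      rcases le_total 0 m.re with hx | hx <;> rcases le_total 0 m.im with hy | hy
      · have hz : m - (50 + 50 * I) ∈ ball (0 : ℂ) 60 := by
          apply hball
          simp only [sub_re, add_re, mul_re, sub_im, add_im, mul_im, I_re, I_im]
          norm_num
          nlinarith [mul_nonneg hx hy]
        refine ⟨_, hz, ?_⟩
        have e : m - (50 + 50 * I) + (50 + 50 * I) = m := by ring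
        rw [g4 _ (h95 hz) (by rw [e]; exact hb95), e]
      · have hz : m - (50 - 50 * I) ∈ ball (0 : ℂ) 60 := by
          apply hball
          simp only [sub_re, mul_re, sub_im, mul_im, I_re, I_im]
          norm_num
          nlinarith [mul_nonneg hx (neg_nonneg.2 hy)]
        refine ⟨_, hz, ?_⟩
        have e : m - (50 - 50 * I) + (50 - 50 * I) = m := by ring
        rw [g5 _ (h95 hz) (by rw [e]; exact hb95), e]
      · have hz : m + (50 - 50 * I) ∈ ball (0 : ℂ) 60 := by
          apply hball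
          simp only [add_re, sub_re, mul_re, add_im, sub_im, mul_im, I_re, I_im]
          norm_num
          nlinarith [mul_nonneg (neg_nonneg.2 hx) hy]
        refine ⟨_, hz, ?_⟩
        rw [← g5 _ hb95 (h95 hz)]
      · have hz : m + (50 + 50 * I) ∈ ball (0 : ℂ) 60 := by
          apply hball
          simp only [add_re, mul_re, add_im, mul_im, I_re, I_im]
          norm_num
          nlinarith [mul_nonneg (neg_nonneg.2 hx) (neg_nonneg.2 hy)]
        refine ⟨_, hz, ?_⟩
        rw [← g4 _ hb95 (h95 hz)]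
  obtain ⟨m', hm', hm'e⟩ := hint
  have hd : ∀ᶠ z in 𝓝 m', DifferentiableAt ℂ G z := by
    filter_upwards [isOpen_ball.mem_nhds hm'] with z hz
    exact hG.differentiableAt (isOpen_ball.mem_nhds (ball_subset_ball (by norm_num) hz))
  have hloc : IsLocalMax (norm ∘ G) m' := by
    filter_upwards [isOpen_ball.mem_nhds hm'] with z hz
    simp only [Function.comp]
    rw [hm'e]
    exact hmax (ball_subset_closedBall hz)
  have hconst : ∀ᶠ z in 𝓝 m', G z = G m' := Complex.eventually_eq_of_isLocalMax_norm hd hloc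
  have hA : AnalyticOnNhd ℂ G (ball 0 95) := hG.analyticOnNhd isOpen_ball
  have hAc : AnalyticOnNhd ℂ (fun _ : ℂ => G m') (ball 0 95) := analyticOnNhd_const
  have hall := hA.eqOn_of_preconnected_of_eventuallyEq hAc (convex_ball (0 : ℂ) 95).isPreconnected
    (ball_subset_ball (by norm_num) hm') hconst
  intro s hs
  rw [hall hs, hall (show (0 : ℂ) ∈ ball (0 : ℂ) 95 by simp)]

end Pool.Agent.Y263.IV
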