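import Pool.Agent.Results.MP_40a019_an.BoundedWidth

/-!
# Germs of multiplier one in `I ^ 3`
-/

set_option autoImplicit false

namespace Pool.Agent.Y263.IV

open Pool.Agent.Results.MP_40a019_an.BoundedWidth
open Complex Set Filter Topology Metric Asymptotics

theorem germ_tendsto {f : ℂ → ℂ} (h : IsGerm f) : Tendsto f (𝓝 0) (𝓝 0) := by
  have := h.1.continuousAt.tendsto
  rwa [h.2.1] at this

/-- an involution with multiplier `1` is the identity -/
theorem invol_one {τ : ℂ → ℂ} (h : IsInvolution τ) (h1 : deriv τ 0 = 1) : τ =ᶠ[𝓝 0] id := by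
  obtain ⟨hg, hi⟩ := h
  have hd : HasStrictDerivAt τ 1 0 := by
    have := hg.1.hasStrictDerivAt
    rwa [h1] at this
  have hs : HasStrictDerivAt (fun z => (z + τ z) / 2) 1 0 := by
    have h2 := ((hasStrictDerivAt_id (0 : ℂ)).add hd).div_const 2
    have h3 : ((1 : ℂ) + 1) / 2 = 1 := by norm_num
    rw [h3] at h2
    exact h2
  have hF := hs.hasStrictFDerivAt_equiv one_ne_zero
  have hl := hF.eventually_left_inverse
  have ht := germ_tendsto hg
  filter_upwards [hl, ht.eventually hl, hi] with z z1 z2 z3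
  simp only [Function.comp, id] at z3 ⊢
  rw [z3] at z2
  have h4 : (τ z + z) / 2 = (z + τ z) / 2 := by ring
  rw [h4, z1] at z2
  exact z2.symm

theorem invol_deriv {τ : ℂ → ℂ} (h : IsInvolution τ) : deriv τ 0 = 1 ∨ deriv τ 0 = -1 := by
  obtain ⟨hg, hi⟩ := h
  have h1 : deriv (τ ∘ τ) 0 = deriv (id : ℂ → ℂ) 0 := hi.deriv_eq
  rw [deriv_comp _ (by rw [hg.2.1]; exact hg.1.differentiableAt) hg.1.differentiableAt,
    hg.2.1, deriv_id] at h1
  exact mul_self_eq_one_iff.1 h1

theorem germ_deriv_comp {f g : ℂ → ℂ} (hf : IsGerm f) (hg : IsGerm g) :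
    deriv (f ∘ g) 0 = deriv f 0 * deriv g 0 := by
  rw [deriv_comp _ (by rw [hg.2.1]; exact hf.1.differentiableAt) hg.1.differentiableAt, hg.2.1]

/-- a product of three involutions with multiplier `1` is a product of two -/
theorem three_two {f : ℂ → ℂ} (h : InI 3 f) (h1 : deriv f 0 = 1) :
    ∃ σ τ : ℂ → ℂ, IsInvolution σ ∧ IsInvolution τ ∧ f =ᶠ[𝓝 0] σ ∘ τ ∧
      deriv σ 0 = deriv τ 0 := by
  obtain ⟨l, hl, hinv, hf⟩ := h
  obtain ⟨a, b, c, rfl⟩ := List.length_eq_three.1 hl
  simp only [List.foldr_cons, List.foldr_nil, Function.comp_id] at hf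
  have ha := hinv a (by simp)
  have hb := hinv b (by simp)
  have hc := hinv c (by simp)
  have hd : deriv f 0 = deriv a 0 * (deriv b 0 * deriv c 0) := by
    rw [hf.deriv_eq, germ_deriv_comp ha.1 (germ_comp hb.1 hc.1), germ_deriv_comp hb.1 hc.1]
  rw [h1] at hd
  have tc := germ_tendsto hc.1
  have tbc := germ_tendsto (germ_comp hb.1 hc.1)
  rcases invol_deriv ha with h2 | h2
  · have e := invol_one ha h2
    refine ⟨b, c, hb, hc, ?_, ?_⟩
    · filter_upwards [hf, tbc.eventually e] with z z1 z2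
      simp only [Function.comp, id] at z1 z2 ⊢
      rw [z1, z2]
    · rw [h2] at hd
      rcases invol_deriv hb with h3 | h3 <;> rcases invol_deriv hc with h4 | h4 <;>
        rw [h3, h4] at hd ⊢ <;> norm_num at hd
  · rcases invol_deriv hb with h3 | h3
    · have e := invol_one hb h3
      refine ⟨a, c, ha, hc, ?_, ?_⟩
      · filter_upwards [hf, tc.eventually e] with z z1 z2
        simp only [Function.comp, id] at z1 z2 ⊢
        rw [z1, z2]
      · rw [h2, h3] at hd
        rcases invol_deriv hc with h4 | h4 <;> rw [h2, h4] <;> rw [h4] at hd <;> norm_num at hd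
    · rcases invol_deriv hc with h4 | h4
      · have e := invol_one hc h4
        refine ⟨a, b, ha, hb, ?_, ?_⟩
        · have ta := germ_tendsto ha.1
          have tb := germ_tendsto hb.1
          filter_upwards [hf, e] with z z1 z2
          simp only [Function.comp, id] at z1 z2 ⊢
          rw [z1, z2]
        · rw [h2, h3]
      · rw [h2, h3, h4] at hd
        norm_num at hd

/-- `z + z ^ 5` is not a product of three involutions -/
theorem not_three : ¬ InI 3 (fun z : ℂ => z + z ^ 5) := by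
  intro h
  have hder : HasDerivAt (fun z : ℂ => z + z ^ 5) 1 0 := by
    have := (hasDerivAt_id' (0 : ℂ)).fun_add (hasDerivAt_pow 5 (0 : ℂ))
    simpa using this
  obtain ⟨σ, τ, hσ, hτ, hf, hd⟩ := three_two h hder.deriv
  -- `τ` has multiplier `-1`
  have hm : deriv τ 0 = -1 := by
    rcases invol_deriv hτ with h1 | h1
    · exfalso
      have e1 := invol_one hτ h1
      have e2 := invol_one hσ (hd.trans h1)
      have tτ := germ_tendsto hτ.1
      have e3 : ∀ᶠ z in 𝓝 (0 : ℂ), z ^ 5 = 0 := by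
        filter_upwards [hf, e1, tτ.eventually e2] with z z1 z2 z3
        simp only [Function.comp, id] at z1 z2 z3
        rw [z3, z2] at z1
        linear_combination z1
      have e4 : ∀ᶠ z in 𝓝[≠] (0 : ℂ), z ^ 5 = 0 := e3.filter_mono nhdsWithin_le_nhds
      have e5 : ∀ᶠ z in 𝓝[≠] (0 : ℂ), z ≠ 0 := self_mem_nhdsWithin
      obtain ⟨z, z1, z2⟩ := (e4.and e5).exists
      exact z2 (pow_eq_zero_iff (by norm_num) |>.1 z1)
    · exact h1
  have hst : HasStrictDerivAt τ (-1) 0 := by
    have := hτ.1.1.hasStrictDerivAt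
    rwa [hm] at this
  have tτ := germ_tendsto hτ.1
  have tσ := germ_tendsto hσ.1
  -- with `u = τ z`: `f u = u + u ^ 5 = σ z` and `f (τ (f u)) = z`
  set f : ℂ → ℂ := fun z => z + z ^ 5 with hfdef
  have tf : Tendsto f (𝓝 0) (𝓝 0) := by
    have : ContinuousAt f 0 := by rw [hfdef]; fun_prop
    have h2 := this.tendsto
    simpa [hfdef] using h2
  -- first order expansion of `τ` along the pair `(f (τ z), τ z)`
  have tp : Tendsto (fun z => (f (τ z), τ z)) (𝓝 0) (𝓝 ((0 : ℂ), (0 : ℂ))) :=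
    (tf.comp tτ).prodMk_nhds tτ
  have ho := hst.hasStrictFDerivAt.isLittleO.comp_tendsto tp
  -- the two quantities
  have hy : ∀ᶠ z in 𝓝 (0 : ℂ), f (τ (f (τ z))) = z := by
    have t1 : Tendsto (fun z => τ (f (τ z))) (𝓝 0) (𝓝 0) := tτ.comp (tf.comp tτ)
    filter_upwards [tτ.eventually hf, hτ.2, t1.eventually hf, (tf.comp tτ).eventually hτ.2, hσ.2]
      with z z1 z2 z3 z4 z5
    simp only [Function.comp, id] at z1 z2 z3 z4 z5
    rw [z3, z4, z1, z2, z5]
  have hslope : Tendsto (fun z => τ z / z) (𝓝[≠] 0) (𝓝 (-1)) := by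
    have h2 := hst.hasDerivAt.tendsto_slope
    refine h2.congr' ?_
    filter_upwards [self_mem_nhdsWithin] with z hz
    rw [slope_def_field, hτ.1.2.1, sub_zero, sub_zero]
  have hστ : ∀ᶠ z in 𝓝 (0 : ℂ), z ≠ 0 → τ z ≠ 0 := by
    filter_upwards [hτ.2] with z z1 z2 z3
    simp only [Function.comp, id] at z1
    rw [z3, hτ.1.2.1] at z1
    exact z2 z1.symm
  -- `y = τ (f (τ z))` satisfies `y / z → 1`
  have hyz : Tendsto (fun z => τ (f (τ z)) / z) (𝓝[≠] 0) (𝓝 1) := by
    have hf1 : Tendsto (fun z => f z / z) (𝓝[≠] (0 : ℂ)) (𝓝 1) := by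
      have : Tendsto (fun z : ℂ => 1 + z ^ 4) (𝓝[≠] 0) (𝓝 1) := by
        have : ContinuousAt (fun z : ℂ => 1 + z ^ 4) 0 := by fun_prop
        have h2 := this.tendsto
        simp only [ne_eq, OfNat.ofNat_ne_zero, not_false_eq_true, zero_pow, add_zero] at h2
        exact h2.mono_left nhdsWithin_le_nhds
      refine this.congr' ?_
      filter_upwards [self_mem_nhdsWithin] with z hz
      have hz' : z ≠ 0 := hz
      rw [hfdef]
      field_simp
    have tτ' : Tendsto τ (𝓝[≠] 0) (𝓝[≠] 0) := by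
      rw [tendsto_nhdsWithin_iff]
      refine ⟨tτ.mono_left nhdsWithin_le_nhds, ?_⟩
      filter_upwards [hστ.filter_mono nhdsWithin_le_nhds, self_mem_nhdsWithin] with z z1 z2
      exact z1 z2
    have hfne : ∀ᶠ z in 𝓝[≠] (0 : ℂ), f z ≠ 0 := by
      have := hf1.eventually_ne one_ne_zero
      filter_upwards [this] with z z1 z2
      rw [z2, zero_div] at z1
      exact z1 rfl
    have tf' : Tendsto f (𝓝[≠] 0) (𝓝[≠] 0) := by
      rw [tendsto_nhdsWithin_iff]
      exact ⟨tf.mono_left nhdsWithin_le_nhds, hfne⟩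
    have h2 := ((hslope.comp (tf'.comp tτ')).mul (hf1.comp tτ')).mul hslope
    have e : (-1 : ℂ) * 1 * -1 = 1 := by norm_num
    rw [e] at h2
    refine h2.congr' ?_
    filter_upwards [self_mem_nhdsWithin, tτ'.eventually hfne, tτ'.eventually self_mem_nhdsWithin]
      with z z1 z2 z3
    have z1' : z ≠ 0 := z1
    have z3' : τ z ≠ 0 := z3
    simp only [Function.comp]
    field_simp
  -- contradiction
  have h5 : Tendsto (fun z => ((τ (f (τ z)) - τ (τ z)) + (f (τ z) - τ z)) / z ^ 5) (𝓝[≠] 0)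
      (𝓝 (-2)) := by
    have h2 := ((hyz.pow 5).neg).add (hslope.pow 5)
    have e : -(1 : ℂ) ^ 5 + (-1) ^ 5 = -2 := by norm_num
    rw [e] at h2
    refine h2.congr' ?_
    filter_upwards [self_mem_nhdsWithin, hy.filter_mono nhdsWithin_le_nhds,
      hτ.2.filter_mono nhdsWithin_le_nhds] with z z1 z2 z3
    have z1' : z ≠ 0 := z1
    simp only [Function.comp, id] at z3
    rw [z3]
    have z4 : τ (f (τ z)) - z = - τ (f (τ z)) ^ 5 := by
      have z5 : τ (f (τ z)) + τ (f (τ z)) ^ 5 = z := z2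
      linear_combination z5
    have z6 : f (τ z) - τ z = τ z ^ 5 := by rw [hfdef]; simp only; ring
    rw [z4, z6, div_pow, div_pow]
    ring
  have h6 : (fun z => (τ (f (τ z)) - τ (τ z)) + (f (τ z) - τ z)) =o[𝓝[≠] 0]
      (fun z : ℂ => z ^ 5) := by
    have h7 : (fun z => (τ (f (τ z)) - τ (τ z)) + (f (τ z) - τ z)) =o[𝓝[≠] 0]
        (fun z => f (τ z) - τ z) := by
      refine (ho.mono nhdsWithin_le_nhds).congr_left (fun z => ?_)
      simp only [Function.comp, ContinuousLinearMap.toSpanSingleton_apply, smul_eq_mul]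
      ring
    refine h7.trans_isBigO ?_
    have h8 : Tendsto (fun z => (f (τ z) - τ z) / z ^ 5) (𝓝[≠] 0) (𝓝 ((-1) ^ 5)) := by
      refine (hslope.pow 5).congr (fun z => ?_)
      have z6 : f (τ z) - τ z = τ z ^ 5 := by rw [hfdef]; simp only; ring
      rw [z6, div_pow]
    have h11 : (fun z => (f (τ z) - τ z) / z ^ 5) =O[𝓝[≠] 0] (fun _ => (1 : ℂ)) := h8.isBigO_one ℂ
    have h12 := h11.mul (isBigO_refl (fun z : ℂ => z ^ 5) (𝓝[≠] 0))
    refine h12.congr' ?_ ?_
    · filter_upwards [self_mem_nhdsWithin] with z hz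
      have hz' : z ≠ 0 := hz
      field_simp
    · exact Eventually.of_forall fun z => one_mul _
  have h9 := h6.tendsto_div_nhds_zero
  have h10 := tendsto_nhds_unique h5 h9
  norm_num at h10

end Pool.Agent.Y263.IV
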