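import Pool.Agent.Y263.IV.Small
import Pool.Agent.Y263.IV.Low

/-!
# Characterisations of the sets `I ^ n`
-/

set_option autoImplicit false

namespace Pool.Agent.Y263.IV

open Pool.Agent.Results.MP_40a019_an.BoundedWidth
open Complex Set Filter Topology Metric Bornology Asymptotics

theorem jet_deriv {f : ℂ → ℂ} {σ a : ℂ} (h0 : f 0 = 0)
    (hO : (fun z => f z - (σ * z + a * z ^ 2 + σ * a ^ 2 * z ^ 3)) =O[𝓝 0] (fun z => z ^ 4)) :
    deriv f 0 = σ := by
  have h2 : HasDerivAt (fun z : ℂ => σ * z + a * z ^ 2 + σ * a ^ 2 * z ^ 3) σ 0 := by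
    have h3 := (((hasDerivAt_id' (0 : ℂ)).const_mul σ).fun_add
      ((hasDerivAt_pow 2 (0 : ℂ)).const_mul a)).fun_add
      ((hasDerivAt_pow 3 (0 : ℂ)).const_mul (σ * a ^ 2))
    simpa using h3
  have h4 : HasDerivAt (fun z => f z - (σ * z + a * z ^ 2 + σ * a ^ 2 * z ^ 3)) 0 0 := by
    rw [hasDerivAt_iff_isLittleO_nhds_zero]
    have h5 : f 0 - (σ * 0 + a * 0 ^ 2 + σ * a ^ 2 * 0 ^ 3) = 0 := by rw [h0]; ring
    have h6 : (fun z : ℂ => z ^ 4) =o[𝓝 0] (fun z : ℂ => z) := by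
      have := isLittleO_pow_pow (𝕜 := ℂ) (m := 1) (n := 4) (by norm_num)
      simpa using this
    refine (hO.trans_isLittleO h6).congr_left (fun z => ?_)
    simp only [zero_add]
    rw [h5]
    simp
  have h7 := h4.fun_add h2
  have h8 : (fun z => f z - (σ * z + a * z ^ 2 + σ * a ^ 2 * z ^ 3)
      + (σ * z + a * z ^ 2 + σ * a ^ 2 * z ^ 3)) = f := by
    funext z; ring
  rw [h8, zero_add] at h7
  exact h7.deriv

theorem two_iff {f : ℂ → ℂ} (hf : IsGerm f) :
    InI 2 f ↔ ∃ τ, IsInvolution τ ∧ τ ∘ f ∘ τ ∘ f =ᶠ[𝓝 0] id := by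
  constructor
  · rintro ⟨l, hl, hinv, he⟩
    obtain ⟨a, b, rfl⟩ := List.length_eq_two.1 hl
    simp only [List.foldr_cons, List.foldr_nil, Function.comp_id] at he
    have ha := hinv a (by simp)
    have hb := hinv b (by simp)
    refine ⟨a, ha, ?_⟩
    have ta := germ_tendsto ha.1
    have tb := germ_tendsto hb.1
    have tf := germ_tendsto hf
    filter_upwards [he, (ta.comp tf).eventually he, tb.eventually ha.2, hb.2,
      (tb.comp (ta.comp tf)).eventually ha.2] with z z1 z2 z3 z4 z5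
    simp only [Function.comp, id] at z1 z2 z3 z4 z5 ⊢
    rw [z2, z5, z1, z3, z4]
  · rintro ⟨τ, hτ, h⟩
    refine ⟨[τ, τ ∘ f], rfl, ?_, ?_⟩
    · intro s hs
      rcases List.mem_pair.1 hs with rfl | rfl
      · exact hτ
      · exact ⟨germ_comp hτ.1 hf, h⟩
    · simp only [List.foldr_cons, List.foldr_nil, Function.comp_id]
      filter_upwards [(germ_tendsto hf).eventually hτ.2] with z z1
      exact z1.symm

theorem three_iff {f : ℂ → ℂ} (hf : IsGerm f) :
    InI 3 f ↔ (∃ a : ℂ, (fun z => f z - ((-1) * z + a * z ^ 2 + (-1) * a ^ 2 * z ^ 3))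
      =O[𝓝 0] (fun z => z ^ 4)) ∨ (deriv f 0 = 1 ∧ InI 2 f) := by
  constructor
  · intro h
    obtain ⟨σ, a, hσ, hO⟩ := necessary h
    rcases hσ with rfl | rfl
    · right
      have h1 := jet_deriv hf.2.1 hO
      obtain ⟨σ, τ, hσ, hτ, he, -⟩ := three_two h h1
      refine ⟨h1, [σ, τ], rfl, ?_, ?_⟩
      · intro s hs
        rcases List.mem_pair.1 hs with rfl | rfl
        · exact hσ
        · exact hτ
      · simpa using he
    · exact Or.inl ⟨a, hO⟩
  · rintro (⟨a, h⟩ | ⟨-, h⟩)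
    · refine three hf (a := a) ?_
      refine h.congr_left (fun z => ?_)
      ring
    · exact h.succ

theorem quintic_jet : (fun z : ℂ => (z + z ^ 5) - (1 * z + 0 * z ^ 2 + 1 * 0 ^ 2 * z ^ 3))
    =O[𝓝 0] (fun z => z ^ 4) := by
  have h1 : (fun z : ℂ => z ^ 5) =O[𝓝 0] (fun z : ℂ => z ^ 4) := by
    have h2 : (fun z : ℂ => z) =O[𝓝 0] (fun _ => (1 : ℂ)) :=
      (continuous_id.tendsto (0 : ℂ)).isBigO_one ℂ
    have h3 := h2.mul (isBigO_refl (fun z : ℂ => z ^ 4) (𝓝 0))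
    refine h3.congr (fun z => by ring) (fun z => by ring)
  refine h1.congr_left (fun z => ?_)
  ring

theorem quintic_germ : IsGerm (fun z : ℂ => z + z ^ 5) := by
  have hder : HasDerivAt (fun z : ℂ => z + z ^ 5) 1 0 := by
    have := (hasDerivAt_id' (0 : ℂ)).fun_add (hasDerivAt_pow 5 (0 : ℂ))
    simpa using this
  refine ⟨by fun_prop, by simp, ?_⟩
  rw [hder.deriv]
  exact one_ne_zero

theorem quintic_four : InI 4 (fun z : ℂ => z + z ^ 5) :=
  four quintic_germ (Or.inl rfl) quintic_jet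

end Pool.Agent.Y263.IV
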