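import Pool.Agent.Results.MP_40a019_an.BoundedWidth

/-!
# Folding: near-identity germs next to a reflection

If `id + e` is defined outside a rectangle centred at `0`, then `(id + e) ∘ (w ↦ -w) = τ ∘ (id + e₁)`
with an involution `τ` and `e₁` defined outside the left half of the (slightly enlarged) rectangle.
-/

set_option autoImplicit false

namespace Pool.Agent.Y263.IV

open Pool.Agent.Results.MP_40a019_an.BoundedWidth
open Complex Set Filter Topology Metric Bornology

section
variable {ι : Type} {d : ι → ι → ℝ} {x y α : ℝ} {e : ι → ℂ → ℂ}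

theorem invo_of_ni {L K : ℂ → ℂ} (hL : NI L) (hK : NI K) (hLK : L ∘ K =ᶠ[cobounded ℂ] id)
    (hKL : K ∘ L =ᶠ[cobounded ℂ] id) (v : ℂ) : IsInvo (fun w => L (v - K w)) := by
  have := invo_conj (invo_refl v) hL.good hK.good hLK hKL hLK
  exact this

theorem fold (hd : ∀ i j, 0 ≤ d i j) (hx : 0 ≤ x) (hy : 0 ≤ y) (hα0 : 0 ≤ α)
    (hα : 8192 * (2 * x + 2 * y + 4) * α ≤ 1) (he : Fam d (XS x y 0) α e) :
    ∃ e1 : ι → ℂ → ℂ, Fam d (AS x y 3) (200 * (2 * x + 2 * y + 4) * α) e1 ∧
      ∀ i, (∃ τ, IsInvo τ ∧ (fun w => (0 - w) + e i (0 - w)) =ᶠ[cobounded ℂ]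
          τ ∘ (fun w => w + e1 i w)) ∧
        (HasRes (fun w => w + e i w) 0 → HasRes (fun w => w + e1 i w) 0) := by
  obtain ⟨p, q, hp, hq, hr⟩ := decomp hd hx hy hα0 hα he
  have G := geo (x := x) (y := y) hx
  set Λ := 2 * x + 2 * y + 4 with hΛ
  have hΛα : 0 ≤ Λ * α := by positivity
  have hq' : Fam d (AS x y 3) (128 * Λ * α) (fun i w => - q i (0 - w)) := by
    apply (hq.refl 0).mono
    rintro w (h | h | h | h)
    · right; left; rw [sub_re, zero_re]; linarith
    · left; rw [sub_re, zero_re]; linarith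
    · right; right; right; rw [sub_im, zero_im]; linarith
    · right; right; left; rw [sub_im, zero_im]; linarith
  have s13 : Sh (2 * 1) (AS x y 3) (AS x y 1) := by
    have := G.sA 1 2 (by norm_num)
    norm_num at this ⊢
    exact this
  have hc := hp.comp hq' hd (G.oA 1) (δ := 1) (by norm_num) (by nlinarith)
    (by nlinarith) (by nlinarith) s13
  refine ⟨_, hc.le hd ?_, ?_⟩
  · have h1 : 64 * Λ * α * (128 * Λ * α) ≤ Λ * α := by nlinarith
    rw [div_one]
    linarith
  · intro i
    have nL : NI (fun w => w + p i w) := hp.ni (G.oA 1) ((G.co 1).mono fun w hw => G.XA 1 hw) i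
    have nR : NI (fun w => w + q i w) := hq.ni (G.oB 2) ((G.co 2).mono fun w hw => G.XB 2 hw) i
    have hFG : (fun w => w + e i w) =ᶠ[cobounded ℂ] (fun w => w + p i w) ∘ (fun w => w + q i w) := by
      filter_upwards [G.co 2] with w hw
      exact hr i w hw
    obtain ⟨K, hK, hLK, hKL⟩ := nL.inv
    have hRg := (nR.refl 0).good.tendsto
    refine ⟨⟨fun w => (fun w => w + p i w) (0 - K w), invo_of_ni nL hK hLK hKL 0, ?_⟩, ?_⟩
    · filter_upwards [(tendsto_refl 0).eventually hFG, hRg.eventually hKL] with w h1 h2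
      simp only [Function.comp, id] at h1 h2 ⊢
      rw [h1]
      have e1 : w + (- q i (0 - w) + p i (w + - q i (0 - w)))
          = 0 - (0 - w + q i (0 - w)) + p i (0 - (0 - w + q i (0 - w))) := by
        have : w + - q i (0 - w) = 0 - (0 - w + q i (0 - w)) := by ring
        rw [← this]; ring
      rw [e1, h2, sub_sub_cancel]
    · intro h0
      obtain ⟨a, ha⟩ := nL.res
      obtain ⟨b, hb⟩ := nR.res
      have h1 := ha.comp hb nR
      have h2 := h0.congr hFG
      have h3 : a + b = 0 := h1.unique h2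
      have h5 := hb.refl 0
      have h7 := ha.comp h5 (nR.refl 0)
      rw [h3] at h7
      refine h7.congr (Eventually.of_forall fun w => ?_)
      simp only [Function.comp]
      have : w + - q i (0 - w) = 0 - (0 - w + q i (0 - w)) := by ring
      rw [← this]; ring

end

end Pool.Agent.Y263.IV
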