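import Pool.Agent.Y263.IV.Clos
import Pool.Agent.Y263.IV.Aff

/-!
# Killing the first order part up to a small multiple
-/

set_option autoImplicit false

namespace Pool.Agent.Y263.IV

open Pool.Agent.Results.MP_40a019_an.BoundedWidth
open Complex Set Filter Topology Metric Bornology

/-- a function outside the disc of radius `92`, bounded by `α`, of order `o(1/w)` -/
structure Out (α : ℝ) (g : ℂ → ℂ) : Prop where
  diff : DifferentiableOn ℂ g {w | 92 < ‖w‖}
  bd : ∀ w, 92 < ‖w‖ → ‖g w‖ ≤ α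
  lim : Tendsto g (cobounded ℂ) (𝓝 0)
  res : HasRes (fun w => w + g w) 0

theorem Out.sub {α β : ℝ} {g g' : ℂ → ℂ} (h : Out α g) (h' : Out β g')
    {γ : ℝ} (hγ : ∀ w, 92 < ‖w‖ → ‖g w - g' w‖ ≤ γ) : Out γ (fun w => g w - g' w) := by
  refine ⟨h.diff.sub h'.diff, hγ, by simpa using h.lim.sub h'.lim, ?_⟩
  have h1 : Tendsto (fun w => w * ((w + g w) - w)) (cobounded ℂ) (𝓝 0) := h.res
  have h2 : Tendsto (fun w => w * ((w + g' w) - w)) (cobounded ℂ) (𝓝 0) := h'.res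
  have h3 := h1.sub h2
  rw [sub_zero] at h3
  show Tendsto (fun w => w * ((w + (g w - g' w)) - w)) (cobounded ℂ) (𝓝 0)
  refine h3.congr fun w => ?_
  ring

noncomputable def hh (g : ℂ → ℂ) : ℂ → ℂ := fun z => if z = 0 then 0 else g z⁻¹

theorem hh_diff {α : ℝ} {g : ℂ → ℂ} (h : Out α g) : DifferentiableOn ℂ (hh g) (ball 0 (1 / 92)) :=
  (G_diff (by norm_num : (0 : ℝ) < 92) h.diff h.lim).1

theorem hh_deriv {α : ℝ} {g : ℂ → ℂ} (h : Out α g) : HasDerivAt (hh g) 0 0 :=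
  (G_diff (by norm_num : (0 : ℝ) < 92) h.diff h.lim).2 0 h.res

theorem hh_bd {α : ℝ} {g : ℂ → ℂ} (h : Out α g) (hα : 0 ≤ α) {z : ℂ} (hz : ‖z‖ < 1 / 92) :
    ‖hh g z‖ ≤ α := by
  unfold hh
  by_cases h0 : z = 0
  · simp [h0, hα]
  · simp only [h0, if_false]
    apply h.bd
    rw [norm_inv, lt_inv_comm₀ (by norm_num) (norm_pos_iff.2 h0)]
    linarith

/-- the Laurent coefficients at infinity -/
noncomputable def co (g : ℂ → ℂ) (m : ℕ) : ℂ :=
  ((m.factorial : ℂ))⁻¹ * iteratedDeriv m (hh g) 0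

theorem co_bd {α : ℝ} {g : ℂ → ℂ} (h : Out α g) (hα : 0 ≤ α) (m : ℕ) :
    ‖co g m‖ ≤ α * 93 ^ m := by
  have hd : DiffContOnCl ℂ (hh g) (ball 0 (1 / 93)) := by
    apply DifferentiableOn.diffContOnCl
    rw [closure_ball _ (by norm_num)]
    exact (hh_diff h).mono (closedBall_subset_ball (by norm_num))
  have h1 := Complex.norm_iteratedDeriv_le_of_forall_mem_sphere_norm_le m
    (by norm_num : (0 : ℝ) < 1 / 93) hd (C := α) (fun z hz => hh_bd h hα (by
      rw [mem_sphere_iff_norm, sub_zero] at hz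
      rw [hz]; norm_num))
  unfold co
  rw [norm_mul, norm_inv, norm_natCast]
  have hf : (0 : ℝ) < m.factorial := by exact_mod_cast Nat.factorial_pos m
  calc (m.factorial : ℝ)⁻¹ * ‖iteratedDeriv m (hh g) 0‖
      ≤ (m.factorial : ℝ)⁻¹ * (m.factorial * α / (1 / 93) ^ m) := by gcongr
    _ = α * 93 ^ m := by
      rw [one_div, inv_pow]
      field_simp

theorem co_sub {α β : ℝ} {g g' : ℂ → ℂ} (h : Out α g) (h' : Out β g') (m : ℕ) :
    co (fun w => g w - g' w) m = co g m - co g' m := by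
  have e : hh (fun w => g w - g' w) = fun z => hh g z - hh g' z := by
    funext z
    unfold hh
    by_cases h0 : z = 0 <;> simp [h0]
  have c1 : ContDiffAt ℂ m (hh g) 0 :=
    ((hh_diff h).analyticAt (isOpen_ball.mem_nhds (by simp))).contDiffAt
  have c2 : ContDiffAt ℂ m (hh g') 0 :=
    ((hh_diff h').analyticAt (isOpen_ball.mem_nhds (by simp))).contDiffAt
  unfold co
  rw [e, iteratedDeriv_fun_sub c1 c2]
  ring

/-- the truncated Laurent series -/
theorem tail {α : ℝ} {g : ℂ → ℂ} (h : Out α g) (hα : 0 ≤ α) (N : ℕ) {w : ℂ} (hw : 95 ≤ ‖w‖) :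
    ‖g w - ∑ m ∈ Finset.range N, co g (m + 2) * (w⁻¹) ^ (m + 2)‖ ≤ α * (48 * (93 / 95) ^ N) := by
  have hw0 : w ≠ 0 := by
    rintro rfl
    rw [norm_zero] at hw
    norm_num at hw
  have hz : ‖w⁻¹‖ ≤ 1 / 95 := by
    rw [norm_inv, inv_eq_one_div]
    exact one_div_le_one_div_of_le (by norm_num) hw
  have hs := Complex.hasSum_taylorSeries_on_ball (hh_diff h) (z := w⁻¹)
    (by rw [mem_ball, dist_zero_right]; exact lt_of_le_of_lt hz (by norm_num))
  have hval : hh g w⁻¹ = g w := by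
    unfold hh
    rw [if_neg (inv_ne_zero hw0), inv_inv]
  rw [hval] at hs
  have hs' : HasSum (fun m : ℕ => co g m * (w⁻¹) ^ m) (g w) := by
    refine hs.congr_fun ?_ |> fun h => h
    intro m
    unfold co
    rw [sub_zero, smul_eq_mul, smul_eq_mul]
    ring
  have c0 : co g 0 = 0 := by
    unfold co
    simp [hh]
  have c1 : co g 1 = 0 := by
    unfold co
    simp [iteratedDeriv_one, (hh_deriv h).deriv]
  have hs2 : HasSum (fun m : ℕ => co g (m + (N + 2)) * (w⁻¹) ^ (m + (N + 2)))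
      (g w - ∑ m ∈ Finset.range (N + 2), co g m * (w⁻¹) ^ m) :=
    (hasSum_nat_add_iff (f := fun m : ℕ => co g m * (w⁻¹) ^ m) (N + 2)).2 (by simpa using hs')
  have hsum : ∑ m ∈ Finset.range (N + 2), co g m * (w⁻¹) ^ m
      = ∑ m ∈ Finset.range N, co g (m + 2) * (w⁻¹) ^ (m + 2) := by
    rw [Finset.sum_range_succ', Finset.sum_range_succ', c0]
    simp only [zero_add]
    rw [c1]
    simp
  rw [hsum] at hs2
  have hg : HasSum (fun m : ℕ => α * (93 / 95) ^ N * (93 / 95 : ℝ) ^ m)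
      (α * (93 / 95) ^ N * (1 - 93 / 95)⁻¹) :=
    (hasSum_geometric_of_lt_one (by norm_num) (by norm_num)).mul_left _
  have hle := hs2.norm_le_of_bounded hg (fun m => by
    rw [norm_mul, norm_pow]
    have h1 := co_bd h hα (m + (N + 2))
    calc ‖co g (m + (N + 2))‖ * ‖w⁻¹‖ ^ (m + (N + 2))
        ≤ (α * 93 ^ (m + (N + 2))) * (1 / 95) ^ (m + (N + 2)) := by gcongr
      _ = α * (93 / 95) ^ (m + (N + 2)) := by
        rw [mul_assoc, ← mul_pow]; norm_num
      _ = α * (93 / 95) ^ N * (93 / 95 : ℝ) ^ m * (93 / 95) ^ 2 := by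
        rw [pow_add, pow_add]; ring
      _ ≤ α * (93 / 95) ^ N * (93 / 95 : ℝ) ^ m * 1 := by
        gcongr
        norm_num
      _ = _ := by ring)
  refine hle.trans ?_
  have h2 : (1 - 93 / 95 : ℝ)⁻¹ ≤ 48 := by norm_num
  calc α * (93 / 95) ^ N * (1 - 93 / 95 : ℝ)⁻¹ ≤ α * (93 / 95) ^ N * 48 := by gcongr
    _ = _ := by ring

/-- the domains of the corrections -/
def Far (t : ℂ) : Set ℂ := {w | 2 < ‖w - t‖}

theorem norm_pt {x y : ℝ} {s : ℂ} (h : s = x + y * I) {r : ℝ} (hr : 0 ≤ r)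
    (hxy : x ^ 2 + y ^ 2 ≤ r ^ 2) : ‖s‖ ≤ r := by
  rw [← sq_le_sq₀ (norm_nonneg _) hr, h, ← normSq_eq_norm_sq, normSq_add_mul_I]
  exact hxy

theorem far_of {t : ℂ} (ht : ‖t‖ ≤ 92) {w : ℂ} (hw : 95 < ‖w‖) : w ∈ Far t := by
  have := norm_sub_norm_le w t
  show 2 < ‖w - t‖
  linarith

theorem far1 {w : ℂ} (hw : 95 < ‖w‖) : w ∈ Far t1 :=
  far_of (norm_pt (x := 58) (y := 42) (by simp [t1]) (by norm_num) (by norm_num)) hw

theorem far1' {w : ℂ} (hw : 95 < ‖w‖) : w + 100 ∈ Far t1 := by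
  have h1 : ‖t1 - 100‖ ≤ 92 :=
    norm_pt (x := -42) (y := 42) (by simp only [t1]; push_cast; ring) (by norm_num) (by norm_num)
  have h2 := far_of h1 hw
  have : w - (t1 - 100) = w + 100 - t1 := by ring
  show 2 < ‖w + 100 - t1‖
  rw [← this]
  exact h2

theorem far2 {w : ℂ} (hw : 95 < ‖w‖) : w ∈ Far t2 :=
  far_of (norm_pt (x := 5) (y := 58) (by simp [t2]) (by norm_num) (by norm_num)) hw

theorem far2' {w : ℂ} (hw : 95 < ‖w‖) : 100 * I - w ∈ Far t2 := by
  have h1 : ‖100 * I - t2‖ ≤ 92 :=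
    norm_pt (x := -5) (y := 42) (by simp only [t2]; push_cast; ring) (by norm_num) (by norm_num)
  have h2 : 2 < ‖w - (100 * I - t2)‖ := far_of h1 hw
  have : 100 * I - w - t2 = -(w - (100 * I - t2)) := by ring
  show 2 < ‖100 * I - w - t2‖
  rw [this, norm_neg]
  exact h2

theorem far3 {w : ℂ} (hw : 95 < ‖w‖) : w ∈ Far t3 :=
  far_of (norm_pt (x := -20) (y := 30) (by simp [t3]) (by norm_num) (by norm_num)) hw

theorem far3' {w : ℂ} (hw : 95 < ‖w‖) : -50 + 50 * I - w ∈ Far t3 := by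
  have h1 : ‖-50 + 50 * I - t3‖ ≤ 92 :=
    norm_pt (x := -30) (y := 20) (by simp only [t3]; push_cast; ring) (by norm_num) (by norm_num)
  have h2 : 2 < ‖w - (-50 + 50 * I - t3)‖ := far_of h1 hw
  have : -50 + 50 * I - w - t3 = -(w - (-50 + 50 * I - t3)) := by ring
  show 2 < ‖-50 + 50 * I - w - t3‖
  rw [this, norm_neg]
  exact h2

theorem rel_diff {c1 c2 c3 : ℂ → ℂ} (h1 : DifferentiableOn ℂ c1 (Far t1))
    (h2 : DifferentiableOn ℂ c2 (Far t2)) (h3 : DifferentiableOn ℂ c3 (Far t3)) :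
    DifferentiableOn ℂ (Rel c1 c2 c3) {w | 95 < ‖w‖} := by
  have a1 : DifferentiableOn ℂ (fun w => c1 (w + 100)) {w | 95 < ‖w‖} :=
    h1.comp (by fun_prop : Differentiable ℂ fun w : ℂ => w + 100).differentiableOn
      (fun w hw => far1' hw)
  have a2 : DifferentiableOn ℂ (fun w => c2 (100 * I - w)) {w | 95 < ‖w‖} :=
    h2.comp (by fun_prop : Differentiable ℂ fun w : ℂ => 100 * I - w).differentiableOn
      (fun w hw => far2' hw)
  have a3 : DifferentiableOn ℂ (fun w => c3 (-50 + 50 * I - w)) {w | 95 < ‖w‖} :=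
    h3.comp (by fun_prop : Differentiable ℂ fun w : ℂ => -50 + 50 * I - w).differentiableOn
      (fun w hw => far3' hw)
  exact (((h1.mono fun w hw => far1 hw).sub a1).add ((h2.mono fun w hw => far2 hw).add a2)).add
    ((h3.mono fun w hw => far3 hw).add a3)

theorem rel_lim {c1 c2 c3 : ℂ → ℂ} (h1 : Tendsto c1 (cobounded ℂ) (𝓝 0))
    (h2 : Tendsto c2 (cobounded ℂ) (𝓝 0)) (h3 : Tendsto c3 (cobounded ℂ) (𝓝 0)) :
    Tendsto (Rel c1 c2 c3) (cobounded ℂ) (𝓝 0) := by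
  have a1 := h1.comp (good_trans 100).tendsto
  have a2 := h2.comp (tendsto_refl (100 * I))
  have a3 := h3.comp (tendsto_refl (-50 + 50 * I))
  have := ((h1.sub a1).add (h2.add a2)).add (h3.add a3)
  have e : ((0 : ℂ) - 0) + (0 + 0) + (0 + 0) = 0 := by norm_num
  rw [e] at this
  exact this

/-- `∑ x m * c m` -/
noncomputable def comb (N : ℕ) (x : ℕ → ℂ) (c : ℕ → ℂ → ℂ) (w : ℂ) : ℂ :=
  - ∑ m ∈ Finset.range N, x m * c m w

theorem rel_comb (N : ℕ) (x : ℕ → ℂ) (c1 c2 c3 : ℕ → ℂ → ℂ) (w : ℂ) :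
    Rel (comb N x c1) (comb N x c2) (comb N x c3) w
      = - ∑ m ∈ Finset.range N, x m * Rel (c1 m) (c2 m) (c3 m) w := by
  simp only [Rel, comb, mul_add, mul_sub, Finset.sum_add_distrib, Finset.sum_sub_distrib]
  ring

theorem comb_bd (N : ℕ) {x : ℕ → ℂ} {c : ℕ → ℂ → ℂ} {α : ℝ} (hα : 0 ≤ α) {M : ℕ → ℝ}
    (hM0 : ∀ m, 0 ≤ M m) {t : ℂ} (hx : ∀ m, ‖x m‖ ≤ α * 93 ^ (m + 2))
    (hc : ∀ m, ∀ w ∈ Far t, ‖c m w‖ ≤ M m) {w : ℂ} (hw : w ∈ Far t) :
    ‖comb N x c w‖ ≤ (∑ m ∈ Finset.range N, 93 ^ (m + 2) * M m) * α := by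
  unfold comb
  rw [norm_neg, Finset.sum_mul]
  refine (norm_sum_le _ _).trans (Finset.sum_le_sum fun m _ => ?_)
  rw [norm_mul]
  calc ‖x m‖ * ‖c m w‖ ≤ (α * 93 ^ (m + 2)) * M m := by
        have := hM0 m
        have h2 := hx m
        have h3 := hc m w hw
        gcongr
    _ = _ := by ring

theorem kill {ρ : ℝ} (hρ : 0 < ρ) : ∃ C : ℝ, 0 ≤ C ∧ ∀ (ι : Type) (d : ι → ι → ℝ)
    (_ : ∀ i j, 0 ≤ d i j) (α : ℝ) (_ : 0 ≤ α) (g : ι → ℂ → ℂ)
    (_ : Fam d {w | 92 < ‖w‖} α g) (_ : ∀ i, HasRes (fun w => w + g i w) 0),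
    ∃ c1 c2 c3 : ι → ℂ → ℂ, Fam d (Far t1) (C * α) c1 ∧ Fam d (Far t2) (C * α) c2 ∧
      Fam d (Far t3) (C * α) c3 ∧
      Fam d {w | 95 < ‖w‖} (ρ * α) (fun i w => g i w + Rel (c1 i) (c2 i) (c3 i) w) := by
  -- the length of the series
  obtain ⟨N, hN⟩ : ∃ N : ℕ, 48 * (93 / 95 : ℝ) ^ N ≤ ρ / 2 := by
    have h1 := tendsto_pow_atTop_nhds_zero_of_lt_one (r := (93 / 95 : ℝ)) (by norm_num)
      (by norm_num)
    have h2 := h1.const_mul 48
    rw [mul_zero] at h2
    obtain ⟨N, hN⟩ := (h2.eventually_lt_const (half_pos hρ)).exists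
    exact ⟨N, hN.le⟩
  -- the approximations of the powers
  set S : ℝ := ∑ m ∈ Finset.range N, (93 : ℝ) ^ (m + 2) with hS
  have hS0 : 0 ≤ S := Finset.sum_nonneg fun m _ => by positivity
  set ε : ℝ := ρ / (2 * (S + 1)) with hε
  have hε0 : 0 < ε := by positivity
  choose c1 c2 c3 n1 n2 n3 happ using fun m : ℕ => approx_pow m hε0
  choose M1 hM1 hb1 using fun m => (n1 m).bd
  choose M2 hM2 hb2 using fun m => (n2 m).bd
  choose M3 hM3 hb3 using fun m => (n3 m).bd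
  set C1 : ℝ := ∑ m ∈ Finset.range N, 93 ^ (m + 2) * M1 m with hC1
  set C2 : ℝ := ∑ m ∈ Finset.range N, 93 ^ (m + 2) * M2 m with hC2
  set C3 : ℝ := ∑ m ∈ Finset.range N, 93 ^ (m + 2) * M3 m with hC3
  have hC10 : 0 ≤ C1 := Finset.sum_nonneg fun m _ => mul_nonneg (by positivity) (hM1 m)
  have hC20 : 0 ≤ C2 := Finset.sum_nonneg fun m _ => mul_nonneg (by positivity) (hM2 m)
  have hC30 : 0 ≤ C3 := Finset.sum_nonneg fun m _ => mul_nonneg (by positivity) (hM3 m)
  refine ⟨C1 + C2 + C3, by positivity, ?_⟩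
  intro ι d hd α hα g hg hres
  have hO : ∀ i, Out α (g i) := fun i => ⟨hg.diff i, fun w hw => hg.bd i w hw, hg.lim i, hres i⟩
  have hO2 : ∀ i j, Out (α * d i j) (fun w => g i w - g j w) := fun i j =>
    (hO i).sub (hO j) fun w hw => hg.lip i j w hw
  have hX : ∀ i j m, co (g i) m - co (g j) m = co (fun w => g i w - g j w) m := fun i j m =>
    (co_sub (hO i) (hO j) m).symm
  -- the families of corrections
  have fam : ∀ (c : ℕ → ℂ → ℂ) (M : ℕ → ℝ) (t : ℂ), (∀ m, Nice t (c m)) → (∀ m, 0 ≤ M m) →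
      (∀ m, ∀ w, 2 < ‖w - t‖ → ‖c m w‖ ≤ M m) →
      Fam d (Far t) ((∑ m ∈ Finset.range N, 93 ^ (m + 2) * M m) * α)
        (fun i => comb N (fun m => co (g i) (m + 2)) c) := by
    intro c M t hn hM hb
    refine ⟨fun i => ?_, fun i w hw => ?_, fun i j w hw => ?_, fun i => ?_⟩
    · unfold comb
      refine DifferentiableOn.fun_neg (DifferentiableOn.fun_sum fun m _ => ?_)
      exact (hn m).diff.const_mul _
    · exact comb_bd N hα hM (fun m => co_bd (hO i) hα (m + 2)) hb hw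
    · have e : comb N (fun m => co (g i) (m + 2)) c w - comb N (fun m => co (g j) (m + 2)) c w
          = comb N (fun m => co (fun w => g i w - g j w) (m + 2)) c w := by
        unfold comb
        simp only [← hX i j, sub_mul, Finset.sum_sub_distrib]
        ring
      rw [e]
      have h1 := comb_bd N (mul_nonneg hα (hd i j)) hM
        (fun m => co_bd (hO2 i j) (mul_nonneg hα (hd i j)) (m + 2)) hb hw
      calc _ ≤ _ := h1
        _ = _ := by ring
    · unfold comb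
      have h1 : Tendsto (fun w => ∑ m ∈ Finset.range N, co (g i) (m + 2) * c m w) (cobounded ℂ)
          (𝓝 (∑ m ∈ Finset.range N, co (g i) (m + 2) * 0)) :=
        tendsto_finset_sum _ fun m _ => (hn m).lim.const_mul _
      simpa using h1.neg
  have f1 := fam c1 M1 t1 n1 hM1 hb1
  have f2 := fam c2 M2 t2 n2 hM2 hb2
  have f3 := fam c3 M3 t3 n3 hM3 hb3
  refine ⟨_, _, _, f1.le hd (by nlinarith), f2.le hd (by nlinarith), f3.le hd (by nlinarith), ?_⟩
  -- the remainder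
  have rem : ∀ (γ : ℝ) (k : ℂ → ℂ), 0 ≤ γ → Out γ k → ∀ w : ℂ, 95 < ‖w‖ →
      ‖k w + Rel (comb N (fun m => co k (m + 2)) c1) (comb N (fun m => co k (m + 2)) c2)
        (comb N (fun m => co k (m + 2)) c3) w‖ ≤ ρ * γ := by
    intro γ k hγ hk w hw
    rw [rel_comb]
    have h1 := tail hk hγ N hw.le
    have h2 : ‖∑ m ∈ Finset.range N, co k (m + 2) * ((w⁻¹) ^ (m + 2)
        - Rel (c1 m) (c2 m) (c3 m) w)‖ ≤ γ * (S * ε) := by
      refine (norm_sum_le _ _).trans ?_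
      rw [hS, Finset.sum_mul, Finset.mul_sum]
      refine Finset.sum_le_sum fun m _ => ?_
      rw [norm_mul]
      have h3 := co_bd hk hγ (m + 2)
      have h4 := happ m w hw.le
      calc _ ≤ (γ * 93 ^ (m + 2)) * ε := by gcongr
        _ = _ := by ring
    have h3 : S * ε ≤ ρ / 2 := by
      rw [hε, mul_div_assoc', div_le_div_iff₀ (by positivity) (by norm_num)]
      nlinarith
    have e : k w + -∑ m ∈ Finset.range N, co k (m + 2) * Rel (c1 m) (c2 m) (c3 m) w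
        = (k w - ∑ m ∈ Finset.range N, co k (m + 2) * (w⁻¹) ^ (m + 2))
          + ∑ m ∈ Finset.range N, co k (m + 2) * ((w⁻¹) ^ (m + 2)
            - Rel (c1 m) (c2 m) (c3 m) w) := by
      simp only [mul_sub, Finset.sum_sub_distrib]
      ring
    rw [e]
    refine (norm_add_le _ _).trans ?_
    nlinarith
  refine ⟨fun i => ?_, fun i w hw => rem α (g i) hα (hO i) w hw, fun i j w hw => ?_, fun i => ?_⟩
  · have h1 := rel_diff (f1.diff i) (f2.diff i) (f3.diff i)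
    have h2 : DifferentiableOn ℂ (g i) {w | 95 < ‖w‖} := (hg.diff i).mono fun w hw => by
      have hw' : 95 < ‖w‖ := hw
      show 92 < ‖w‖
      linarith
    exact h2.add h1
  · have h1 := rem (α * d i j) _ (mul_nonneg hα (hd i j)) (hO2 i j) w hw
    have e : g i w + Rel (comb N (fun m => co (g i) (m + 2)) c1)
          (comb N (fun m => co (g i) (m + 2)) c2) (comb N (fun m => co (g i) (m + 2)) c3) w
        - (g j w + Rel (comb N (fun m => co (g j) (m + 2)) c1)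
          (comb N (fun m => co (g j) (m + 2)) c2) (comb N (fun m => co (g j) (m + 2)) c3) w)
        = (g i w - g j w) + Rel (comb N (fun m => co (fun w => g i w - g j w) (m + 2)) c1)
          (comb N (fun m => co (fun w => g i w - g j w) (m + 2)) c2)
          (comb N (fun m => co (fun w => g i w - g j w) (m + 2)) c3) w := by
      rw [rel_comb, rel_comb, rel_comb]
      simp only [← hX i j, sub_mul, Finset.sum_sub_distrib]
      ring
    rw [e]
    calc _ ≤ _ := h1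
      _ = _ := by ring
  · have h1 := rel_lim (f1.lim i) (f2.lim i) (f3.lim i)
    simpa using (hg.lim i).add h1

end Pool.Agent.Y263.IV
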