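import Pool.Agent.Y263.IV.Aff

/-!
# One folding step with a correction, and the last reflection
-/

set_option autoImplicit false

namespace Pool.Agent.Y263.IV

open Pool.Agent.Results.MP_40a019_an.BoundedWidth
open Complex Set Filter Topology Metric Bornology

/-- the exterior of a disc -/
def FD (r : ℝ) (s : ℂ) : Set ℂ := {w | r < ‖w - s‖}

theorem FD_open (r : ℝ) (s : ℂ) : IsOpen (FD r s) :=
  isOpen_lt continuous_const (by fun_prop)

theorem FD_co (r : ℝ) (s : ℂ) : ∀ᶠ w in cobounded ℂ, w ∈ FD r s := by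
  have := (good_trans (-s)).tendsto.eventually (out_co r)
  filter_upwards [this] with w hw
  have hw' : r < ‖w + -s‖ := hw
  rwa [← sub_eq_add_neg] at hw'

theorem FD_sh (r δ : ℝ) (s : ℂ) : Sh δ (FD (r + δ) s) (FD r s) := by
  intro w hw z hz
  have h1 : r + δ < ‖w - s‖ := hw
  have h2 : ‖w - s‖ ≤ ‖z - s‖ + ‖z - w‖ := by
    calc ‖w - s‖ = ‖(z - s) - (z - w)‖ := by ring_nf
      _ ≤ _ := norm_sub_le _ _
  show r < ‖z - s‖
  linarith

section
variable {ι : Type} {d : ι → ι → ℝ} {x y a β : ℝ} {m P Q k : ι → ℂ → ℂ}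

theorem inv_res {k k' : ℂ → ℂ} (n1 : NI (fun w => w + k w)) (n2 : NI (fun w => w + k' w))
    (h : (fun w => w + k w) ∘ (fun w => w + k' w) =ᶠ[cobounded ℂ] id) :
    ∃ r, HasRes (fun w => w + k w) r ∧ HasRes (fun w => w + k' w) (-r) := by
  obtain ⟨r, hr⟩ := n1.res
  obtain ⟨s, hs⟩ := n2.res
  have h1 := (hr.comp hs n2).congr h
  have h2 := h1.unique hasRes_id
  refine ⟨r, hr, ?_⟩
  have : s = -r := by linear_combination h2
  rwa [this] at hs

theorem stage (hd : ∀ i j, 0 ≤ d i j) (hx : 0 ≤ x) (hy : 0 ≤ y)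
    (hxy : 2 * (x + 5) + 2 * (y + 5) + 4 ≤ 600) (ha0 : 0 ≤ a) (ha : a ≤ 1 / 10 ^ 17)
    (hβ0 : 0 ≤ β) (hβ : β ≤ 10 ^ 9 * a ^ 2) {c v s : ℂ} (hc : ‖c‖ = 1)
    (hm : Fam d (Im c v (XS x y 1)) (8 * a) m) (hk : Fam d (FD 2 s) a k)
    (hP : Fam d (Im c v (AS x y 1)) (3 * a) P) (hQ : Fam d (Im c v (BS x y 1)) (3 * a) Q)
    (hr : Fam d (Im c v (XS x y 1)) β (fun i w => m i w - (P i w + Q i w + k i w)))
    (hs : Sh (2 * 1) (Im c v (XS x y 1)) (FD 4 s)) {Ω : Set ℂ} (hΩo : IsOpen Ω)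
    (hΩc : ∀ᶠ w in cobounded ℂ, w ∈ Ω) (hΩ : Ω ⊆ Im c v (AS (x + 5) (y + 5) 5))
    (hΩs : Sh (2 * 1) Ω (FD 2 s)) :
    ∃ m' : ι → ℂ → ℂ, Fam d Ω (8 * a) m' ∧
      Fam d Ω (10 ^ 6 * (β + 1000 * a ^ 2))
        (fun i w => m' i w - (P i w - Q i (2 * v - w) + k i w)) ∧
      ∀ i, (∃ τ, IsInvo τ ∧ (fun w => (2 * v - w) + m i (2 * v - w)) =ᶠ[cobounded ℂ]
          τ ∘ (fun w => w + m' i w)) ∧
        (HasRes (fun w => w + m i w) 0 → HasRes (fun w => w + m' i w) 0) := by
  have hc0 : c ≠ 0 := by rintro rfl; simp at hc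
  have ha1 : a ≤ 1 / 1000 := ha.trans (by norm_num)
  have ha2 : a * a ≤ a / 10 ^ 17 := by
    calc a * a ≤ a * (1 / 10 ^ 17) := by gcongr
      _ = _ := by ring
  have G := geo (x := x) (y := y) hx
  have sF : Sh (2 * 1) (FD 4 s) (FD 2 s) := by
    have := FD_sh 2 2 s
    norm_num at this ⊢
    exact this
  have hXo : IsOpen (Im c v (XS x y 1)) := Im_open (G.oX 1) c v
  have hXc : ∀ᶠ w in cobounded ℂ, w ∈ Im c v (XS x y 1) := Im_co (G.co 1) hc0
  obtain ⟨k', hk', hke, hkt⟩ := finv hk hd (FD_open 2 s) (FD_open 4 s) (δ := 1) one_pos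
    (by linarith) ha0 (FD_co 4 s) sF
  have hec := hk'.comp hm hd (FD_open 4 s) (δ := 1) one_pos (by linarith) (by positivity)
    (by positivity) hs
  have hef := fcomp hk' hm hd (FD_open 4 s) (δ := 1) one_pos (by linarith) (by positivity)
    (by positivity) hs
  set e : ι → ℂ → ℂ := fun i w => m i w + k' i (w + m i w) with he
  have hsub1 : Im c v (XS x y 1) ⊆ FD 4 s := hs.sub (by norm_num)
  have hr' : Fam d (Im c v (XS x y 1)) (β + 36 * a ^ 2) (fun i w => e i w - (P i w + Q i w)) := by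
    have h1 := fadd (fadd hef (hkt.mono hsub1)) hr
    refine (h1.congr' (fun i w => ?_)).le hd ?_
    · simp only [he]; ring
    · rw [div_one, div_one]; nlinarith
  have hb1 : β + 36 * a ^ 2 + 100 * (3 * a) ^ 2 ≤ 2 * 10 ^ 9 * a ^ 2 := by nlinarith [sq_nonneg a]
  have hb2 : a ^ 2 ≤ 1 / 10 ^ 17 * a := by rw [pow_two]; linarith
  have hb3 : a ^ 2 ≤ 1 / 10 ^ 34 := by
    calc a ^ 2 ≤ (1 / 10 ^ 17) ^ 2 := by gcongr
      _ = _ := by norm_num
  obtain ⟨e1, he1, h1⟩ := foldA (a := 3 * a) (β := β + 36 * a ^ 2) hd hx hy hxy (by positivity)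
    (by linarith) (by positivity) (by nlinarith) (by nlinarith) hc hP hQ hr'
  -- the domain
  have hΩA : Ω ⊆ Im c v (AS x y 1) := by
    intro w hw
    rcases hΩ hw with h | h | h | h
    · left; linarith
    · right; left; linarith
    · right; right; left; linarith
    · right; right; right; linarith
  have hΩB : Ω ⊆ {w | 2 * v - w ∈ Im c v (BS x y 1)} := by
    intro w hw
    have e1 : c⁻¹ * (2 * v - w - v) = -(c⁻¹ * (w - v)) := by ring
    show c⁻¹ * (2 * v - w - v) ∈ BS x y 1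
    rw [e1]
    rcases hΩ hw with h | h | h | h
    · right; left; rw [neg_re]; linarith
    · left; rw [neg_re]; linarith
    · right; right; right; rw [neg_im]; linarith
    · right; right; left; rw [neg_im]; linarith
  have hPo := hP.mono hΩA
  have hQo := (hQ.refl (2 * v)).mono hΩB
  have he1o := he1.mono hΩ
  have hE1 : Fam d Ω (7 * a) e1 := by
    have h2 := fadd he1o (fadd hPo hQo)
    refine (h2.congr' (fun i w => by ring)).le hd ?_
    nlinarith
  have hM := hk.comp hE1 hd (FD_open 2 s) (δ := 1) one_pos (by linarith) (by positivity)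
    (by positivity) hΩs
  have hMf := fcomp hk hE1 hd (FD_open 2 s) (δ := 1) one_pos (by linarith) (by positivity)
    (by positivity) hΩs
  have hfin : Fam d Ω (10 ^ 6 * (β + 36 * a ^ 2 + 100 * (3 * a) ^ 2) + 14 * a ^ 2)
      (fun i w => (e1 i w + k i (w + e1 i w)) - (P i w - Q i (2 * v - w) + k i w)) := by
    have h2 := fadd he1o hMf
    refine (h2.congr' (fun i w => by ring)).le hd ?_
    rw [div_one]; nlinarith
  refine ⟨fun i w => e1 i w + k i (w + e1 i w), ?_, hfin.le hd (by nlinarith), fun i => ?_⟩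
  · have h2 := fadd hfin (fadd (fadd hPo hQo) (hk.mono (hΩs.sub (by norm_num))))
    refine (h2.congr' (fun i w => by ring)).le hd ?_
    nlinarith
  · have nk : NI (fun w => w + k i w) := hk.ni (FD_open 2 s) (FD_co 2 s) i
    have nk' : NI (fun w => w + k' i w) := hk'.ni (FD_open 4 s) (FD_co 4 s) i
    have nm : NI (fun w => w + m i w) := hm.ni hXo hXc i
    have ne1 : NI (fun w => w + e1 i w) := hE1.ni hΩo hΩc i
    have ik := inv_sides nk nk' ((FD_co 4 s).mono fun w hw => hke i w hw)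
    have hME : (fun w => w + m i w) =ᶠ[cobounded ℂ]
        (fun w => w + k i w) ∘ (fun w => w + e i w) := by
      filter_upwards [nm.good.tendsto.eventually (FD_co 4 s)] with w hw
      have h2 := hke i _ hw
      simp only [Function.comp, he]
      have e2 : w + (m i w + k' i (w + m i w)) = (w + m i w) + k' i (w + m i w) := by ring
      rw [e2, h2]
    have hEM : (fun w => w + k' i w) ∘ (fun w => w + m i w) =ᶠ[cobounded ℂ]
        (fun w => w + e i w) := Eventually.of_forall fun w => by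
      simp only [Function.comp, he]
      ring
    obtain ⟨⟨τ, hτ, hτe⟩, hres⟩ := h1 i
    refine ⟨⟨_, invo_conj hτ nk.good nk'.good ik.1 ik.2 ik.1, ?_⟩, ?_⟩
    · filter_upwards [(tendsto_refl (2 * v)).eventually hME, hτe,
        ne1.good.tendsto.eventually ik.2] with w g1 g2 g3
      simp only [Function.comp, id] at g1 g2 g3 ⊢
      rw [g1, g2]
      have e3 : w + (e1 i w + k i (w + e1 i w)) = w + e1 i w + k i (w + e1 i w) := by ring
      rw [e3, g3]
    · intro h0
      obtain ⟨r, hr1, hr2⟩ := inv_res nk nk' ik.1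
      have h3 := (hr2.comp h0 nm).congr hEM
      have h4 := hres _ h3
      have h5 := hr1.comp h4 ne1
      have e4 : r + (-r + 0) = 0 := by ring
      rw [e4] at h5
      refine h5.congr (Eventually.of_forall fun w => ?_)
      simp only [Function.comp]
      ring

/-- the last reflection, with its correction -/
theorem last (hd : ∀ i j, 0 ≤ d i j) (ha0 : 0 ≤ a) (ha : a ≤ 1 / 10 ^ 17) {s D : ℂ}
    {Ω0 : Set ℂ} (hΩ0 : IsOpen Ω0) (hΩ0c : ∀ᶠ w in cobounded ℂ, w ∈ Ω0)
    (hm : Fam d Ω0 (8 * a) m) (hk : Fam d (FD 2 s) a k)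
    {Ω : Set ℂ} (hΩo : IsOpen Ω)
    (hΩc : ∀ᶠ w in cobounded ℂ, w ∈ Ω) (hΩ : Sh (2 * 1) Ω Ω0)
    (hΩs : Sh (2 * 1) Ω (FD 2 s)) (hΩD : ∀ w ∈ Ω, D - w ∈ FD 4 s) :
    ∃ m' : ι → ℂ → ℂ, Fam d Ω (100 * a ^ 2)
        (fun i w => m' i w - (m i w + (k i w + k i (D - w)))) ∧
      ∀ i, (∃ τ, IsInvo τ ∧ (fun w => (D - w) + m i (D - w)) =ᶠ[cobounded ℂ]
          τ ∘ (fun w => w + m' i w)) ∧
        (HasRes (fun w => w + m i w) 0 → HasRes (fun w => w + m' i w) 0) := by
  have ha1 : a ≤ 1 / 1000 := ha.trans (by norm_num)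
  have ha2 : a ^ 2 ≤ a / 1000 := by
    calc a ^ 2 = a * a := by ring
      _ ≤ a * (1 / 1000) := by gcongr
      _ = _ := by ring
  have sF : Sh (2 * 1) (FD 4 s) (FD 2 s) := by
    have := FD_sh 2 2 s
    norm_num at this ⊢
    exact this
  obtain ⟨k', hk', hke, hkt⟩ := finv hk hd (FD_open 2 s) (FD_open 4 s) (δ := 1) one_pos
    (by linarith) ha0 (FD_co 4 s) sF
  have hr := (hk'.refl D).mono (Ω' := Ω) hΩD
  have hrt := (hkt.refl D).mono (Ω' := Ω) hΩD
  have hK := hk.comp hr hd (FD_open 2 s) (δ := 1) one_pos (by linarith) (by positivity)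
    (by positivity) hΩs
  have hKf := fcomp hk hr hd (FD_open 2 s) (δ := 1) one_pos (by linarith) (by positivity)
    (by positivity) hΩs
  set κ : ι → ℂ → ℂ := fun i w => - k' i (D - w) + k i (w + - k' i (D - w)) with hκ
  have hκ3 : Fam d Ω (4 * a) κ := hK.le hd (by rw [div_one]; nlinarith)
  have hκt : Fam d Ω (8 * a ^ 2) (fun i w => κ i w - (k i w + k i (D - w))) := by
    have h2 := fadd hKf hrt
    refine (h2.congr' (fun i w => by simp only [hκ]; ring)).le hd ?_
    rw [div_one, div_one]; nlinarith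
  have hMf := fcomp hm hκ3 hd hΩ0 (δ := 1) one_pos (by linarith) (by positivity)
    (by positivity) hΩ
  refine ⟨fun i w => κ i w + m i (w + κ i w), ?_, fun i => ?_⟩
  · have h2 := fadd hMf hκt
    refine (h2.congr' (fun i w => by ring)).le hd ?_
    rw [div_one]; nlinarith
  · have nk : NI (fun w => w + k i w) := hk.ni (FD_open 2 s) (FD_co 2 s) i
    have nk' : NI (fun w => w + k' i w) := hk'.ni (FD_open 4 s) (FD_co 4 s) i
    have nm : NI (fun w => w + m i w) := hm.ni hΩ0 hΩ0c i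
    have nκ : NI (fun w => w + κ i w) := hκ3.ni hΩo hΩc i
    have ik := inv_sides nk nk' ((FD_co 4 s).mono fun w hw => hke i w hw)
    obtain ⟨M, hM, hmM, hMm⟩ := nm.inv
    -- `κ`: `C ∘ (R C⁻¹ R)`
    have hκe : ∀ w, w + κ i w = (D - ((D - w) + k' i (D - w)))
        + k i (D - ((D - w) + k' i (D - w))) := by
      intro w
      have e1 : D - ((D - w) + k' i (D - w)) = w + - k' i (D - w) := by ring
      rw [e1]
      simp only [hκ]
      ring
    refine ⟨⟨_, invo_conj (invo_conj (invo_refl D) nk.good nk'.good ik.1 ik.2 ik.1)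
      nm.good hM.good hmM hMm hmM, ?_⟩, ?_⟩
    · have tR : Tendsto (fun w => D - ((D - w) + k' i (D - w))) (cobounded ℂ) (cobounded ℂ) :=
        (nk'.refl D).good.tendsto
      filter_upwards [nκ.good.tendsto.eventually hMm, tR.eventually ik.2,
        (tendsto_refl D).eventually ik.1] with w g1 g2 g3
      simp only [Function.comp, id] at g1 g2 g3 ⊢
      have e2 : w + (κ i w + m i (w + κ i w)) = w + κ i w + m i (w + κ i w) := by ring
      rw [e2, g1, hκe w, g2, sub_sub_cancel, g3]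
    · intro h0
      obtain ⟨r, hr1, hr2⟩ := inv_res nk nk' ik.1
      have h3 := hr1.comp (hr2.refl D) (nk'.refl D)
      have h4 : HasRes (fun w => w + κ i w) (r + -r) :=
        h3.congr (Eventually.of_forall fun w => by
          simp only [Function.comp]
          exact (hκe w).symm)
      have h5 := h0.comp h4 nκ
      have e4 : (0 : ℂ) + (r + -r) = 0 := by ring
      rw [e4] at h5
      refine h5.congr (Eventually.of_forall fun w => ?_)
      simp only [Function.comp]
      ring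

end

end Pool.Agent.Y263.IV
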