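import Pool.Agent.Y263.IV.Kill
import Pool.Agent.Y263.IV.Stage

/-!
# The first order part of the scheme
-/

set_option autoImplicit false

namespace Pool.Agent.Y263.IV

open Pool.Agent.Results.MP_40a019_an.BoundedWidth
open Complex Set Filter Topology Metric Bornology

/-- the centre -/
noncomputable def b3 : ℂ := -50 - 50 * I
noncomputable def s1 : ℂ := 8 - 8 * I
noncomputable def s2 : ℂ := -45 + 8 * I
noncomputable def s3 : ℂ := -70 - 20 * I
noncomputable def D3 : ℂ := -150 - 50 * I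

theorem Im_one (T : Set ℂ) : Im 1 0 T = T := by
  ext w
  simp [Im]

theorem ImI_re (w : ℂ) : (I⁻¹ * (w - (-50))).re = w.im := by
  rw [Complex.inv_I]
  simp only [neg_mul, neg_re, mul_re, I_re, I_im, sub_re, sub_im, neg_im]
  norm_num

theorem ImI_im (w : ℂ) : (I⁻¹ * (w - (-50))).im = -(w.re + 50) := by
  rw [Complex.inv_I]
  simp only [neg_mul, neg_im, mul_im, I_re, I_im, sub_re, sub_im, neg_re]
  norm_num

theorem mem_ImI {a1 a2 c1 c2 : ℝ} {w : ℂ} : w ∈ Im I (-50)
      (Pool.Agent.Results.MP_40a019_an.BoundedWidth.Ext a1 a2 c1 c2) ↔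
    w.im < a1 ∨ a2 < w.im ∨ -(w.re + 50) < c1 ∨ c2 < -(w.re + 50) := by
  show I⁻¹ * (w - (-50)) ∈ Pool.Agent.Results.MP_40a019_an.BoundedWidth.Ext a1 a2 c1 c2 ↔ _
  simp only [Pool.Agent.Results.MP_40a019_an.BoundedWidth.Ext, mem_ofPred_eq, ImI_re, ImI_im]

theorem b3_re : b3.re = -50 := by simp [b3]
theorem b3_im : b3.im = -50 := by simp [b3]

theorem lr_iff {g : ℂ → ℂ} {l : ℂ} : HasRes (fun w => w + g w) l ↔
    Tendsto (fun w => w * g w) (cobounded ℂ) (𝓝 l) := by
  unfold HasRes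
  simp only [add_sub_cancel_left]

theorem lr_add {p q : ℂ → ℂ} {r s : ℂ} (hp : HasRes (fun w => w + p w) r)
    (hq : HasRes (fun w => w + q w) s) : HasRes (fun w => w + (p w + q w)) (r + s) := by
  rw [lr_iff] at hp hq ⊢
  refine (hp.add hq).congr fun w => ?_
  ring

theorem lr_fold {m p q : ℂ → ℂ} (hp : NI (fun w => w + p w)) (hq : NI (fun w => w + q w))
    (hm : ∀ᶠ w in cobounded ℂ, m w = p w + q w) (h0 : HasRes (fun w => w + m w) 0) (v : ℂ) :
    HasRes (fun w => w + (p w - q (v - w))) 0 := by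
  obtain ⟨r, hr⟩ := hp.res
  obtain ⟨s, hs⟩ := hq.res
  have h1 := lr_add hr hs
  have h2 : HasRes (fun w => w + (p w + q w)) 0 := h0.congr (by
    filter_upwards [hm] with w hw
    rw [hw])
  have h3 := h1.unique h2
  have h4 : HasRes (fun w => w + - q (v - w)) s := (hs.refl v).congr
    (Eventually.of_forall fun w => by ring)
  have h5 := lr_add hr h4
  rw [h3] at h5
  refine h5.congr (Eventually.of_forall fun w => ?_)
  simp only
  ring

theorem lin : ∃ A : ℝ, 1 ≤ A ∧ ∀ (ι : Type) (d : ι → ι → ℝ) (_ : ∀ i j, 0 ≤ d i j) (α : ℝ)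
    (_ : 0 ≤ α) (m0 : ι → ℂ → ℂ) (_ : Fam d (XS 99 99 0) α m0)
    (_ : ∀ i, HasRes (fun w => w + m0 i w) 0),
    ∃ p1 q1 p2 q2 c1 c2 c3 : ι → ℂ → ℂ,
      Fam d (AS 99 99 1) (A * α) p1 ∧ Fam d (BS 99 99 1) (A * α) q1 ∧
      Fam d (Im I (-50) (AS 112 66 1)) (A * α) p2 ∧
      Fam d (Im I (-50) (BS 112 66 1)) (A * α) q2 ∧
      Fam d (FD 2 s1) (A * α) c1 ∧ Fam d (FD 2 s2) (A * α) c2 ∧ Fam d (FD 2 s3) (A * α) c3 ∧
      (∀ i, ∀ w ∈ XS 99 99 1, m0 i w = p1 i w + q1 i w) ∧
      (∀ i, ∀ w ∈ Im I (-50) (XS 112 66 1), p1 i w - q1 i (0 - w) = p2 i w + q2 i w) ∧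
      Fam d {w | 95 < ‖w - b3‖} (α / 16) (fun i w => (p2 i w - q2 i (-100 - w)) +
        ((c1 i w - c1 i (w + 100)) + (c2 i w + c2 i (-100 - w)) +
          (c3 i w + c3 i (D3 - w)))) := by
  obtain ⟨C, hC0, hC⟩ := kill (ρ := 1 / 9216000) (by norm_num)
  refine ⟨576000 * (C + 1), by linarith, ?_⟩
  intro ι d hd α hα0 m0 hm hres
  have hCα : 0 ≤ C * α := mul_nonneg hC0 hα0
  have hm' : Fam d (Im 1 0 (XS 99 99 0)) α m0 := by rw [Im_one]; exact hm
  obtain ⟨p1, q1, hp1, hq1, e1⟩ := splitA hd (by norm_num) (by norm_num) hα0 (by simp) hm'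
  rw [Im_one] at hp1 hq1 e1
  have G := geo (x := 99) (y := 99) (by norm_num)
  have G2 := geo (x := 112) (y := 66) (by norm_num)
  have nI : ‖(I : ℂ)‖ = 1 := by simp
  -- `g1`
  have hq1r := (hq1.refl 0).mono (Ω' := AS 99 99 1) (by
    rintro w (h | h | h | h)
    · right; left; rw [sub_re, zero_re]; linarith
    · left; rw [sub_re, zero_re]; linarith
    · right; right; right; rw [sub_im, zero_im]; linarith
    · right; right; left; rw [sub_im, zero_im]; linarith)
  have hg1 : Fam d (AS 99 99 1) (800 * α) (fun i w => p1 i w - q1 i (0 - w)) := by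
    refine ((fadd hp1 hq1r).congr' (fun i w => by ring)).le hd ?_
    linarith
  have hg1' : Fam d (Im I (-50) (XS 112 66 0)) (800 * α) (fun i w => p1 i w - q1 i (0 - w)) := by
    refine hg1.mono ?_
    intro w hw
    rw [XS, mem_ImI] at hw
    norm_num at hw
    rcases hw with h | h | h | h
    · right; right; left; linarith
    · right; right; right; linarith
    · right; left; linarith
    · left; linarith
  obtain ⟨p2, q2, hp2, hq2, e2⟩ := splitA hd (by norm_num) (by norm_num) (by positivity) nI hg1'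
  -- `g2`
  have hq2r := (hq2.refl (-100)).mono (Ω' := Im I (-50) (AS 112 66 1)) (by
    intro w hw
    show -100 - w ∈ Im I (-50) (BS 112 66 1)
    rw [AS, mem_ImI] at hw
    rw [BS, mem_ImI]
    rw [sub_re, sub_im]
    norm_num at hw ⊢
    rcases hw with h | h | h | h
    · right; left; linarith
    · left; linarith
    · right; right; right; linarith
    · right; right; left; linarith)
  have hg2 : Fam d (Im I (-50) (AS 112 66 1)) (576000 * α)
      (fun i w => p2 i w - q2 i (-100 - w)) := by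
    refine ((fadd hp2 hq2r).congr' (fun i w => by ring)).le hd ?_
    linarith
  -- residues
  have r1 : ∀ i, HasRes (fun w => w + (p1 i w - q1 i (0 - w))) 0 := fun i =>
    lr_fold (hp1.ni (G.oA 1) ((G.co 1).mono fun w hw => G.XA 1 hw) i)
      (hq1.ni (G.oB 1) ((G.co 1).mono fun w hw => G.XB 1 hw) i)
      ((G.co 1).mono fun w hw => e1 i w hw) (hres i) 0
  have r2 : ∀ i, HasRes (fun w => w + (p2 i w - q2 i (-100 - w))) 0 := fun i =>
    lr_fold (hp2.ni (Im_open (G2.oA 1) _ _)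
        (Im_co ((G2.co 1).mono fun w hw => G2.XA 1 hw) I_ne_zero) i)
      (hq2.ni (Im_open (G2.oB 1) _ _)
        (Im_co ((G2.co 1).mono fun w hw => G2.XB 1 hw) I_ne_zero) i)
      ((Im_co (G2.co 1) I_ne_zero).mono fun w hw => e2 i w hw) (r1 i) (-100)
  -- centred at `b3`
  have hgb : Fam d {w | 92 < ‖w‖} (576000 * α)
      (fun i w => p2 i (w + b3) - q2 i (-100 - (w + b3))) := by
    refine ((hg2.shift (-b3)).mono ?_).congr' (fun i w => by rw [sub_neg_eq_add])
    intro w hw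
    have hw' : 92 < ‖w‖ := hw
    show w - -b3 ∈ Im I (-50) (AS 112 66 1)
    rw [AS, mem_ImI, sub_neg_eq_add, add_re, add_im, b3_re, b3_im]
    by_contra hcon
    norm_num at hcon
    obtain ⟨g1, g2, g3, g4⟩ := hcon
    have h5 : ‖w‖ ^ 2 ≤ 92 ^ 2 := by
      rw [← normSq_eq_norm_sq, normSq_apply]
      nlinarith
    nlinarith
  have rb : ∀ i, HasRes (fun w => w + (p2 i (w + b3) - q2 i (-100 - (w + b3)))) 0 := by
    intro i
    refine ((r2 i).shift (-b3)).congr (Eventually.of_forall fun w => ?_)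
    simp only [sub_neg_eq_add]
    ring
  obtain ⟨c1, c2, c3, k1, k2, k3, k4⟩ := hC ι d hd (576000 * α) (by positivity) _ hgb rb
  refine ⟨p1, q1, p2, q2, fun i w => c1 i (w - b3), fun i w => c2 i (w - b3),
    fun i w => c3 i (w - b3), hp1.le hd (by nlinarith), hq1.le hd (by nlinarith),
    hp2.le hd (by nlinarith), hq2.le hd (by nlinarith), ?_, ?_, ?_, e1, e2, ?_⟩
  · refine ((k1.shift b3).mono ?_).le hd (by nlinarith)
    intro w hw
    have hw' : 2 < ‖w - s1‖ := hw
    show 2 < ‖w - b3 - t1‖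
    have : w - b3 - t1 = w - s1 := by unfold b3 t1 s1; ring
    rwa [this]
  · refine ((k2.shift b3).mono ?_).le hd (by nlinarith)
    intro w hw
    have hw' : 2 < ‖w - s2‖ := hw
    show 2 < ‖w - b3 - t2‖
    have : w - b3 - t2 = w - s2 := by unfold b3 t2 s2; ring
    rwa [this]
  · refine ((k3.shift b3).mono ?_).le hd (by nlinarith)
    intro w hw
    have hw' : 2 < ‖w - s3‖ := hw
    show 2 < ‖w - b3 - t3‖
    have : w - b3 - t3 = w - s3 := by unfold b3 t3 s3; ring
    rwa [this]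
  · refine ((k4.shift b3).le hd (by linarith)).congr' (fun i w => ?_)
    have g1 : w - b3 + b3 = w := by ring
    have g2 : w - b3 + 100 = w + 100 - b3 := by ring
    have g3 : 100 * I - (w - b3) = -100 - w - b3 := by unfold b3; ring
    have g4 : -50 + 50 * I - (w - b3) = D3 - w - b3 := by unfold b3 D3; ring
    simp only [Rel, g1, g2, g3, g4]

end Pool.Agent.Y263.IV
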