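import Pool.Agent.Y263.IV.Nop

/-!
# The fixed point: a small perturbation of a reflection is a product of five involutions
-/

set_option autoImplicit false

namespace Pool.Agent.Y263.IV

open Pool.Agent.Results.MP_40a019_an.BoundedWidth
open Complex Set Filter Topology Metric Bornology

theorem main_small : ∃ ε : ℝ, 0 < ε ∧ ∀ f : ℂ → ℂ, DifferentiableOn ℂ f {w | 84 < ‖w‖} →
    (∀ w : ℂ, 84 < ‖w‖ → ‖f w‖ ≤ ε) → Tendsto f (cobounded ℂ) (𝓝 0) →
    HasRes (fun w => w + f w) 0 →
    IP 5 (fun w => (bb - w) + f (bb - w)) := by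
  set α : ℝ := 1 / (1000000000 * CC ^ 4) with hαdef
  have hCC : CC = 40000000000 := by unfold CC; norm_num
  have hα : 0 < α := by rw [hαdef, hCC]; norm_num
  have hα1 : α ≤ 1 := by rw [hαdef, hCC]; norm_num
  refine ⟨α / 8, by positivity, ?_⟩
  intro f hfd hfb hflim hfres
  -- the index set
  let Adm : (ℂ → ℂ) → Prop := fun n => DifferentiableOn ℂ n {w | 84 < ‖w‖} ∧
    (∀ w : ℂ, 84 < ‖w‖ → ‖n w‖ ≤ α / 8) ∧ Tendsto n (cobounded ℂ) (𝓝 0) ∧
    HasRes (fun w => w + n w) 0
  let S : Type := {n : ℂ → ℂ // Adm n}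
  let O : Type := {w : ℂ // 84 < ‖w‖}
  have : Nonempty O := ⟨⟨(85 : ℂ), by norm_num⟩⟩
  let D : S → S → ℝ := fun n m => ⨆ w : O, ‖n.1 w.1 - m.1 w.1‖
  have hbdd : ∀ n m : S, BddAbove (range fun w : O => ‖n.1 w.1 - m.1 w.1‖) := by
    intro n m
    refine ⟨α / 4, ?_⟩
    rintro _ ⟨w, rfl⟩
    have h1 := n.2.2.1 w.1 w.2
    have h2 := m.2.2.1 w.1 w.2
    simp only
    calc ‖n.1 w.1 - m.1 w.1‖ ≤ ‖n.1 w.1‖ + ‖m.1 w.1‖ := norm_sub_le _ _
      _ ≤ α / 4 := by linarith
  have hDle : ∀ n m : S, ∀ w : ℂ, 84 < ‖w‖ → ‖n.1 w - m.1 w‖ ≤ D n m := fun n m w hw =>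
    le_ciSup (hbdd n m) (⟨w, hw⟩ : O)
  have hDub : ∀ n m : S, ∀ B : ℝ, (∀ w : ℂ, 84 < ‖w‖ → ‖n.1 w - m.1 w‖ ≤ B) → D n m ≤ B :=
    fun n m B hB => ciSup_le fun w => hB w.1 w.2
  have hD0 : ∀ n m : S, 0 ≤ D n m := fun n m =>
    (norm_nonneg _).trans (hDle n m (85 : ℂ) (by norm_num))
  let d : S → S → ℝ := fun n m => 2 / α * D n m
  have hd : ∀ n m, 0 ≤ d n m := fun n m => mul_nonneg (by positivity) (hD0 n m)
  -- families
  have hn : Fam d {w | 84 < ‖w‖} (α / 2) (fun (n : S) w => n.1 w) := by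
    refine ⟨fun n => n.2.1, fun n w hw => (n.2.2.1 w hw).trans (by linarith), fun n m w hw => ?_,
      fun n => n.2.2.2.1⟩
    have h1 : α / 2 * d n m = D n m := by
      simp only [d]; field_simp
    rw [h1]
    exact hDle n m w hw
  have hf : Fam d {w | 84 < ‖w‖} (α / 8) (fun (_ : S) w => f w) := by
    refine ⟨fun n => hfd, fun n w hw => hfb w hw, fun n m w hw => ?_, fun n => hflim⟩
    rw [sub_self, norm_zero]
    exact mul_nonneg (by positivity) (hd n m)
  have s86 : Sh (2 * 1) {w : ℂ | 86 < ‖w‖} {w : ℂ | 84 < ‖w‖} := by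
    have := out_sh 84 2
    norm_num at this ⊢
    exact this
  have hn86 : Fam d {w | 86 < ‖w‖} (α / 2) (fun (n : S) w => - n.1 (0 - w)) :=
    (hn.refl 0).mono (fun w hw => by
      have hw' : (86 : ℝ) < ‖w‖ := hw
      show (84 : ℝ) < ‖0 - w‖
      rw [zero_sub, norm_neg]
      linarith)
  have hcomp := hf.comp hn86 hd (out_open 84) (δ := 1) one_pos (by linarith) (by positivity)
    (by positivity) s86
  have hX : XS 100 100 0 ⊆ {w : ℂ | 86 < ‖w‖} := by
    rintro w (h | h | h | h)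
    · show (86 : ℝ) < ‖w‖
      have := abs_re_le_norm w
      have h1 := neg_le_abs w.re
      linarith
    · show (86 : ℝ) < ‖w‖
      have := abs_re_le_norm w
      have h1 := le_abs_self w.re
      linarith
    · show (86 : ℝ) < ‖w‖
      have := abs_im_le_norm w
      have h1 := neg_le_abs w.im
      linarith
    · show (86 : ℝ) < ‖w‖
      have := abs_im_le_norm w
      have h1 := le_abs_self w.im
      linarith
  have he : Fam d (XS 100 100 0) α (fun (n : S) w => - n.1 (0 - w) + f (w + - n.1 (0 - w))) := by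
    refine (hcomp.mono hX).le hd ?_
    rw [div_one]
    nlinarith
  have nf : NI (fun w => w + f w) := hf.ni (out_open 84) (out_co 84) ⟨fun _ => 0,
    differentiableOn_const _, fun w _ => by simp; positivity, tendsto_const_nhds,
      hasRes_zero⟩
  have nn : ∀ n : S, NI (fun w => w + n.1 w) := fun n => hn.ni (out_open 84) (out_co 84) n
  have hrefl : ∀ n : S, (fun w => 0 - ((0 - w) + n.1 (0 - w))) = fun w => w + - n.1 (0 - w) := by
    intro n
    funext w
    ring
  have hcompeq : ∀ n : S, (fun w => w + (- n.1 (0 - w) + f (w + - n.1 (0 - w))))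
      = (fun w => w + f w) ∘ (fun w => w + - n.1 (0 - w)) := by
    intro n
    funext w
    simp only [Function.comp]
    ring
  have hres : ∀ n : S, HasRes (fun w => w + (- n.1 (0 - w) + f (w + - n.1 (0 - w)))) 0 := by
    intro n
    rw [hcompeq n]
    have h1 : HasRes (fun w => w + - n.1 (0 - w)) 0 := by
      have := n.2.2.2.2.refl 0
      rwa [hrefl n] at this
    have h2 : NI (fun w => w + - n.1 (0 - w)) := by
      have := (nn n).refl 0
      rwa [hrefl n] at this
    have := hfres.comp h1 h2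
    rwa [add_zero] at this
  obtain ⟨N, hN, hNX⟩ := nop hd hα.le le_rfl he hres
  -- the self map
  let Φ : S → S := fun n => ⟨N n, hN.diff n, fun w hw => hN.bd n w hw, hN.lim n, (hNX n).2⟩
  have hΦ : ∀ n m : S, D (Φ n) (Φ m) ≤ 1 / 4 * D n m := by
    intro n m
    apply hDub
    intro w hw
    have h1 := hN.lip n m w hw
    have h2 : α / 8 * d n m = 1 / 4 * D n m := by simp only [d]; field_simp; ring
    rw [h2] at h1
    exact h1
  let z0 : S := ⟨fun _ => 0, differentiableOn_const _, fun w _ => by simp; positivity,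
    tendsto_const_nhds, hasRes_zero⟩
  let p : ℕ → S := fun k => Φ^[k] z0
  have hp1 : ∀ k, p (k + 1) = Φ (p k) := fun k => Function.iterate_succ_apply' Φ k z0
  have hpD : ∀ k, D (p (k + 1)) (p k) ≤ α / 4 * (1 / 4) ^ k := by
    intro k
    induction k with
    | zero =>
      apply hDub
      intro w hw
      have h1 := (p 1).2.2.1 w hw
      have h2 := (p 0).2.2.1 w hw
      calc ‖(p (0 + 1)).1 w - (p 0).1 w‖ ≤ ‖(p 1).1 w‖ + ‖(p 0).1 w‖ := norm_sub_le _ _
        _ ≤ α / 4 * (1 / 4) ^ 0 := by rw [pow_zero]; linarith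
    | succ k ih =>
      rw [hp1 (k + 1)]
      conv_lhs => rw [show p (k + 1) = Φ (p k) from hp1 k]
      have h1 := hΦ (Φ (p k)) (p k)
      rw [← hp1 k] at h1 ⊢
      calc D (Φ (p (k + 1))) (p (k + 1)) = D (Φ (p (k + 1))) (Φ (p k)) := by rw [← hp1 k]
        _ ≤ 1 / 4 * D (p (k + 1)) (p k) := hΦ _ _
        _ ≤ 1 / 4 * (α / 4 * (1 / 4) ^ k) := by gcongr
        _ = α / 4 * (1 / 4) ^ (k + 1) := by rw [pow_succ]; ring
  obtain ⟨q, hqd, hqb, hqt⟩ := limit_seq (out_open 84) (C := α / 2) (p := fun k => (p k).1)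
    (fun k => (p k).2.1) (by
      intro k w hw
      refine (hDle _ _ w hw).trans ((hpD k).trans ?_)
      have h1 : α / 2 / 2 / 2 ^ k = α / 4 * (1 / 2) ^ k := by
        rw [one_div, inv_pow]; ring
      rw [h1]
      gcongr
      norm_num)
  have hgeo : Tendsto (fun k : ℕ => α / 2 / 2 ^ k) atTop (𝓝 0) := by
    have : Tendsto (fun n : ℕ => α / 2 * (1 / 2) ^ n) atTop (𝓝 (α / 2 * 0)) :=
      (tendsto_pow_atTop_nhds_zero_of_lt_one (by norm_num) (by norm_num)).const_mul _
    rw [mul_zero] at this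
    refine this.congr (fun n => ?_)
    rw [one_div, inv_pow]; rfl
  have hqlim : Tendsto q (cobounded ℂ) (𝓝 0) := by
    rw [Metric.tendsto_nhds]
    intro ε hε
    obtain ⟨k, hk⟩ := (hgeo.eventually_lt_const (half_pos hε)).exists
    have h4 := (Metric.tendsto_nhds.1 ((p k).2.2.2.1)) (ε / 2) (half_pos hε)
    filter_upwards [h4, out_co 84] with w hw1 hw2
    have h5 := hqb k w hw2
    rw [dist_zero_right] at hw1 ⊢
    calc ‖q w‖ = ‖(p k).1 w - ((p k).1 w - q w)‖ := by ring_nf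
      _ ≤ ‖(p k).1 w‖ + ‖(p k).1 w - q w‖ := norm_sub_le _ _
      _ < ε := by linarith
  have hqbd : ∀ w : ℂ, 84 < ‖w‖ → ‖q w‖ ≤ α / 8 := by
    intro w hw
    exact le_of_tendsto (hqt w hw).norm (Eventually.of_forall fun k => (p k).2.2.1 w hw)
  have nq : NI (fun w => w + q w) := by
    refine ⟨?_, ?_⟩
    · filter_upwards [out_co 84] with w hw
      exact differentiableAt_id.add ((hqd w hw).differentiableAt ((out_open 84).mem_nhds hw))
    · simpa using hqlim
  have hqres : HasRes (fun w => w + q w) 0 := by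
    obtain ⟨l, hl⟩ := nq.res
    have hGq := (G_diff (by norm_num : (0 : ℝ) < 84) hqd hqlim)
    have hdq := hGq.2 l hl
    have hGp := fun k => G_diff (by norm_num : (0 : ℝ) < 84) (p k).2.1 (p k).2.2.2.1
    have hloc : TendstoLocallyUniformlyOn (fun k : ℕ => fun z => if z = 0 then 0 else (p k).1 z⁻¹)
        (fun z => if z = 0 then 0 else q z⁻¹) atTop (ball 0 (1 / 84)) := by
      apply TendstoUniformlyOn.tendstoLocallyUniformlyOn
      rw [Metric.tendstoUniformlyOn_iff]
      intro ε hε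
      filter_upwards [hgeo.eventually_lt_const hε] with k hk z hz
      by_cases hz0 : z = 0
      · simp [hz0, hε]
      · simp only [hz0, if_false]
        rw [mem_ball, dist_zero_right] at hz
        have hbig : (84 : ℝ) < ‖z⁻¹‖ := by
          rw [norm_inv]
          have hp : 0 < ‖z‖ := norm_pos_iff.2 hz0
          rw [lt_inv_comm₀ (by norm_num) hp]
          simpa using hz
        rw [dist_comm, dist_eq_norm]
        exact lt_of_le_of_lt (hqb k _ hbig) hk
    have hder := hloc.deriv (Eventually.of_forall fun k => (hGp k).1) isOpen_ball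
    have h0 : (0 : ℂ) ∈ ball (0 : ℂ) (1 / 84) := mem_ball_self (by norm_num)
    have h1 := hder.tendsto_at h0
    have h2 : ∀ k, (deriv ∘ fun k : ℕ => fun z => if z = 0 then 0 else (p k).1 z⁻¹) k 0 = 0 := by
      intro k
      exact ((hGp k).2 0 (p k).2.2.2.2).deriv
    simp only [h2] at h1
    have h3 := tendsto_nhds_unique h1 tendsto_const_nhds
    rw [hdq.deriv] at h3
    rwa [h3] at hl
  let Q : S := ⟨q, hqd, hqbd, hqlim, hqres⟩
  have hfix : ∀ w : ℂ, 84 < ‖w‖ → N Q w = q w := by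
    intro w hw
    have h1 : Tendsto (fun k => (p (k + 1)).1 w) atTop (𝓝 (q w)) :=
      (hqt w hw).comp (tendsto_add_atTop_nat 1)
    have h2 : Tendsto (fun k => (p (k + 1)).1 w) atTop (𝓝 (N Q w)) := by
      rw [tendsto_iff_norm_sub_tendsto_zero]
      have h3 : ∀ k, ‖(p (k + 1)).1 w - N Q w‖ ≤ α / 2 / 2 ^ k := by
        intro k
        have h4 : ‖(Φ (p k)).1 w - (Φ Q).1 w‖ ≤ D (Φ (p k)) (Φ Q) := hDle _ _ w hw
        have h5 : D (p k) Q ≤ α / 2 / 2 ^ k := hDub _ _ _ (fun w hw => hqb k w hw)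
        have h6 := hΦ (p k) Q
        rw [hp1 k]
        have h7 : 0 ≤ D (p k) Q := hD0 _ _
        calc ‖(Φ (p k)).1 w - N Q w‖ ≤ D (Φ (p k)) (Φ Q) := h4
          _ ≤ 1 / 4 * D (p k) Q := h6
          _ ≤ D (p k) Q := by linarith
          _ ≤ _ := h5
      exact squeeze_zero (fun k => norm_nonneg _) h3 hgeo
    exact tendsto_nhds_unique h2 h1
  obtain ⟨⟨X, hXP, hXe⟩, -⟩ := hNX Q
  have nb := ni_at nq bb
  obtain ⟨L, hL, hbL, hLb⟩ := nb.inv
  refine hXP.congr ?_
  -- `X (L w) = (id + f) (bb - L w)` with `L w = w + q (w - bb)`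
  have hkey : ∀ᶠ w in cobounded ℂ, (bb - (w + q (w - bb))) + f (bb - (w + q (w - bb)))
      = X (w + q (w - bb)) := by
    have t1 : Tendsto (fun w : ℂ => w - bb) (cobounded ℂ) (cobounded ℂ) := by
      have := (good_trans (-bb)).tendsto
      simpa [sub_eq_add_neg] using this
    filter_upwards [hXe, t1.eventually (out_co 84)] with w h2 h3
    simp only [Function.comp] at h2 h3 ⊢
    rw [hfix _ h3] at h2
    rw [← h2]
    have h5 : (0 : ℂ) - (bb - w) = w - bb := by ring
    rw [h5]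
    have h6 : bb - w + - q (w - bb) = bb - (w + q (w - bb)) := by ring
    have h7 : Q.1 = q := rfl
    rw [h7, ← add_assoc, h6]
  filter_upwards [hL.good.tendsto.eventually hkey, hbL] with w h1 h2
  simp only [Function.comp, id] at h1 h2 ⊢
  rw [h2] at h1
  exact h1.symm

end Pool.Agent.Y263.IV
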