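import Pool.Agent.Y263.IV.Red

/-!
# The operator of the fixed point argument
-/

set_option autoImplicit false

namespace Pool.Agent.Y263.IV

open Pool.Agent.Results.MP_40a019_an.BoundedWidth
open Complex Set Filter Topology Metric Bornology

/-- the length of the small translation -/
noncomputable def aa : ℂ := ((1 / (16 * CC) : ℝ) : ℂ)

/-- the reflection is `w ↦ bb - w` -/
noncomputable def bb : ℂ := cc - aa

theorem ni_at {n : ℂ → ℂ} (h : NI (fun w => w + n w)) (v : ℂ) : NI (fun w => w + n (w - v)) :=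
  (h.conj_trans v).congr (Eventually.of_forall fun w => by simp only; ring)

theorem nop {ι : Type} {d : ι → ι → ℝ} {α : ℝ} {e : ι → ℂ → ℂ} (hd : ∀ i j, 0 ≤ d i j)
    (hα0 : 0 ≤ α) (hα : α ≤ 1 / (1000000000 * CC ^ 4)) (he : Fam d (XS 100 100 0) α e)
    (hres : ∀ i, HasRes (fun w => w + e i w) 0) :
    ∃ n : ι → ℂ → ℂ, Fam d {w | 84 < ‖w‖} (α / 8) n ∧
      ∀ i, (∃ Y, IP 5 Y ∧ (fun w => (bb - w) + e i (bb - w)) =ᶠ[cobounded ℂ]
          Y ∘ (fun w => w + n i (w - bb))) ∧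
        HasRes (fun w => w + n i w) 0 := by
  have hC : CC = 40000000000 := by unfold CC; norm_num
  obtain ⟨e2, he2, h2⟩ := fold2 hd hα0
    (hα.trans (by rw [hC]; norm_num)) he
  have he2' : Fam d {w | 79 < ‖w‖} (CC * α) e2 := he2
  have hα' : α * (1000000000 * CC ^ 4) ≤ 1 := by
    rwa [le_div_iff₀ (by rw [hC]; norm_num)] at hα
  have ha : (0 : ℝ) < 1 / (16 * CC) := by rw [hC]; norm_num
  obtain ⟨n, hn, h3⟩ := comm_step hd (a := 1 / (16 * CC)) ha (by rw [hC]; norm_num)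
    (by rw [hC]; positivity) (by rw [hC] at hα' ⊢; norm_num at hα' ⊢; linarith) he2'
    (fun i => (h2 i).2 (hres i))
  refine ⟨n, hn.le hd ?_, ?_⟩
  · have e1 : 1 / (16 * CC) * (CC * α) = α / 16 := by rw [hC]; ring
    have e2 : 128000 * (CC * α) ^ 2 / (1 / (16 * CC)) ^ 2 = 32768000 * CC ^ 4 * α * α := by
      rw [hC]; ring
    rw [e1, e2]
    have e3 : 32768000 * CC ^ 4 * α ≤ 1 / 16 := by
      have : 0 ≤ CC ^ 4 * α := by rw [hC]; positivity
      nlinarith
    nlinarith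
  · intro i
    obtain ⟨⟨X, hX, hXe⟩, -⟩ := h2 i
    obtain ⟨⟨Y, hY, hYe⟩, hr⟩ := h3 i
    refine ⟨?_, hr⟩
    have nn : NI (fun w => w + n i w) := hn.ni (out_open 84) (out_co 84) i
    have nb := ni_at nn bb
    obtain ⟨K, hK, hbK, hKb⟩ := nb.inv
    set κ : ℂ := bb - aa - 100 with hκ
    have hX' : IP 2 (fun w => (1 : ℂ) * Y ((1 : ℂ)⁻¹ * (w - cc)) + cc) := IP.aff hY one_ne_zero cc
    have hinv := invo_of_ni nb hK hbK hKb κ
    refine ⟨(X ∘ (fun w => (1 : ℂ) * Y ((1 : ℂ)⁻¹ * (w - cc)) + cc)) ∘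
      (fun w => (fun w => w + n i (w - bb)) (κ - K w)), (hX.comp hX').comp (ip_one hinv), ?_⟩
    have t1 : Tendsto (fun w : ℂ => κ + aa - w) (cobounded ℂ) (cobounded ℂ) := tendsto_refl _
    have t2 : Tendsto (fun w : ℂ => κ + aa - cc - w) (cobounded ℂ) (cobounded ℂ) := tendsto_refl _
    filter_upwards [t1.eventually hXe, t2.eventually hYe, hKb] with w g1 g2 g3
    simp only [Function.comp, id] at g1 g2 g3 ⊢
    have a1 : κ + aa - w + 100 = bb - w := by rw [hκ]; ring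
    rw [a1] at g1
    rw [g1, g3]
    congr 1
    have a2 : κ + aa - w - cc = κ + aa - cc - w := by ring
    have a3 : κ - w - bb = κ + aa - cc - w := by rw [show bb = cc - aa from rfl]; ring
    rw [a2, a3, inv_one, one_mul, one_mul]
    have a4 : κ - w + n i (κ + aa - cc - w) - cc
        = κ + aa - cc - w + n i (κ + aa - cc - w) - ((1 / (16 * CC) : ℝ) : ℂ) := by
      rw [show aa = ((1 / (16 * CC) : ℝ) : ℂ) from rfl]; ring
    rw [a4, ← g2]
    ring

end Pool.Agent.Y263.IV
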