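import Pool.Agent.Y263.IV.Fold

/-!
# Two folds, a commutator and a free reflection
-/

set_option autoImplicit false

namespace Pool.Agent.Y263.IV

open Pool.Agent.Results.MP_40a019_an.BoundedWidth
open Complex Set Filter Topology Metric Bornology

theorem ip_one {σ : ℂ → ℂ} (h : IsInvo σ) : IP 1 σ := ⟨σ, id, h, EventuallyEq.rfl, EventuallyEq.rfl⟩

theorem good_aff {c : ℂ} (hc : c ≠ 0) (b : ℂ) : Good (fun w => c * w + b) :=
  (good_trans b).comp (good_mul hc)

/-- conjugation of a product of involutions by an affine map -/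
theorem IP.aff {n : ℕ} {X : ℂ → ℂ} (hX : IP n X) {c : ℂ} (hc : c ≠ 0) (b : ℂ) :
    IP n (fun w => c * X (c⁻¹ * (w - b)) + b) := by
  have h1 := hX.conj (H := fun w => c * w + b) (K := fun w => c⁻¹ * w + (-(c⁻¹ * b)))
    (good_aff hc b) (good_aff (inv_ne_zero hc) _)
    (Eventually.of_forall fun w => by
      simp only [Function.comp, id]
      field_simp
      ring)
    (Eventually.of_forall fun w => by
      simp only [Function.comp, id]
      field_simp
      ring)
  refine h1.congr (Eventually.of_forall fun w => ?_)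
  simp only [Function.comp]
  have : c⁻¹ * w + -(c⁻¹ * b) = c⁻¹ * (w - b) := by ring
  rw [this]

theorem tendsto_aff {c : ℂ} (hc : c ≠ 0) (b : ℂ) :
    Tendsto (fun w : ℂ => c * w + b) (cobounded ℂ) (cobounded ℂ) := (good_aff hc b).tendsto

section
variable {ι : Type} {d : ι → ι → ℝ} {x y α : ℝ} {e : ι → ℂ → ℂ}

/-- conjugation of a family by `w ↦ c * w + b`, `|c| = 1` -/
theorem Fam.aff {Ω : Set ℂ} (h : Fam d Ω α e) {c c' : ℂ} (hc : ‖c‖ = 1) (hc' : ‖c'‖ = 1) (b : ℂ) :
    Fam d {w | c * w + b ∈ Ω} α (fun i w => c' * e i (c * w + b)) := by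
  refine ⟨fun i => ?_, fun i w hw => ?_, fun i j w hw => ?_, fun i => ?_⟩
  · have h1 : DifferentiableOn ℂ (fun w : ℂ => c * w + b) {w | c * w + b ∈ Ω} := by fun_prop
    exact ((h.diff i).comp h1 (fun w hw => hw)).const_mul c'
  · rw [norm_mul, hc', one_mul]; exact h.bd i _ hw
  · rw [← mul_sub, norm_mul, hc', one_mul]; exact h.lip i j _ hw
  · have h1 := ((h.lim i).comp (tendsto_aff (c := c)
      (by rintro rfl; simp at hc) b)).const_mul c'
    rw [mul_zero] at h1
    exact h1

theorem HasRes.aff {F : ℂ → ℂ} (h : HasRes F 0) {c : ℂ} (hc : c ≠ 0) (b : ℂ) :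
    HasRes (fun w => c⁻¹ * (F (c * w + b) - b)) 0 := by
  have h1 := (h.shift (-b)).rot hc
  refine h1.congr (Eventually.of_forall fun w => ?_)
  simp only [sub_neg_eq_add]
  ring_nf

/-- the centre of the folded square -/
noncomputable def cc : ℂ := -50 - (103 / 2 : ℝ) * I

/-- two folds -/
theorem fold2 (hd : ∀ i j, 0 ≤ d i j) (hα0 : 0 ≤ α)
    (hα : α ≤ 1 / (8192 * 1000 * 200 * 1000)) (he : Fam d (XS 100 100 0) α e) :
    ∃ e2 : ι → ℂ → ℂ, Fam d {w | 79 < ‖w‖} (200 * 1000 * (200 * 1000) * α) e2 ∧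
      ∀ i, (∃ X, IP 2 X ∧ (fun w => (w + 100) + e i (w + 100)) =ᶠ[cobounded ℂ]
          X ∘ (fun w => w + e2 i (w - cc))) ∧
        (HasRes (fun w => w + e i w) 0 → HasRes (fun w => w + e2 i w) 0) := by
  obtain ⟨e1, he1, h1⟩ := fold hd (by norm_num) (by norm_num) hα0 (by nlinarith) he
  have hr := Fam.aff he1 (c := I) (c' := -I) (by simp) (by simp) (-50)
  have hr' : Fam d (XS 103 53 0) (200 * (2 * 100 + 2 * 100 + 4) * α)
      (fun i w => -I * e1 i (I * w + -50)) := by
    apply hr.mono
    rintro w (h | h | h | h)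
    · right; right; left
      simp only [add_im, neg_im, mul_im, I_re, I_im, zero_mul, one_mul, zero_add]
      norm_num; linarith
    · right; right; right
      simp only [add_im, neg_im, mul_im, I_re, I_im, zero_mul, one_mul, zero_add]
      norm_num; linarith
    · right; left
      simp only [add_re, neg_re, mul_re, I_re, I_im, zero_mul, one_mul, zero_sub]
      norm_num; linarith
    · left
      simp only [add_re, neg_re, mul_re, I_re, I_im, zero_mul, one_mul, zero_sub]
      norm_num; linarith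
  obtain ⟨f, hf, h2⟩ := fold hd (by norm_num) (by norm_num) (by positivity)
    (by nlinarith) hr'
  -- back to the original coordinate, centred at `cc`
  have hf2 := Fam.aff hf (c := -I) (c' := I) (by simp) (by simp) (-I * (50 + cc))
  refine ⟨_, (hf2.mono ?_).le hd (by nlinarith), ?_⟩
  · intro w hw
    have hw' : 79 < ‖w‖ := hw
    by_contra hcon
    simp only [AS, Pool.Agent.Results.MP_40a019_an.BoundedWidth.Ext, mem_ofPred_eq, not_or, not_lt, cc, mul_re, mul_im, neg_re, neg_im, I_re,
      I_im, add_re, add_im, sub_re, sub_im, ofReal_re, ofReal_im] at hcon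
    norm_num at hcon
    obtain ⟨g1, g2, g3, g4⟩ := hcon
    have h5 : ‖w‖ ^ 2 ≤ 79 ^ 2 := by
      rw [← normSq_eq_norm_sq, normSq_apply]
      nlinarith
    nlinarith
  · intro i
    obtain ⟨⟨τ1, hτ1, hτ1e⟩, hres1⟩ := h1 i
    obtain ⟨⟨τ2, hτ2, hτ2e⟩, hres2⟩ := h2 i
    have hI : (I : ℂ)⁻¹ = -I := Complex.inv_I
    refine ⟨⟨τ1 ∘ (fun w => I * τ2 (I⁻¹ * (w - (-50))) + (-50)),
      (ip_one hτ1).comp (IP.aff (ip_one hτ2) I_ne_zero (-50)), ?_⟩, ?_⟩
    · -- `(id + e)(w + 100) = τ₁ (id + e₁)(-100 - w)`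
      have t1 : Tendsto (fun w : ℂ => -100 - w) (cobounded ℂ) (cobounded ℂ) := tendsto_refl _
      have t2 : Tendsto (fun w : ℂ => -I * w + (-I * 50)) (cobounded ℂ) (cobounded ℂ) :=
        tendsto_aff (by simp) _
      filter_upwards [t1.eventually hτ1e, t2.eventually hτ2e] with w g1 g2
      simp only [Function.comp] at g1 g2 ⊢
      have a1 : (0 : ℂ) - (-100 - w) = w + 100 := by ring
      rw [a1] at g1
      rw [g1]
      congr 1
      have a2 : I * (0 - (-I * w + -I * 50)) + -50 = -100 - w := by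
        linear_combination (w + 50) * I_mul_I
      rw [a2] at g2
      have a3 : I⁻¹ * (w + I * f i (-I * (w - cc) + -I * (50 + cc)) - -50)
          = -I * w + -I * 50 + f i (-I * w + -I * 50) := by
        rw [hI]
        have a4 : -I * (w - cc) + -I * (50 + cc) = -I * w + -I * 50 := by ring
        rw [a4]
        linear_combination (-f i (-I * w + -I * 50)) * I_mul_I
      rw [a3, ← g2]
      linear_combination (-(w + 50 - e1 i (-100 - w))) * I_mul_I
    · intro h0
      have h3 := HasRes.aff (hres1 h0) I_ne_zero (-50)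
      have h4 : HasRes (fun w => w + -I * e1 i (I * w + -50)) 0 := by
        refine h3.congr (Eventually.of_forall fun w => ?_)
        simp only [hI]
        linear_combination (-w) * I_mul_I
      have h5 := HasRes.aff (hres2 h4) (c := -I) (by simp) (-I * (50 + cc))
      refine h5.congr (Eventually.of_forall fun w => ?_)
      have hI2 : (-I : ℂ)⁻¹ = I := by rw [inv_neg, hI, neg_neg]
      simp only [hI2]
      linear_combination (-w) * I_mul_I

end

end Pool.Agent.Y263.IV
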