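import Pool.Agent.Y263.IV.Main

/-!
# Five involutions for the multiplier `-1`, six in general
-/

set_option autoImplicit false

namespace Pool.Agent.Y263.IV

open Pool.Agent.Results.MP_40a019_an.BoundedWidth
open Complex Set Filter Topology Metric Bornology Asymptotics

theorem norm_bb : ‖bb‖ ≤ 103 := by
  have hC : CC = 40000000000 := by unfold CC; norm_num
  have h1 : ‖aa‖ ≤ 1 := by
    rw [show aa = ((1 / (16 * CC) : ℝ) : ℂ) from rfl, norm_real, hC]
    norm_num
  have h2 : ‖cc‖ ≤ 50 + 103 / 2 := by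
    rw [show cc = -50 - (103 / 2 : ℝ) * I from rfl]
    refine (norm_sub_le _ _).trans ?_
    rw [norm_mul, norm_I, norm_real]
    norm_num
  have h3 : ‖bb‖ ≤ ‖cc‖ + ‖aa‖ := norm_sub_le _ _
  linarith

theorem refl_IP {H : ℂ → ℂ} (hH : NI H) (hres : HasRes H 0) (v : ℂ) :
    IP 5 (fun w => H (v - w)) := by
  obtain ⟨ε, hε, hmain⟩ := main_small
  have hsmall : ∀ᶠ w in cobounded ℂ, ‖H w - w‖ ≤ 1 := by
    have := Metric.tendsto_nhds.1 hH.2 1 one_pos
    filter_upwards [this] with w hw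
    rw [dist_zero_right] at hw
    exact hw.le
  obtain ⟨R, hR⟩ := ev_iff.1 (hH.1.and hsmall)
  set c : ℝ := max (|R| + ‖v‖ + 1) (1 / ε) with hc
  have hcR : |R| + ‖v‖ + 1 ≤ c := le_max_left _ _
  have hc1 : 1 ≤ c := by linarith [abs_nonneg R, norm_nonneg v]
  have hc0 : 0 < c := by linarith
  have hcε : 1 / c ≤ ε := by
    rw [div_le_iff₀ hc0]
    have h1 : 1 / ε ≤ c := le_max_right _ _
    rw [div_le_iff₀ hε] at h1
    linarith
  have hcc : (c : ℂ) ≠ 0 := by exact_mod_cast hc0.ne'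
  have hnc : ‖(c : ℂ)‖ = c := by rw [norm_real, Real.norm_of_nonneg hc0.le]
  set u : ℂ := (v - c * bb) / 2 with hu
  have hnu : ‖u‖ ≤ ‖v‖ / 2 + c * (103 / 2) := by
    rw [hu, norm_div]
    have h1 : ‖v - c * bb‖ ≤ ‖v‖ + ‖(c : ℂ) * bb‖ := norm_sub_le _ _
    rw [norm_mul, hnc] at h1
    have h2 := norm_bb
    have h3 : ‖(2 : ℂ)‖ = 2 := by norm_num
    rw [h3, div_le_iff₀ (by norm_num)]
    nlinarith
  set f : ℂ → ℂ := fun w => (c : ℂ)⁻¹ * (H (c * w + u) - (c * w + u)) with hf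
  have hbig : ∀ w : ℂ, 84 < ‖w‖ → R < ‖(c : ℂ) * w + u‖ := by
    intro w hw
    have h1 : ‖(c : ℂ) * w‖ ≤ ‖(c : ℂ) * w + u‖ + ‖u‖ := by
      calc ‖(c : ℂ) * w‖ = ‖((c : ℂ) * w + u) - u‖ := by ring_nf
        _ ≤ _ := norm_sub_le _ _
    rw [norm_mul, hnc] at h1
    have h2 := le_abs_self R
    have h3 := norm_nonneg v
    have h4 := abs_nonneg R
    nlinarith
  have hfw : ∀ w, w + f w = (c : ℂ)⁻¹ * (H (c * w + u) - u) := by
    intro w
    simp only [hf]
    field_simp
    ring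
  have h1 := hmain f (by
      intro w hw
      have h2 := (hR _ (hbig w hw)).1
      have h3 : DifferentiableAt ℂ (fun w : ℂ => (c : ℂ) * w + u) w := by fun_prop
      have h4 : DifferentiableAt ℂ (fun w => H (c * w + u)) w := DifferentiableAt.comp w h2 h3
      exact ((h4.sub h3).const_mul _).differentiableWithinAt)
    (by
      intro w hw
      have h2 := (hR _ (hbig w hw)).2
      rw [hf]
      simp only
      rw [norm_mul, norm_inv, hnc]
      calc c⁻¹ * ‖H (c * w + u) - (c * w + u)‖ ≤ c⁻¹ * 1 := by gcongr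
        _ = 1 / c := by ring
        _ ≤ ε := hcε)
    (by
      have h2 := (hH.2.comp (tendsto_aff hcc u)).const_mul (c : ℂ)⁻¹
      rw [mul_zero] at h2
      exact h2)
    (by
      have h2 := HasRes.aff hres hcc u
      refine h2.congr (Eventually.of_forall fun w => ?_)
      exact (hfw w).symm)
  have h2 := IP.aff h1 hcc u
  refine h2.congr (Eventually.of_forall fun w => ?_)
  simp only
  rw [hfw]
  have h3 : (c : ℂ) * (bb - (c : ℂ)⁻¹ * (w - u)) + u = v - w := by
    rw [hu]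
    field_simp
    ring
  rw [h3, mul_inv_cancel_left₀ hcc]
  ring

/-- multiplier `-1` -/
theorem five {f : ℂ → ℂ} (hg : IsGerm f) {a : ℂ}
    (h : (fun z => f z - (-z + a * z ^ 2 - a ^ 2 * z ^ 3)) =O[𝓝 0] (fun z => z ^ 4)) :
    InI 5 f := by
  have h' : (fun z => f z - ((-1) * z + a * z ^ 2 + (-a ^ 2) * z ^ 3)) =O[𝓝 0]
      (fun z => z ^ 4) := by
    refine h.congr_left (fun z => ?_)
    ring
  have h1 := chk_exp (by norm_num : (-1 : ℂ) ≠ 0) h'
  have hF := chk_good hg
  have e3 : (a ^ 2 - (-1) * (-a ^ 2)) / (-1 : ℂ) ^ 3 = 0 := by ring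
  rw [e3] at h1
  rw [← hat_chk hg.2.1]
  have e1 : (1 : ℂ) / -1 = -1 := by norm_num
  have e2 : -a / (-1) ^ 2 = -a := by norm_num
  rw [e1, e2] at h1
  have ht : HasExp (fun w : ℂ => -a - w) (-1) (-a) 0 := by
    unfold HasExp
    have : (fun w : ℂ => w * (-a - w - -1 * w - -a)) = fun _ => 0 := by
      funext w; ring
    rw [this]
    exact tendsto_const_nhds
  have h2 := h1.comp ht (invo_refl (-a)).1 (by norm_num)
  have e4 : (-1 : ℂ) * -1 = 1 := by norm_num
  have e5 : (-1 : ℂ) * -a + -a = 0 := by ring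
  have e6 : (-1 : ℂ) * 0 + 0 / -1 = 0 := by norm_num
  rw [e4, e5, e6] at h2
  have h3 : Tendsto (fun w => w * ((chk f ∘ fun w => -a - w) w - w)) (cobounded ℂ) (𝓝 0) := by
    refine Tendsto.congr (fun w => ?_) h2
    ring
  have hNI : NI (chk f ∘ fun w => -a - w) := by
    refine ⟨(hF.comp (invo_refl (-a)).1).1, ?_⟩
    have := h3.mul tinv
    rw [mul_zero] at this
    refine this.congr' ?_
    filter_upwards [ne_zero_ev] with w hw
    field_simp
  have h4 := refl_IP hNI h3 (-a)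
  apply IP_InI
  refine h4.congr (Eventually.of_forall fun w => ?_)
  simp only [Function.comp, sub_sub_cancel]

theorem six {f : ℂ → ℂ} (hg : IsGerm f) {σ a : ℂ} (hσ : σ = 1 ∨ σ = -1)
    (h : (fun z => f z - (σ * z + a * z ^ 2 + σ * a ^ 2 * z ^ 3)) =O[𝓝 0] (fun z => z ^ 4)) :
    InI 6 f := by
  rcases hσ with hσ1 | hσ1
  · rw [hσ1] at h
    have h1 := chk_exp one_ne_zero h
    have hF := chk_good hg
    have e3 : (a ^ 2 - 1 * (1 * a ^ 2)) / (1 : ℂ) ^ 3 = 0 := by ring
    rw [e3] at h1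
    rw [← hat_chk hg.2.1]
    have e1 : (1 : ℂ) / 1 = 1 := by norm_num
    have e2 : -a / 1 ^ 2 = -a := by norm_num
    rw [e1, e2] at h1
    have ht : HasExp (fun w : ℂ => w + a) 1 a 0 := by
      unfold HasExp
      simp
    have h2 := h1.comp ht (good_trans a) one_ne_zero
    have e4 : (1 : ℂ) * 1 = 1 := by norm_num
    have e5 : (1 : ℂ) * a + -a = 0 := by ring
    have e6 : (1 : ℂ) * 0 + 0 / 1 = 0 := by norm_num
    rw [e4, e5, e6] at h2
    have h3 : Tendsto (fun w => w * ((chk f ∘ fun w => w + a) w - w)) (cobounded ℂ) (𝓝 0) := by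
      refine Tendsto.congr (fun w => ?_) h2
      ring
    have hNI : NI (chk f ∘ fun w => w + a) := by
      refine ⟨(hF.comp (good_trans a)).1, ?_⟩
      have := h3.mul tinv
      rw [mul_zero] at this
      refine this.congr' ?_
      filter_upwards [ne_zero_ev] with w hw
      field_simp
    have h4 := (refl_IP hNI h3 0).comp (ip_one (invo_refl a))
    apply IP_InI
    refine h4.congr (Eventually.of_forall fun w => ?_)
    simp only [Function.comp]
    congr 1
    ring
  · rw [hσ1] at h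
    refine (five hg (a := a) ?_).succ
    refine h.congr_left (fun z => ?_)
    ring

end Pool.Agent.Y263.IV
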