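import Pool.Agent.Y263.IV.Trio
import Pool.Agent.Y263.IV.Nop

/-!
# The fixed point: a small perturbation of a reflection is a product of three involutions
-/

set_option autoImplicit false

namespace Pool.Agent.Y263.IV

open Pool.Agent.Results.MP_40a019_an.BoundedWidth
open Complex Set Filter Topology Metric Bornology Asymptotics

theorem xs_norm {r t : ℝ} {w : ℂ} (h : w ∈ XS r r t) : r + t < ‖w‖ := by
  have h1 := abs_re_le_norm w
  have h2 := abs_im_le_norm w
  rcases h with h | h | h | h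
  · linarith [neg_le_abs w.re]
  · linarith [le_abs_self w.re]
  · linarith [neg_le_abs w.im]
  · linarith [le_abs_self w.im]

theorem xs_of_norm {w : ℂ} (h : 138 < ‖w‖) : w ∈ XS 97 97 0 := by
  by_contra hcon
  simp only [XS, Pool.Agent.Results.MP_40a019_an.BoundedWidth.Ext, mem_ofPred_eq, not_or,
    not_lt] at hcon
  norm_num at hcon
  obtain ⟨g1, g2, g3, g4⟩ := hcon
  have h5 : ‖w‖ ^ 2 ≤ 138 ^ 2 := by
    rw [← normSq_eq_norm_sq, normSq_apply]
    nlinarith
  nlinarith

theorem small3 : ∃ ε : ℝ, 0 < ε ∧ ∀ f : ℂ → ℂ, DifferentiableOn ℂ f {w | 84 < ‖w‖} →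
    (∀ w : ℂ, 84 < ‖w‖ → ‖f w‖ ≤ ε) → Tendsto f (cobounded ℂ) (𝓝 0) →
    HasRes (fun w => w + f w) 0 →
    IP 3 (fun w => (b3 - w) + f (b3 - w)) := by
  obtain ⟨α0, hα0, htrio⟩ := trio
  set α : ℝ := min α0 1 with hαdef
  have hα : 0 < α := lt_min hα0 one_pos
  have hα1 : α ≤ 1 := min_le_right _ _
  have hαα : α ≤ α0 := min_le_left _ _
  refine ⟨α / 8, by positivity, ?_⟩
  intro f hfd hfb hflim hfres
  have oT : IsOpen (XS 97 97 0) := Ext_open _ _ _ _
  have cT : ∀ᶠ w in cobounded ℂ, w ∈ XS 97 97 0 := co_ext _ _ _ _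
  have m100 : (100 : ℂ) ∈ XS 97 97 0 := by
    right; left; norm_num
  -- the index set
  let Adm : (ℂ → ℂ) → Prop := fun n => DifferentiableOn ℂ n (XS 97 97 0) ∧
    (∀ w ∈ XS 97 97 0, ‖n w‖ ≤ α / 8) ∧ Tendsto n (cobounded ℂ) (𝓝 0) ∧
    HasRes (fun w => w + n w) 0
  let S : Type := {n : ℂ → ℂ // Adm n}
  let O : Type := {w : ℂ // w ∈ XS 97 97 0}
  have : Nonempty O := ⟨⟨(100 : ℂ), m100⟩⟩
  let D : S → S → ℝ := fun n m => ⨆ w : O, ‖n.1 w.1 - m.1 w.1‖
  have hbdd : ∀ n m : S, BddAbove (range fun w : O => ‖n.1 w.1 - m.1 w.1‖) := by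
    intro n m
    refine ⟨α / 4, ?_⟩
    rintro _ ⟨w, rfl⟩
    have h1 := n.2.2.1 w.1 w.2
    have h2 := m.2.2.1 w.1 w.2
    simp only
    calc ‖n.1 w.1 - m.1 w.1‖ ≤ ‖n.1 w.1‖ + ‖m.1 w.1‖ := norm_sub_le _ _
      _ ≤ α / 4 := by linarith
  have hDle : ∀ n m : S, ∀ w ∈ XS 97 97 0, ‖n.1 w - m.1 w‖ ≤ D n m := fun n m w hw =>
    le_ciSup (hbdd n m) (⟨w, hw⟩ : O)
  have hDub : ∀ n m : S, ∀ B : ℝ, (∀ w ∈ XS 97 97 0, ‖n.1 w - m.1 w‖ ≤ B) → D n m ≤ B :=
    fun n m B hB => ciSup_le fun w => hB w.1 w.2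
  have hD0 : ∀ n m : S, 0 ≤ D n m := fun n m =>
    (norm_nonneg _).trans (hDle n m (100 : ℂ) m100)
  let d : S → S → ℝ := fun n m => 2 / α * D n m
  have hd : ∀ n m, 0 ≤ d n m := fun n m => mul_nonneg (by positivity) (hD0 n m)
  -- families
  have hn : Fam d (XS 97 97 0) (α / 2) (fun (n : S) w => n.1 w) := by
    refine ⟨fun n => n.2.1, fun n w hw => (n.2.2.1 w hw).trans (by linarith), fun n m w hw => ?_,
      fun n => n.2.2.2.1⟩
    have h1 : α / 2 * d n m = D n m := by
      simp only [d]; field_simp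
    rw [h1]
    exact hDle n m w hw
  have hf : Fam d {w | 84 < ‖w‖} (α / 8) (fun (_ : S) w => f w) := by
    refine ⟨fun n => hfd, fun n w hw => hfb w hw, fun n m w hw => ?_, fun n => hflim⟩
    rw [sub_self, norm_zero]
    exact mul_nonneg (by positivity) (hd n m)
  have hnr : Fam d (XS 99 99 0) (α / 2) (fun (n : S) w => - n.1 (0 - w)) :=
    (hn.refl 0).mono (by
      rintro w (h | h | h | h)
      · right; left; rw [sub_re, zero_re]; linarith
      · left; rw [sub_re, zero_re]; linarith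
      · right; right; right; rw [sub_im, zero_im]; linarith
      · right; right; left; rw [sub_im, zero_im]; linarith)
  have s99 : Sh (2 * 1) (XS 99 99 0) {w : ℂ | 84 < ‖w‖} := by
    intro w hw z hz
    have h1 := xs_norm hw
    have h2 : ‖w‖ ≤ ‖z‖ + ‖z - w‖ := by
      calc ‖w‖ = ‖z - (z - w)‖ := by ring_nf
        _ ≤ _ := norm_sub_le _ _
    show (84 : ℝ) < ‖z‖
    linarith
  have hcomp := hf.comp hnr hd (out_open 84) (δ := 1) one_pos (by linarith) (by positivity)
    (by positivity) s99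
  have he : Fam d (XS 99 99 0) α (fun (n : S) w => - n.1 (0 - w) + f (w + - n.1 (0 - w))) := by
    refine hcomp.le hd ?_
    rw [div_one]
    nlinarith
  have nf : NI (fun w => w + f w) := hf.ni (out_open 84) (out_co 84) ⟨fun _ => 0,
    differentiableOn_const _, fun w _ => by simp; positivity, tendsto_const_nhds,
      hasRes_zero⟩
  have nn : ∀ n : S, NI (fun w => w + n.1 w) := fun n => hn.ni oT cT n
  have hrefl : ∀ n : S, (fun w => 0 - ((0 - w) + n.1 (0 - w))) = fun w => w + - n.1 (0 - w) := by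
    intro n
    funext w
    ring
  have hcompeq : ∀ n : S, (fun w => w + (- n.1 (0 - w) + f (w + - n.1 (0 - w))))
      = (fun w => w + f w) ∘ (fun w => w + - n.1 (0 - w)) := by
    intro n
    funext w
    simp only [Function.comp]
    ring
  have hres : ∀ n : S, HasRes (fun w => w + (- n.1 (0 - w) + f (w + - n.1 (0 - w)))) 0 := by
    intro n
    rw [hcompeq n]
    have h1 : HasRes (fun w => w + - n.1 (0 - w)) 0 := by
      have := n.2.2.2.2.refl 0
      rwa [hrefl n] at this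
    have h2 : NI (fun w => w + - n.1 (0 - w)) := by
      have := (nn n).refl 0
      rwa [hrefl n] at this
    have := hfres.comp h1 h2
    rwa [add_zero] at this
  obtain ⟨N, hN, hNX⟩ := htrio S d hd α hα.le hαα _ he hres
  -- centred at the origin
  have hN' : Fam d (XS 97 97 0) (α / 8) (fun (n : S) w => N n (w + b3)) := by
    refine ((hN.shift (-b3)).mono ?_).congr' (fun i w => by rw [sub_neg_eq_add])
    intro w hw
    show w - -b3 - b3 ∈ XS 97 97 0
    have : w - -b3 - b3 = w := by ring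
    rwa [this]
  have hNr : ∀ n : S, HasRes (fun w => w + N n (w + b3)) 0 := by
    intro n
    refine ((hNX n).2.shift (-b3)).congr (Eventually.of_forall fun w => ?_)
    simp only [sub_neg_eq_add]
    ring
  -- the self map
  let Φ : S → S := fun n => ⟨fun w => N n (w + b3), hN'.diff n, fun w hw => hN'.bd n w hw,
    hN'.lim n, hNr n⟩
  have hΦ : ∀ n m : S, D (Φ n) (Φ m) ≤ 1 / 4 * D n m := by
    intro n m
    apply hDub
    intro w hw
    have h1 := hN'.lip n m w hw
    have h2 : α / 8 * d n m = 1 / 4 * D n m := by simp only [d]; field_simp; ring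
    rw [h2] at h1
    exact h1
  let z0 : S := ⟨fun _ => 0, differentiableOn_const _, fun w _ => by simp; positivity,
    tendsto_const_nhds, hasRes_zero⟩
  let p : ℕ → S := fun k => Φ^[k] z0
  have hp1 : ∀ k, p (k + 1) = Φ (p k) := fun k => Function.iterate_succ_apply' Φ k z0
  have hpD : ∀ k, D (p (k + 1)) (p k) ≤ α / 4 * (1 / 4) ^ k := by
    intro k
    induction k with
    | zero =>
      apply hDub
      intro w hw
      have h1 := (p 1).2.2.1 w hw
      have h2 := (p 0).2.2.1 w hw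
      calc ‖(p (0 + 1)).1 w - (p 0).1 w‖ ≤ ‖(p 1).1 w‖ + ‖(p 0).1 w‖ := norm_sub_le _ _
        _ ≤ α / 4 * (1 / 4) ^ 0 := by rw [pow_zero]; linarith
    | succ k ih =>
      rw [hp1 (k + 1)]
      conv_lhs => rw [show p (k + 1) = Φ (p k) from hp1 k]
      have h1 := hΦ (Φ (p k)) (p k)
      rw [← hp1 k] at h1 ⊢
      calc D (Φ (p (k + 1))) (p (k + 1)) = D (Φ (p (k + 1))) (Φ (p k)) := by rw [← hp1 k]
        _ ≤ 1 / 4 * D (p (k + 1)) (p k) := hΦ _ _
        _ ≤ 1 / 4 * (α / 4 * (1 / 4) ^ k) := by gcongr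
        _ = α / 4 * (1 / 4) ^ (k + 1) := by rw [pow_succ]; ring
  obtain ⟨q, hqd, hqb, hqt⟩ := limit_seq oT (C := α / 2) (p := fun k => (p k).1)
    (fun k => (p k).2.1) (by
      intro k w hw
      refine (hDle _ _ w hw).trans ((hpD k).trans ?_)
      have h1 : α / 2 / 2 / 2 ^ k = α / 4 * (1 / 2) ^ k := by
        rw [one_div, inv_pow]; ring
      rw [h1]
      gcongr
      norm_num)
  have hgeo : Tendsto (fun k : ℕ => α / 2 / 2 ^ k) atTop (𝓝 0) := by
    have : Tendsto (fun n : ℕ => α / 2 * (1 / 2) ^ n) atTop (𝓝 (α / 2 * 0)) :=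
      (tendsto_pow_atTop_nhds_zero_of_lt_one (by norm_num) (by norm_num)).const_mul _
    rw [mul_zero] at this
    refine this.congr (fun n => ?_)
    rw [one_div, inv_pow]; rfl
  have hqlim : Tendsto q (cobounded ℂ) (𝓝 0) := by
    rw [Metric.tendsto_nhds]
    intro ε hε
    obtain ⟨k, hk⟩ := (hgeo.eventually_lt_const (half_pos hε)).exists
    have h4 := (Metric.tendsto_nhds.1 ((p k).2.2.2.1)) (ε / 2) (half_pos hε)
    filter_upwards [h4, cT] with w hw1 hw2
    have h5 := hqb k w hw2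
    rw [dist_zero_right] at hw1 ⊢
    calc ‖q w‖ = ‖(p k).1 w - ((p k).1 w - q w)‖ := by ring_nf
      _ ≤ ‖(p k).1 w‖ + ‖(p k).1 w - q w‖ := norm_sub_le _ _
      _ < ε := by linarith
  have hqbd : ∀ w ∈ XS 97 97 0, ‖q w‖ ≤ α / 8 := by
    intro w hw
    exact le_of_tendsto (hqt w hw).norm (Eventually.of_forall fun k => (p k).2.2.1 w hw)
  have nq : NI (fun w => w + q w) := by
    refine ⟨?_, ?_⟩
    · filter_upwards [cT] with w hw
      exact differentiableAt_id.add ((hqd w hw).differentiableAt (oT.mem_nhds hw))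
    · simpa using hqlim
  have sub138 : {w : ℂ | 138 < ‖w‖} ⊆ XS 97 97 0 := fun w hw => xs_of_norm hw
  have hqres : HasRes (fun w => w + q w) 0 := by
    obtain ⟨l, hl⟩ := nq.res
    have hGq := (G_diff (by norm_num : (0 : ℝ) < 138) (hqd.mono sub138) hqlim)
    have hdq := hGq.2 l hl
    have hGp := fun k => G_diff (by norm_num : (0 : ℝ) < 138) ((p k).2.1.mono sub138)
      (p k).2.2.2.1
    have hloc : TendstoLocallyUniformlyOn (fun k : ℕ => fun z => if z = 0 then 0 else (p k).1 z⁻¹)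
        (fun z => if z = 0 then 0 else q z⁻¹) atTop (ball 0 (1 / 138)) := by
      apply TendstoUniformlyOn.tendstoLocallyUniformlyOn
      rw [Metric.tendstoUniformlyOn_iff]
      intro ε hε
      filter_upwards [hgeo.eventually_lt_const hε] with k hk z hz
      by_cases hz0 : z = 0
      · simp [hz0, hε]
      · simp only [hz0, if_false]
        rw [mem_ball, dist_zero_right] at hz
        have hbig : (138 : ℝ) < ‖z⁻¹‖ := by
          rw [norm_inv]
          have hp : 0 < ‖z‖ := norm_pos_iff.2 hz0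
          rw [lt_inv_comm₀ (by norm_num) hp]
          simpa using hz
        rw [dist_comm, dist_eq_norm]
        exact lt_of_le_of_lt (hqb k _ (xs_of_norm hbig)) hk
    have hder := hloc.deriv (Eventually.of_forall fun k => (hGp k).1) isOpen_ball
    have h0 : (0 : ℂ) ∈ ball (0 : ℂ) (1 / 138) := mem_ball_self (by norm_num)
    have h1 := hder.tendsto_at h0
    have h2 : ∀ k, (deriv ∘ fun k : ℕ => fun z => if z = 0 then 0 else (p k).1 z⁻¹) k 0 = 0 := by
      intro k
      exact ((hGp k).2 0 (p k).2.2.2.2).deriv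
    simp only [h2] at h1
    have h3 := tendsto_nhds_unique h1 tendsto_const_nhds
    rw [hdq.deriv] at h3
    rwa [h3] at hl
  let Q : S := ⟨q, hqd, hqbd, hqlim, hqres⟩
  have hfix : ∀ w ∈ XS 97 97 0, N Q (w + b3) = q w := by
    intro w hw
    have h1 : Tendsto (fun k => (p (k + 1)).1 w) atTop (𝓝 (q w)) :=
      (hqt w hw).comp (tendsto_add_atTop_nat 1)
    have h2 : Tendsto (fun k => (p (k + 1)).1 w) atTop (𝓝 (N Q (w + b3))) := by
      rw [tendsto_iff_norm_sub_tendsto_zero]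
      have h3 : ∀ k, ‖(p (k + 1)).1 w - N Q (w + b3)‖ ≤ α / 2 / 2 ^ k := by
        intro k
        have h4 : ‖(Φ (p k)).1 w - (Φ Q).1 w‖ ≤ D (Φ (p k)) (Φ Q) := hDle _ _ w hw
        have h5 : D (p k) Q ≤ α / 2 / 2 ^ k := hDub _ _ _ (fun w hw => hqb k w hw)
        have h6 := hΦ (p k) Q
        rw [hp1 k]
        have h7 : 0 ≤ D (p k) Q := hD0 _ _
        calc ‖(Φ (p k)).1 w - N Q (w + b3)‖ ≤ D (Φ (p k)) (Φ Q) := h4
          _ ≤ 1 / 4 * D (p k) Q := h6
          _ ≤ D (p k) Q := by linarith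
          _ ≤ _ := h5
      exact squeeze_zero (fun k => norm_nonneg _) h3 hgeo
    exact tendsto_nhds_unique h2 h1
  obtain ⟨⟨X, hXP, hXe⟩, -⟩ := hNX Q
  have nb := ni_at nq b3
  obtain ⟨L, hL, hbL, hLb⟩ := nb.inv
  refine hXP.congr ?_
  -- `X (L w) = (id + f) (b3 - L w)` with `L w = w + q (w - b3)`
  have hkey : ∀ᶠ w in cobounded ℂ, (b3 - (w + q (w - b3))) + f (b3 - (w + q (w - b3)))
      = X (w + q (w - b3)) := by
    have t1 : Tendsto (fun w : ℂ => w - b3) (cobounded ℂ) (cobounded ℂ) := by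
      have := (good_trans (-b3)).tendsto
      simpa [sub_eq_add_neg] using this
    filter_upwards [hXe, t1.eventually cT] with w h2 h3
    have h4 := hfix _ h3
    rw [sub_add_cancel] at h4
    simp only [Function.comp] at h2 ⊢
    rw [h4] at h2
    rw [← h2]
    have h5 : (0 : ℂ) - (b3 - w) = w - b3 := by ring
    rw [h5]
    have h6 : b3 - w + - q (w - b3) = b3 - (w + q (w - b3)) := by ring
    have h7 : Q.1 = q := rfl
    rw [h7, ← add_assoc, h6]
  filter_upwards [hL.good.tendsto.eventually hkey, hbL] with w h1 h2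
  simp only [Function.comp, id] at h1 h2 ⊢
  rw [h2] at h1
  exact h1.symm

theorem norm_b3 : ‖b3‖ ≤ 103 := by
  rw [show b3 = -50 - 50 * I from rfl]
  refine (norm_sub_le _ _).trans ?_
  rw [norm_mul, norm_I]
  norm_num

theorem refl_IP3 {H : ℂ → ℂ} (hH : NI H) (hres : HasRes H 0) (v : ℂ) :
    IP 3 (fun w => H (v - w)) := by
  obtain ⟨ε, hε, hmain⟩ := small3
  have hsmall : ∀ᶠ w in cobounded ℂ, ‖H w - w‖ ≤ 1 := by
    have := Metric.tendsto_nhds.1 hH.2 1 one_pos
    filter_upwards [this] with w hw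
    rw [dist_zero_right] at hw
    exact hw.le
  obtain ⟨R, hR⟩ := ev_iff.1 (hH.1.and hsmall)
  set c : ℝ := max (|R| + ‖v‖ + 1) (1 / ε) with hc
  have hcR : |R| + ‖v‖ + 1 ≤ c := le_max_left _ _
  have hc1 : 1 ≤ c := by linarith [abs_nonneg R, norm_nonneg v]
  have hc0 : 0 < c := by linarith
  have hcε : 1 / c ≤ ε := by
    rw [div_le_iff₀ hc0]
    have h1 : 1 / ε ≤ c := le_max_right _ _
    rw [div_le_iff₀ hε] at h1
    linarith
  have hcc : (c : ℂ) ≠ 0 := by exact_mod_cast hc0.ne'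
  have hnc : ‖(c : ℂ)‖ = c := by rw [norm_real, Real.norm_of_nonneg hc0.le]
  set u : ℂ := (v - c * b3) / 2 with hu
  have hnu : ‖u‖ ≤ ‖v‖ / 2 + c * (103 / 2) := by
    rw [hu, norm_div]
    have h1 : ‖v - c * b3‖ ≤ ‖v‖ + ‖(c : ℂ) * b3‖ := norm_sub_le _ _
    rw [norm_mul, hnc] at h1
    have h2 := norm_b3
    have h3 : ‖(2 : ℂ)‖ = 2 := by norm_num
    rw [h3, div_le_iff₀ (by norm_num)]
    nlinarith
  set f : ℂ → ℂ := fun w => (c : ℂ)⁻¹ * (H (c * w + u) - (c * w + u)) with hf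
  have hbig : ∀ w : ℂ, 84 < ‖w‖ → R < ‖(c : ℂ) * w + u‖ := by
    intro w hw
    have h1 : ‖(c : ℂ) * w‖ ≤ ‖(c : ℂ) * w + u‖ + ‖u‖ := by
      calc ‖(c : ℂ) * w‖ = ‖((c : ℂ) * w + u) - u‖ := by ring_nf
        _ ≤ _ := norm_sub_le _ _
    rw [norm_mul, hnc] at h1
    have h2 := le_abs_self R
    have h3 := norm_nonneg v
    have h4 := abs_nonneg R
    nlinarith
  have hfw : ∀ w, w + f w = (c : ℂ)⁻¹ * (H (c * w + u) - u) := by
    intro w
    simp only [hf]
    field_simp
    ring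
  have h1 := hmain f (by
      intro w hw
      have h2 := (hR _ (hbig w hw)).1
      have h3 : DifferentiableAt ℂ (fun w : ℂ => (c : ℂ) * w + u) w := by fun_prop
      have h4 : DifferentiableAt ℂ (fun w => H (c * w + u)) w := DifferentiableAt.comp w h2 h3
      exact ((h4.sub h3).const_mul _).differentiableWithinAt)
    (by
      intro w hw
      have h2 := (hR _ (hbig w hw)).2
      rw [hf]
      simp only
      rw [norm_mul, norm_inv, hnc]
      calc c⁻¹ * ‖H (c * w + u) - (c * w + u)‖ ≤ c⁻¹ * 1 := by gcongr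
        _ = 1 / c := by ring
        _ ≤ ε := hcε)
    (by
      have h2 := (hH.2.comp (tendsto_aff hcc u)).const_mul (c : ℂ)⁻¹
      rw [mul_zero] at h2
      exact h2)
    (by
      have h2 := HasRes.aff hres hcc u
      refine h2.congr (Eventually.of_forall fun w => ?_)
      exact (hfw w).symm)
  have h2 := IP.aff h1 hcc u
  refine h2.congr (Eventually.of_forall fun w => ?_)
  simp only
  rw [hfw]
  have h3 : (c : ℂ) * (b3 - (c : ℂ)⁻¹ * (w - u)) + u = v - w := by
    rw [hu]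
    field_simp
    ring
  rw [h3, mul_inv_cancel_left₀ hcc]
  ring

/-- multiplier `-1` -/
theorem three {f : ℂ → ℂ} (hg : IsGerm f) {a : ℂ}
    (h : (fun z => f z - (-z + a * z ^ 2 - a ^ 2 * z ^ 3)) =O[𝓝 0] (fun z => z ^ 4)) :
    InI 3 f := by
  have h' : (fun z => f z - ((-1) * z + a * z ^ 2 + (-a ^ 2) * z ^ 3)) =O[𝓝 0]
      (fun z => z ^ 4) := by
    refine h.congr_left (fun z => ?_)
    ring
  have h1 := chk_exp (by norm_num : (-1 : ℂ) ≠ 0) h'
  have hF := chk_good hg
  have e3 : (a ^ 2 - (-1) * (-a ^ 2)) / (-1 : ℂ) ^ 3 = 0 := by ring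
  rw [e3] at h1
  rw [← hat_chk hg.2.1]
  have e1 : (1 : ℂ) / -1 = -1 := by norm_num
  have e2 : -a / (-1) ^ 2 = -a := by norm_num
  rw [e1, e2] at h1
  have ht : HasExp (fun w : ℂ => -a - w) (-1) (-a) 0 := by
    unfold HasExp
    have : (fun w : ℂ => w * (-a - w - -1 * w - -a)) = fun _ => 0 := by
      funext w; ring
    rw [this]
    exact tendsto_const_nhds
  have h2 := h1.comp ht (invo_refl (-a)).1 (by norm_num)
  have e4 : (-1 : ℂ) * -1 = 1 := by norm_num
  have e5 : (-1 : ℂ) * -a + -a = 0 := by ring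
  have e6 : (-1 : ℂ) * 0 + 0 / -1 = 0 := by norm_num
  rw [e4, e5, e6] at h2
  have h3 : Tendsto (fun w => w * ((chk f ∘ fun w => -a - w) w - w)) (cobounded ℂ) (𝓝 0) := by
    refine Tendsto.congr (fun w => ?_) h2
    ring
  have hNI : NI (chk f ∘ fun w => -a - w) := by
    refine ⟨(hF.comp (invo_refl (-a)).1).1, ?_⟩
    have := h3.mul tinv
    rw [mul_zero] at this
    refine this.congr' ?_
    filter_upwards [ne_zero_ev] with w hw
    field_simp
  have h4 := refl_IP3 hNI h3 (-a)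
  apply IP_InI
  refine h4.congr (Eventually.of_forall fun w => ?_)
  simp only [Function.comp, sub_sub_cancel]

theorem four {f : ℂ → ℂ} (hg : IsGerm f) {σ a : ℂ} (hσ : σ = 1 ∨ σ = -1)
    (h : (fun z => f z - (σ * z + a * z ^ 2 + σ * a ^ 2 * z ^ 3)) =O[𝓝 0] (fun z => z ^ 4)) :
    InI 4 f := by
  rcases hσ with hσ1 | hσ1
  · rw [hσ1] at h
    have h1 := chk_exp one_ne_zero h
    have hF := chk_good hg
    have e3 : (a ^ 2 - 1 * (1 * a ^ 2)) / (1 : ℂ) ^ 3 = 0 := by ring
    rw [e3] at h1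
    rw [← hat_chk hg.2.1]
    have e1 : (1 : ℂ) / 1 = 1 := by norm_num
    have e2 : -a / 1 ^ 2 = -a := by norm_num
    rw [e1, e2] at h1
    have ht : HasExp (fun w : ℂ => w + a) 1 a 0 := by
      unfold HasExp
      simp
    have h2 := h1.comp ht (good_trans a) one_ne_zero
    have e4 : (1 : ℂ) * 1 = 1 := by norm_num
    have e5 : (1 : ℂ) * a + -a = 0 := by ring
    have e6 : (1 : ℂ) * 0 + 0 / 1 = 0 := by norm_num
    rw [e4, e5, e6] at h2
    have h3 : Tendsto (fun w => w * ((chk f ∘ fun w => w + a) w - w)) (cobounded ℂ) (𝓝 0) := by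
      refine Tendsto.congr (fun w => ?_) h2
      ring
    have hNI : NI (chk f ∘ fun w => w + a) := by
      refine ⟨(hF.comp (good_trans a)).1, ?_⟩
      have := h3.mul tinv
      rw [mul_zero] at this
      refine this.congr' ?_
      filter_upwards [ne_zero_ev] with w hw
      field_simp
    have h4 := (refl_IP3 hNI h3 0).comp (ip_one (invo_refl a))
    apply IP_InI
    refine h4.congr (Eventually.of_forall fun w => ?_)
    simp only [Function.comp]
    congr 1
    ring
  · rw [hσ1] at h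
    refine (three hg (a := a) ?_).succ
    refine h.congr_left (fun z => ?_)
    ring

end Pool.Agent.Y263.IV
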