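import Pool.Agent.Y263.IV.Red

/-!
# First order bookkeeping for families of near-identity maps
-/

set_option autoImplicit false

namespace Pool.Agent.Y263.IV

open Pool.Agent.Results.MP_40a019_an.BoundedWidth
open Complex Set Filter Topology Metric Bornology

section
variable {ι : Type} {d : ι → ι → ℝ} {Ω Ω' : Set ℂ} {α β δ : ℝ} {e f b : ι → ℂ → ℂ}

theorem fadd (h : Fam d Ω α e) (h' : Fam d Ω β f) : Fam d Ω (α + β) (fun i w => e i w + f i w) := by
  have := h.sub' h'.neg
  refine this.congr' (fun i w => ?_)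
  ring

theorem fcongr (h : Fam d Ω α e) (hΩ : ∀ᶠ w in cobounded ℂ, w ∈ Ω)
    (he : ∀ i, ∀ w ∈ Ω, e i w = f i w) : Fam d Ω α f := by
  refine ⟨fun i => (h.diff i).congr (fun w hw => (he i w hw).symm), fun i w hw => ?_,
    fun i j w hw => ?_, fun i => ?_⟩
  · rw [← he i w hw]; exact h.bd i w hw
  · rw [← he i w hw, ← he j w hw]; exact h.lip i j w hw
  · refine (h.lim i).congr' ?_
    filter_upwards [hΩ] with w hw
    exact he i w hw

/-- composition, with its first order part -/
theorem fcomp (h : Fam d Ω α e) (hb : Fam d Ω' β b) (hd : ∀ i j, 0 ≤ d i j)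
    (hΩ : IsOpen Ω) (hδ : 0 < δ) (hβ : β ≤ δ) (hβ0 : 0 ≤ β) (hα0 : 0 ≤ α)
    (hs : Sh (2 * δ) Ω' Ω) :
    Fam d Ω' (2 * α * β / δ)
      (fun i w => (b i w + e i (w + b i w)) - (b i w + e i w)) := by
  have := h.incr hb hd hΩ hδ hβ hβ0 hα0 hs
  refine this.congr' (fun i w => ?_)
  ring

/-- inverse, with its first order part -/
theorem finv (h : Fam d Ω α e) (hd : ∀ i j, 0 ≤ d i j)
    (hΩ : IsOpen Ω) (hΩ' : IsOpen Ω') (hδ : 0 < δ) (hα : α ≤ δ / 2) (hα0 : 0 ≤ α)
    (hco : ∀ᶠ w in Bornology.cobounded ℂ, w ∈ Ω')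
    (hs : Sh (2 * δ) Ω' Ω) :
    ∃ h : ι → ℂ → ℂ, Fam d Ω' (2 * α) h ∧
      (∀ i, ∀ w ∈ Ω', (w + h i w) + e i (w + h i w) = w) ∧
      Fam d Ω' (4 * α ^ 2 / δ) (fun i w => h i w + e i w) := by
  obtain ⟨k, hk, hke⟩ := h.inv hd hΩ hΩ' hδ hα hα0 hco hs
  refine ⟨k, hk, hke, ?_⟩
  have h1 := (h.incr hk hd hΩ hδ (by linarith) (by positivity) hα0 hs).neg
  have h2 : 2 * α * (2 * α) / δ = 4 * α ^ 2 / δ := by ring
  rw [h2] at h1
  refine fcongr h1 hco (fun i w hw => ?_)
  have h3 := hke i w hw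
  linear_combination -h3

/-- `id + k` inverts `id + e` near infinity on both sides -/
theorem inv_sides {e k : ℂ → ℂ} (he : NI (fun w => w + e w)) (hk : NI (fun w => w + k w))
    (h : ∀ᶠ w in cobounded ℂ, (w + k w) + e (w + k w) = w) :
    (fun w => w + e w) ∘ (fun w => w + k w) =ᶠ[cobounded ℂ] id ∧
      (fun w => w + k w) ∘ (fun w => w + e w) =ᶠ[cobounded ℂ] id := by
  have h1 : (fun w => w + e w) ∘ (fun w => w + k w) =ᶠ[cobounded ℂ] id := h
  exact ⟨h1, he.right_inv hk h1⟩

end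

section
variable {ι : Type} {d : ι → ι → ℝ} {x y a β : ℝ} {e P Q : ι → ℂ → ℂ}

theorem XS_add (x y s t : ℝ) : XS (x + s) (y + s) t = XS x y (s + t) := by
  unfold XS
  congr 1 <;> ring

/-- folding with a prescribed first order splitting `e ≈ P + Q` -/
theorem foldT (hd : ∀ i j, 0 ≤ d i j) (hx : 0 ≤ x) (hy : 0 ≤ y)
    (hxy : 2 * (x + 5) + 2 * (y + 5) + 4 ≤ 600) (ha0 : 0 ≤ a) (ha : a ≤ 1 / 10 ^ 6) (hβ0 : 0 ≤ β)
    (hβ : 10 ^ 7 * (β + 100 * a ^ 2) ≤ 1) (hβa : β ≤ a)
    (hP : Fam d (AS x y 1) a P) (hQ : Fam d (BS x y 1) a Q)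
    (hr : Fam d (XS x y 1) β (fun i w => e i w - (P i w + Q i w))) :
    ∃ e1 : ι → ℂ → ℂ, Fam d (AS (x + 5) (y + 5) 5) (10 ^ 6 * (β + 100 * a ^ 2))
        (fun i w => e1 i w - (P i w - Q i (0 - w))) ∧
      ∀ i, (∃ τ, IsInvo τ ∧ (fun w => (0 - w) + e i (0 - w)) =ᶠ[cobounded ℂ]
          τ ∘ (fun w => w + e1 i w)) ∧
        (∀ l, HasRes (fun w => w + e i w) l → HasRes (fun w => w + e1 i w) l) := by
  have G := geo (x := x) (y := y) hx
  have G5 := geo (x := x + 5) (y := y + 5) (by linarith)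
  have he : Fam d (XS x y 1) (3 * a) e := by
    have h1 := fadd hr (fadd (hP.mono (G.XA 1)) (hQ.mono (G.XB 1)))
    exact (h1.congr' (fun i w => by ring)).le hd (by linarith)
  -- inverses of `id + P`, `id + Q`
  have sA : Sh (2 * 1) (AS x y 3) (AS x y 1) := by
    have := G.sA 1 2 (by norm_num)
    norm_num at this ⊢
    exact this
  have sB : Sh (2 * 1) (BS x y 3) (BS x y 1) := by
    have := G.sB 1 2 (by norm_num)
    norm_num at this ⊢
    exact this
  have sX : Sh (2 * 1) (XS x y 3) (XS x y 1) := by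
    have := G.sX 1 2 (by norm_num)
    norm_num at this ⊢
    exact this
  obtain ⟨p', hp', hpe, hpt⟩ := finv hP hd (G.oA 1) (G.oA 3) (δ := 1) one_pos (by linarith) ha0
    ((G.co 3).mono fun w hw => G.XA 3 hw) sA
  obtain ⟨q', hq', hqe, hqt⟩ := finv hQ hd (G.oB 1) (G.oB 3) (δ := 1) one_pos (by linarith) ha0
    ((G.co 3).mono fun w hw => G.XB 3 hw) sB
  -- `ea = (id + e) ∘ (id + q')`
  have hqX := hq'.mono (G.XB 3)
  have hea := he.comp hqX hd (G.oX 1) (δ := 1) one_pos (by linarith) (by linarith) (by linarith) sX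
  have heat := fcomp he hqX hd (G.oX 1) (δ := 1) one_pos (by linarith) (by linarith)
    (by linarith) sX
  have hea6 := hea.le hd (β := 6 * a) (by rw [div_one]; nlinarith)
  have sX5 : Sh (2 * 1) (XS x y 5) (XS x y 3) := by
    have := G.sX 3 2 (by norm_num)
    norm_num at this ⊢
    exact this
  have sXA : Sh (2 * 1) (XS x y 5) (AS x y 3) := fun w hw z hz => G.XA 3 (sX5 w hw z hz)
  have s53 : XS x y 5 ⊆ XS x y 3 := sX5.sub (by norm_num)
  have s31 : XS x y 3 ⊆ XS x y 1 := sX.sub (by norm_num)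
  have heb := fcomp hp' (hea6.mono s53) hd (G.oA 3) (δ := 1) one_pos (by linarith) (by linarith)
    (by linarith) sXA
  -- the second order map
  set e' : ι → ℂ → ℂ := fun i w => (q' i w + e i (w + q' i w)) +
    p' i (w + (q' i w + e i (w + q' i w))) with he'
  have hsec : Fam d (XS x y 5) (β + 100 * a ^ 2) e' := by
    have h1 := fadd (fadd (fadd heb (heat.mono s53)) (hpt.mono (fun w hw => G.XA 3 (s53 hw))))
      (fadd (hqX.mono s53 |> fun _ => (hqt.mono (fun w hw => G.XB 3 (s53 hw)))) (hr.mono (fun w hw => s31 (s53 hw))))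
    refine (h1.congr' (fun i w => ?_)).le hd ?_
    · simp only [he']; ring
    · rw [div_one, div_one, div_one]; nlinarith
  have hXS : XS (x + 5) (y + 5) 0 = XS x y 5 := by rw [XS_add]; norm_num
  rw [← hXS] at hsec
  set γ := β + 100 * a ^ 2 with hγ
  have hγ0 : 0 ≤ γ := by positivity
  have hγ1 : 10 ^ 7 * γ ≤ 1 := hβ
  obtain ⟨p, q, hp, hq, hpq⟩ := decomp hd (by linarith) (by linarith) hγ0
    (by nlinarith) hsec
  set Λ := 2 * (x + 5) + 2 * (y + 5) + 4 with hΛ
  have hΛ0 : 0 ≤ Λ := by positivity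
  have hΛγ : Λ * γ ≤ 600 * γ := by gcongr
  have hΛγ0 : 0 ≤ Λ * γ := by positivity
  have hp2 : Fam d (AS (x + 5) (y + 5) 1) (38400 * γ) p := hp.le hd (by nlinarith)
  have hq2 : Fam d (BS (x + 5) (y + 5) 2) (76800 * γ) q := hq.le hd (by nlinarith)
  -- `A = (id + P) ∘ (id + p)` on `AS (x+5) (y+5) 3`
  have sA3 : AS (x + 5) (y + 5) 3 ⊆ AS (x + 5) (y + 5) 1 := by
    have := G5.sA 1 2 (by norm_num)
    norm_num at this
    exact this.sub (by norm_num)
  have sAP : Sh (2 * 1) (AS (x + 5) (y + 5) 3) (AS x y 1) := by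
    intro w hw z hz
    have h1 := sA
    have h2 : AS (x + 5) (y + 5) 3 ⊆ AS x y 3 := by
      rintro s (h | h | h | h)
      · left; linarith
      · right; left; exact h
      · right; right; left; linarith
      · right; right; right; linarith
    exact h1 w (h2 hw) z hz
  have hpA := hp2.mono sA3
  have hA := hP.comp hpA hd (G.oA 1) (δ := 1) one_pos (by linarith) (by positivity) ha0 sAP
  have hAt := fcomp hP hpA hd (G.oA 1) (δ := 1) one_pos (by linarith) (by positivity) ha0 sAP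
  -- `N = (id + q) ∘ (id + Q)` on `BS (x+5) (y+5) 4`
  have sB4 : Sh (2 * 1) (BS (x + 5) (y + 5) 4) (BS (x + 5) (y + 5) 2) := by
    have := G5.sB 2 2 (by norm_num)
    norm_num at this ⊢
    exact this
  have sBQ : BS (x + 5) (y + 5) 4 ⊆ BS x y 1 := by
    rintro s (h | h | h | h)
    · left; linarith
    · right; left; linarith
    · right; right; left; linarith
    · right; right; right; linarith
  have hQ4 := hQ.mono sBQ
  have hN := hq2.comp hQ4 hd (G5.oB 2) (δ := 1) one_pos (by linarith) ha0 (by positivity) sB4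
  have hNt := fcomp hq2 hQ4 hd (G5.oB 2) (δ := 1) one_pos (by linarith) ha0 (by positivity) sB4
  -- names
  set A : ι → ℂ → ℂ := fun i w => p i w + P i (w + p i w) with hAdef
  set N : ι → ℂ → ℂ := fun i w => Q i w + q i (w + Q i w) with hNdef
  have hA3 : Fam d (AS (x + 5) (y + 5) 3) (2 * a + 38400 * γ) A :=
    hA.le hd (by rw [div_one]; nlinarith)
  have hAP : Fam d (AS (x + 5) (y + 5) 3) (50000 * γ) (fun i w => A i w - P i w) := by
    have h1 := fadd hAt hpA
    refine (h1.congr' (fun i w => ?_)).le hd ?_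
    · simp only [hAdef]; ring
    · rw [div_one]; nlinarith
  have hNQ : Fam d (BS (x + 5) (y + 5) 4) (80000 * γ) (fun i w => N i w - Q i w) := by
    have h1 := fadd hNt (hq2.mono (sB4.sub (by norm_num)))
    refine (h1.congr' (fun i w => ?_)).le hd ?_
    · simp only [hNdef]; ring
    · rw [div_one]; nlinarith
  have hN4 : Fam d (BS (x + 5) (y + 5) 4) (a + 80000 * γ) N := by
    have h1 := fadd hNQ hQ4
    refine (h1.congr' (fun i w => ?_)).le hd ?_
    · ring
    · linarith
  -- reflected `N`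
  have hrefS : AS (x + 5) (y + 5) 4 ⊆ {w | (0 : ℂ) - w ∈ BS (x + 5) (y + 5) 4} := by
    rintro w (h | h | h | h)
    · right; left; rw [sub_re, zero_re]; linarith
    · left; rw [sub_re, zero_re]; linarith
    · right; right; right; rw [sub_im, zero_im]; linarith
    · right; right; left; rw [sub_im, zero_im]; linarith
  have hNr := (hN4.refl 0).mono hrefS
  have hNQr := (hNQ.refl 0).mono hrefS
  have s54 : Sh (2 * 1) (AS (x + 5) (y + 5) 5) (AS (x + 5) (y + 5) 3) := by
    have := G5.sA 3 2 (by norm_num)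
    norm_num at this ⊢
    exact this
  have s54' : AS (x + 5) (y + 5) 5 ⊆ AS (x + 5) (y + 5) 4 := by
    have := G5.sA 4 1 (by norm_num)
    norm_num at this
    exact this.sub (by norm_num)
  have hNr5 := hNr.mono s54'
  have hfin := fcomp hA3 hNr5 hd (G5.oA 3) (δ := 1) one_pos (by nlinarith) (by positivity)
    (by positivity) s54
  -- the factorisation near infinity
  have hfac : ∀ i, (fun w => w + e i w) =ᶠ[cobounded ℂ] (fun w => w + A i w) ∘ (fun w => w + N i w) := by
    intro i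
    have nP : NI (fun w => w + P i w) := hP.ni (G.oA 1) ((G.co 1).mono fun w hw => G.XA 1 hw) i
    have nQ : NI (fun w => w + Q i w) := hQ.ni (G.oB 1) ((G.co 1).mono fun w hw => G.XB 1 hw) i
    have nE : NI (fun w => w + e i w) := he.ni (G.oX 1) (G.co 1) i
    have nP' : NI (fun w => w + p' i w) := hp'.ni (G.oA 3) ((G.co 3).mono fun w hw => G.XA 3 hw) i
    have nQ' : NI (fun w => w + q' i w) := hq'.ni (G.oB 3) ((G.co 3).mono fun w hw => G.XB 3 hw) i
    have iP := inv_sides nP nP' ((G.co 3).mono fun w hw => hpe i w (G.XA 3 hw))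
    have iQ := inv_sides nQ nQ' ((G.co 3).mono fun w hw => hqe i w (G.XB 3 hw))
    have tQ := nQ.good.tendsto
    have tE := nE.good.tendsto
    filter_upwards [tQ.eventually (G5.co 2), iQ.2, tE.eventually iP.1] with w h1 h2 h3
    have h4 := hpq i _ h1
    simp only [Function.comp, id, he', hAdef, hNdef] at h1 h2 h3 h4 ⊢
    -- `u = w + Q w`, `(id + q') u = w`
    have h5 : (w + Q i w) + q' i (w + Q i w) = w := h2
    have h6 : (w + Q i w) + ((q' i (w + Q i w) + e i ((w + Q i w) + q' i (w + Q i w))) +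
        p' i ((w + Q i w) + (q' i (w + Q i w) + e i ((w + Q i w) + q' i (w + Q i w)))))
        = (w + e i w) + p' i (w + e i w) := by
      have h7 : (w + Q i w) + (q' i (w + Q i w) + e i ((w + Q i w) + q' i (w + Q i w)))
          = w + e i w := by
        rw [← add_assoc, h5]
      rw [← add_assoc, h7]
    rw [h6] at h4
    have h8 : w + (Q i w + q i (w + Q i w)) = w + Q i w + q i (w + Q i w) := by ring
    have h9 : w + Q i w + q i (w + Q i w) + (p i (w + Q i w + q i (w + Q i w)) +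
        P i (w + Q i w + q i (w + Q i w) + p i (w + Q i w + q i (w + Q i w))))
        = (w + Q i w + q i (w + Q i w) + p i (w + Q i w + q i (w + Q i w))) +
        P i (w + Q i w + q i (w + Q i w) + p i (w + Q i w + q i (w + Q i w))) := by ring
    rw [h8, h9, ← h4]
    exact h3.symm
  refine ⟨fun i w => - N i (0 - w) + A i (w + - N i (0 - w)), ?_, fun i => ⟨?_, ?_⟩⟩
  · have h1 := fadd hfin (fadd (hAP.mono (s54.sub (by norm_num))) (hNQr.mono s54'))
    refine (h1.congr' (fun i w => ?_)).le hd ?_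
    · ring
    · rw [div_one]
      nlinarith
  · -- the involution
    have nA : NI (fun w => w + A i w) := hA3.ni (G5.oA 3) ((G5.co 3).mono fun w hw => G5.XA 3 hw) i
    have nN : NI (fun w => w + N i w) := hN4.ni (G5.oB 4) ((G5.co 4).mono fun w hw => G5.XB 4 hw) i
    obtain ⟨K, hK, hAK, hKA⟩ := nA.inv
    have hRg := (nN.refl 0).good.tendsto
    refine ⟨fun w => (fun w => w + A i w) (0 - K w), invo_of_ni nA hK hAK hKA 0, ?_⟩
    filter_upwards [(tendsto_refl 0).eventually (hfac i), hRg.eventually hKA] with w h1 h2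
    simp only [Function.comp, id] at h1 h2 ⊢
    rw [h1]
    have e1 : w + (- N i (0 - w) + A i (w + - N i (0 - w)))
        = 0 - (0 - w + N i (0 - w)) + A i (0 - (0 - w + N i (0 - w))) := by
      have : w + - N i (0 - w) = 0 - (0 - w + N i (0 - w)) := by ring
      rw [← this]; ring
    rw [e1, h2, sub_sub_cancel]
  · intro l h0
    have nA : NI (fun w => w + A i w) := hA3.ni (G5.oA 3) ((G5.co 3).mono fun w hw => G5.XA 3 hw) i
    have nN : NI (fun w => w + N i w) := hN4.ni (G5.oB 4) ((G5.co 4).mono fun w hw => G5.XB 4 hw) i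
    obtain ⟨r, hr1⟩ := nA.res
    obtain ⟨s, hs1⟩ := nN.res
    have h1 := hr1.comp hs1 nN
    have h2 := h0.congr (hfac i)
    have h3 : r + s = l := h1.unique h2
    have h5 := hs1.refl 0
    have h7 := hr1.comp h5 (nN.refl 0)
    rw [h3] at h7
    refine h7.congr (Eventually.of_forall fun w => ?_)
    simp only [Function.comp]
    have : w + - N i (0 - w) = 0 - (0 - w + N i (0 - w)) := by ring
    rw [← this]; ring

end

end Pool.Agent.Y263.IV
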