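import Pool.Agent.Y263.IV.Lin

/-!
# Three involutions and a contraction
-/

set_option autoImplicit false

namespace Pool.Agent.Y263.IV

open Pool.Agent.Results.MP_40a019_an.BoundedWidth
open Complex Set Filter Topology Metric Bornology

theorem far_box {w s : ℂ} {r : ℝ}
    (h : w.re < s.re - r ∨ s.re + r < w.re ∨ w.im < s.im - r ∨ s.im + r < w.im) :
    r < ‖w - s‖ := by
  have h1 := abs_re_le_norm (w - s)
  have h2 := abs_im_le_norm (w - s)
  rw [sub_re] at h1
  rw [sub_im] at h2
  rcases h with h | h | h | h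
  · linarith [neg_le_abs (w.re - s.re)]
  · linarith [le_abs_self (w.re - s.re)]
  · linarith [neg_le_abs (w.im - s.im)]
  · linarith [le_abs_self (w.im - s.im)]

theorem sh_box {Ω : Set ℂ} {s : ℂ} {r : ℝ} (h : ∀ w ∈ Ω, w.re < s.re - (r + 2) ∨
    s.re + (r + 2) < w.re ∨ w.im < s.im - (r + 2) ∨ s.im + (r + 2) < w.im) :
    Sh (2 * 1) Ω (FD r s) := by
  intro w hw z hz
  exact FD_sh r (2 * 1) s w (by
    show r + 2 * 1 < ‖w - s‖
    have := far_box (h w hw)
    linarith) z hz

theorem s1_re : s1.re = 8 := by simp [s1]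
theorem s1_im : s1.im = -8 := by simp [s1]
theorem s2_re : s2.re = -45 := by simp [s2]
theorem s2_im : s2.im = 8 := by simp [s2]
theorem s3_re : s3.re = -70 := by simp [s3]
theorem s3_im : s3.im = -20 := by simp [s3]
theorem D3_re : D3.re = -150 := by simp [D3]
theorem D3_im : D3.im = -50 := by simp [D3]

/-- the exterior of a square centred at `b3` -/
def Sq (r : ℝ) : Set ℂ := {w | w - b3 ∈ XS r r 0}

theorem mem_Sq {r : ℝ} {w : ℂ} : w ∈ Sq r ↔
    w.re < -50 - r ∨ -50 + r < w.re ∨ w.im < -50 - r ∨ -50 + r < w.im := by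
  show w - b3 ∈ XS r r 0 ↔ _
  simp only [XS, Pool.Agent.Results.MP_40a019_an.BoundedWidth.Ext, mem_ofPred_eq, sub_re, sub_im,
    b3_re, b3_im]
  constructor
  · rintro (h | h | h | h)
    · left; linarith
    · right; left; linarith
    · right; right; left; linarith
    · right; right; right; linarith
  · rintro (h | h | h | h)
    · left; linarith
    · right; left; linarith
    · right; right; left; linarith
    · right; right; right; linarith

theorem Sq_open (r : ℝ) : IsOpen (Sq r) :=
  ((Ext_open _ _ _ _ : IsOpen (XS r r 0))).preimage (by fun_prop : Continuous fun w : ℂ => w - b3)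

theorem Sq_co (r : ℝ) : ∀ᶠ w in cobounded ℂ, w ∈ Sq r := by
  have := (good_trans (-b3)).tendsto.eventually (co_ext (-(r + 0)) (r + 0) (-(r + 0)) (r + 0))
  filter_upwards [this] with w hw
  rw [← sub_eq_add_neg] at hw
  exact hw

theorem fzero {ι : Type} {d : ι → ι → ℝ} (hd : ∀ i j, 0 ≤ d i j) (Ω : Set ℂ) {α : ℝ}
    (hα : 0 ≤ α) : Fam d Ω α (fun _ _ => 0) :=
  ⟨fun _ => differentiableOn_const _, fun _ _ _ => by rw [norm_zero]; exact hα,
    fun i j _ _ => by rw [sub_zero, norm_zero]; exact mul_nonneg hα (hd i j),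
    fun _ => tendsto_const_nhds⟩

theorem trio : ∃ α0 : ℝ, 0 < α0 ∧ ∀ (ι : Type) (d : ι → ι → ℝ) (_ : ∀ i j, 0 ≤ d i j) (α : ℝ)
    (_ : 0 ≤ α) (_ : α ≤ α0) (m0 : ι → ℂ → ℂ) (_ : Fam d (XS 99 99 0) α m0)
    (_ : ∀ i, HasRes (fun w => w + m0 i w) 0),
    ∃ m3 : ι → ℂ → ℂ, Fam d (Sq 97) (α / 8) m3 ∧
      ∀ i, (∃ X, IP 3 X ∧ (fun w => (b3 - w) + m0 i (b3 - w)) =ᶠ[cobounded ℂ]
          X ∘ (fun w => w + m3 i w)) ∧
        HasRes (fun w => w + m3 i w) 0 := by
  obtain ⟨A, hA, hlin⟩ := lin
  have hA0 : 0 < A := by linarith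
  refine ⟨1 / (10 ^ 17 * A ^ 2), by positivity, ?_⟩
  intro ι d hd α hα0 hα m0 hm hres
  obtain ⟨p1, q1, p2, q2, c1, c2, c3, hp1, hq1, hp2, hq2, hc1, hc2, hc3, e1, e2, hfin⟩ :=
    hlin ι d hd α hα0 m0 hm hres
  have hA2 : 10 ^ 17 * A ^ 2 * α ≤ 1 := by
    have h1 : (0 : ℝ) < 10 ^ 17 * A ^ 2 := by positivity
    rw [le_div_iff₀ h1] at hα
    linarith
  set a : ℝ := A * α with ha
  have ha0 : 0 ≤ a := by positivity
  have hαa : α ≤ a := by
    rw [ha]; nlinarith
  have ha1 : a ≤ 1 / 10 ^ 17 := by
    have h1 : 10 ^ 17 * a ≤ 10 ^ 17 * A ^ 2 * α := by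
      rw [ha]
      have : A * α ≤ A ^ 2 * α := by
        have h2 : A ≤ A ^ 2 := by nlinarith
        gcongr
      linarith
    linarith
  have ha2 : 10 ^ 17 * a ^ 2 ≤ α := by
    have h1 : 10 ^ 17 * a ^ 2 = 10 ^ 17 * A ^ 2 * α * α := by rw [ha]; ring
    rw [h1]
    calc 10 ^ 17 * A ^ 2 * α * α ≤ 1 * α := by gcongr
      _ = α := one_mul _
  have G := geo (x := 99) (y := 99) (by norm_num)
  have G2 := geo (x := 112) (y := 66) (by norm_num)
  have nI : ‖(I : ℂ)‖ = 1 := by simp
  -- stage 1
  have s01 : XS 99 99 1 ⊆ XS 99 99 0 := by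
    rintro w (h | h | h | h)
    · left; linarith
    · right; left; linarith
    · right; right; left; linarith
    · right; right; right; linarith
  have hm0 : Fam d (Im 1 0 (XS 99 99 1)) (8 * a) m0 := by
    rw [Im_one]
    exact (hm.mono s01).le hd (by linarith)
  have hP1 : Fam d (Im 1 0 (AS 99 99 1)) (3 * a) p1 := by
    rw [Im_one]
    exact hp1.le hd (by linarith)
  have hQ1 : Fam d (Im 1 0 (BS 99 99 1)) (3 * a) (fun i w => q1 i w - c1 i w) := by
    rw [Im_one]
    refine (hq1.sub' (hc1.mono ?_)).le hd (by linarith)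
    intro w hw
    apply far_box
    rw [s1_re, s1_im]
    rcases hw with h | h | h | h
    · left; linarith
    · right; left; linarith
    · right; right; left; linarith
    · right; right; right; linarith
  have hr1 : Fam d (Im 1 0 (XS 99 99 1)) 0
      (fun i w => m0 i w - (p1 i w + (q1 i w - c1 i w) + c1 i w)) := by
    rw [Im_one]
    refine fcongr (fzero hd _ le_rfl) (G.co 1) (fun i w hw => ?_)
    rw [e1 i w hw]; ring
  have hs1 : Sh (2 * 1) (Im 1 0 (XS 99 99 1)) (FD 4 s1) := by
    rw [Im_one]
    apply sh_box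
    intro w hw
    rw [s1_re, s1_im]
    rcases hw with h | h | h | h
    · left; linarith
    · right; left; linarith
    · right; right; left; linarith
    · right; right; right; linarith
  have hX2 : ∀ w ∈ Im I (-50) (XS 112 66 1), w.im < -113 ∨ 113 < w.im ∨ w.re < -117 ∨ 17 < w.re := by
    intro w hw
    rw [XS, mem_ImI] at hw
    norm_num at hw
    rcases hw with h | h | h | h
    · left; exact h
    · right; left; exact h
    · right; right; right; linarith
    · right; right; left; linarith
  have hΩ1 : Im I (-50) (XS 112 66 1) ⊆ Im 1 0 (AS (99 + 5) (99 + 5) 5) := by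
    rw [Im_one]
    intro w hw
    rcases hX2 w hw with h | h | h | h
    · right; right; left; linarith
    · right; right; right; linarith
    · left; linarith
    · right; left; linarith
  have hΩs1 : Sh (2 * 1) (Im I (-50) (XS 112 66 1)) (FD 2 s1) := by
    apply sh_box
    intro w hw
    rw [s1_re, s1_im]
    rcases hX2 w hw with h | h | h | h
    · right; right; left; linarith
    · right; right; right; linarith
    · left; linarith
    · right; left; linarith
  obtain ⟨m1, hm1, hm1f, r1⟩ := stage (β := 0) (c := 1) (v := 0) (s := s1) hd (by norm_num) (by norm_num)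
    (by norm_num) ha0 ha1 le_rfl (by positivity) (by simp) hm0 hc1 hP1 hQ1 hr1 hs1
    (Im_open (G2.oX 1) I (-50)) (Im_co (G2.co 1) I_ne_zero) hΩ1 hΩs1
  -- stage 2
  have hA2m : ∀ w ∈ Im I (-50) (AS 112 66 1), w.im < -113 ∨ 1 < w.im ∨ w.re < -117 ∨ 17 < w.re := by
    intro w hw
    rw [AS, mem_ImI] at hw
    norm_num at hw
    rcases hw with h | h | h | h
    · left; exact h
    · right; left; exact h
    · right; right; right; linarith
    · right; right; left; linarith
  have hB2m : ∀ w ∈ Im I (-50) (BS 112 66 1), w.im < -1 ∨ 113 < w.im ∨ w.re < -117 ∨ 17 < w.re := by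
    intro w hw
    rw [BS, mem_ImI] at hw
    norm_num at hw
    rcases hw with h | h | h | h
    · left; exact h
    · right; left; exact h
    · right; right; right; linarith
    · right; right; left; linarith
  have hP2 : Fam d (Im I (-50) (AS 112 66 1)) (3 * a) (fun i w => p2 i w + c1 i w) := by
    refine (fadd hp2 (hc1.mono ?_)).le hd (by linarith)
    intro w hw
    apply far_box
    rw [s1_re, s1_im]
    rcases hA2m w hw with h | h | h | h
    · right; right; left; linarith
    · right; right; right; linarith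
    · left; linarith
    · right; left; linarith
  have hQ2 : Fam d (Im I (-50) (BS 112 66 1)) (3 * a)
      (fun i w => q2 i w + c1 i (0 - w) - c2 i w) := by
    have h1 := (hc1.refl 0).mono (Ω' := Im I (-50) (BS 112 66 1)) (by
      intro w hw
      show (0 : ℂ) - w ∈ FD 2 s1
      apply far_box
      rw [s1_re, s1_im, sub_re, sub_im, zero_re, zero_im]
      rcases hB2m w hw with h | h | h | h
      · right; right; right; linarith
      · right; right; left; linarith
      · right; left; linarith
      · left; linarith)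
    have h2 := hc2.mono (Ω' := Im I (-50) (BS 112 66 1)) (by
      intro w hw
      apply far_box
      rw [s2_re, s2_im]
      rcases hB2m w hw with h | h | h | h
      · right; right; left; linarith
      · right; right; right; linarith
      · left; linarith
      · right; left; linarith)
    refine (((hq2.sub' h1).sub' h2).congr' (fun i w => ?_)).le hd (by linarith)
    ring
  have hr2 : Fam d (Im I (-50) (XS 112 66 1)) (10 ^ 6 * (0 + 1000 * a ^ 2))
      (fun i w => m1 i w - ((p2 i w + c1 i w) + (q2 i w + c1 i (0 - w) - c2 i w) + c2 i w)) := by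
    refine fcongr hm1f (Im_co (G2.co 1) I_ne_zero) (fun i w hw => ?_)
    have h1 := e2 i w hw
    rw [mul_zero]
    linear_combination -h1
  have hs2 : Sh (2 * 1) (Im I (-50) (XS 112 66 1)) (FD 4 s2) := by
    apply sh_box
    intro w hw
    rw [s2_re, s2_im]
    rcases hX2 w hw with h | h | h | h
    · right; right; left; linarith
    · right; right; right; linarith
    · left; linarith
    · right; left; linarith
  have hΩ2 : Sq 95 ⊆ Im I (-50) (AS (112 + 5) (66 + 5) 5) := by
    intro w hw
    rw [mem_Sq] at hw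
    rw [AS, mem_ImI]
    rcases hw with h | h | h | h
    · right; right; right; linarith
    · right; right; left; linarith
    · left; linarith
    · right; left; linarith
  have hΩs2 : Sh (2 * 1) (Sq 95) (FD 2 s2) := by
    apply sh_box
    intro w hw
    rw [mem_Sq] at hw
    rw [s2_re, s2_im]
    rcases hw with h | h | h | h
    · left; linarith
    · right; left; linarith
    · right; right; left; linarith
    · right; right; right; linarith
  obtain ⟨m2, hm2, hm2f, r2⟩ := stage (β := 10 ^ 6 * (0 + 1000 * a ^ 2)) (c := I) (v := -50)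
    (s := s2) hd (by norm_num) (by norm_num) (by norm_num) ha0 ha1 (by positivity)
    (by linarith) nI hm1 hc2 hP2 hQ2 hr2 hs2 (Sq_open 95) (Sq_co 95) hΩ2 hΩs2
  -- stage 3
  have hΩ3 : Sh (2 * 1) (Sq 97) (Sq 95) := by
    intro w hw z hz
    have h1 : |z.re - w.re| ≤ 2 := by
      rw [← sub_re]; exact (abs_re_le_norm _).trans (by linarith)
    have h2 : |z.im - w.im| ≤ 2 := by
      rw [← sub_im]; exact (abs_im_le_norm _).trans (by linarith)
    rw [abs_le] at h1 h2
    rw [mem_Sq] at hw ⊢
    rcases hw with h | h | h | h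
    · left; linarith
    · right; left; linarith
    · right; right; left; linarith
    · right; right; right; linarith
  have hΩs3 : Sh (2 * 1) (Sq 97) (FD 2 s3) := by
    apply sh_box
    intro w hw
    rw [mem_Sq] at hw
    rw [s3_re, s3_im]
    rcases hw with h | h | h | h
    · left; linarith
    · right; left; linarith
    · right; right; left; linarith
    · right; right; right; linarith
  have hΩD3 : ∀ w ∈ Sq 97, D3 - w ∈ FD 4 s3 := by
    intro w hw
    rw [mem_Sq] at hw
    apply far_box
    rw [s3_re, s3_im, sub_re, sub_im, D3_re, D3_im]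
    rcases hw with h | h | h | h
    · right; left; linarith
    · left; linarith
    · right; right; right; linarith
    · right; right; left; linarith
  obtain ⟨m3, hm3f, r3⟩ := last (D := D3) hd ha0 ha1 (Sq_open 95) (Sq_co 95) hm2 hc3
    (Sq_open 97) (Sq_co 97) hΩ3 hΩs3 hΩD3
  refine ⟨m3, ?_, fun i => ⟨?_, ?_⟩⟩
  · have h97 : Sq 97 ⊆ {w | 95 < ‖w - b3‖} := by
      intro w hw
      rw [mem_Sq] at hw
      show 95 < ‖w - b3‖
      apply far_box
      rw [b3_re, b3_im]
      rcases hw with h | h | h | h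
      · left; linarith
      · right; left; linarith
      · right; right; left; linarith
      · right; right; right; linarith
    have h1 := fadd (fadd hm3f (hm2f.mono (hΩ3.sub (by norm_num)))) (hfin.mono h97)
    refine (h1.congr' (fun i w => ?_)).le hd ?_
    · have g1 : (2 : ℂ) * (-50) - w = -100 - w := by ring
      have g2 : (0 : ℂ) - (-100 - w) = w + 100 := by ring
      simp only [g1, g2]
      ring
    · nlinarith
  · obtain ⟨⟨τ1, hτ1, g1⟩, -⟩ := r1 i
    obtain ⟨⟨τ2, hτ2, g2⟩, -⟩ := r2 i
    obtain ⟨⟨τ3, hτ3, g3⟩, -⟩ := r3 i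
    refine ⟨_, (ip_one hτ1).comp ((ip_one hτ2).comp (ip_one hτ3)), ?_⟩
    have t2 : Tendsto (fun w : ℂ => 2 * (-50) - (D3 - w)) (cobounded ℂ) (cobounded ℂ) :=
      (tendsto_refl _).comp (tendsto_refl _)
    filter_upwards [t2.eventually g1, (tendsto_refl D3).eventually g2, g3] with w k1 k2 k3
    simp only [Function.comp] at k1 k2 k3 ⊢
    have e : 2 * 0 - (2 * (-50) - (D3 - w)) = b3 - w := by unfold D3 b3; ring
    rw [e] at k1
    rw [k1, k2, k3]
  · exact (r3 i).2 ((r2 i).2 ((r1 i).2 (hres i)))

end Pool.Agent.Y263.IV
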